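import Mathlib

/-!
# Module Aw: independence of the maps `a ↦ e a f`

Induction on the number of nonzero `e k` (or take a counterexample with the least number):
normalise one of them to `1`, subtract `c * (relation at a)` from the relation at `c * a`, get a
shorter relation `∑ (e k * c - c * e k) * a * f k = 0`, so all `e k` are central; put `a = 1`.
-/

set_option autoImplicit false

noncomputable section

namespace Pool.Agent.H.MP_4c5958_al.SO

/-- If the `f k` are linearly independent over the centre and `∑ e k * a * f k = 0` for all `a`
then all `e k` vanish. -/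
theorem aw {B : Type*} [DivisionRing B] {n : ℕ} (e f : Fin n → B)
    (hf : ∀ c : Fin n → B, (∀ k b, c k * b = b * c k) → ∑ k, c k * f k = 0 → ∀ k, c k = 0)
    (h : ∀ a, ∑ k, e k * a * f k = 0) : ∀ k, e k = 0 := by
  classical
  have key : ∀ (N : ℕ) (e : Fin n → B), (Finset.univ.filter fun k => e k ≠ 0).card = N →
      (∀ a, ∑ k, e k * a * f k = 0) → ∀ k, e k = 0 := by
    intro N
    induction N using Nat.strong_induction_on with
    | _ N ih =>
      intro e hN h
      by_contra hne
      push Not at hne
      obtain ⟨k0, hk0⟩ := hne
      obtain ⟨e', he'⟩ : ∃ e' : Fin n → B, ∀ k, e' k = (e k0)⁻¹ * e k := ⟨_, fun _ => rfl⟩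
      have hk1 : e' k0 = 1 := by rw [he', inv_mul_cancel₀ hk0]
      have h1 : ∀ a, ∑ k, e' k * a * f k = 0 := by
        intro a
        have h2 : ∑ k, e' k * a * f k = (e k0)⁻¹ * ∑ k, e k * a * f k := by
          rw [Finset.mul_sum]
          refine Finset.sum_congr rfl fun k _ => ?_
          rw [he', mul_assoc, mul_assoc, mul_assoc]
        rw [h2, h, mul_zero]
      have hcen : ∀ k b, e' k * b = b * e' k := by
        intro k b
        have h2 : ∀ k, e' k * b - b * e' k = 0 := by
          refine ih _ ?_ (fun k => e' k * b - b * e' k) rfl ?_
          · rw [← hN]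
            refine Finset.card_lt_card ((Finset.ssubset_iff_of_subset fun k hk => ?_).2
              ⟨k0, Finset.mem_filter.2 ⟨Finset.mem_univ k0, hk0⟩, fun h3 => ?_⟩)
            · refine Finset.mem_filter.2 ⟨Finset.mem_univ k, fun h3 => ?_⟩
              refine (Finset.mem_filter.1 hk).2 ?_
              rw [he', h3, mul_zero, zero_mul, mul_zero, sub_zero]
            · refine (Finset.mem_filter.1 h3).2 ?_
              rw [hk1, one_mul, mul_one, sub_self]
          · intro a
            have h3 : ∑ k, (e' k * b - b * e' k) * a * f k =
                ∑ k, e' k * (b * a) * f k - b * ∑ k, e' k * a * f k := by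
              rw [Finset.mul_sum, ← Finset.sum_sub_distrib]
              refine Finset.sum_congr rfl fun k _ => ?_
              rw [sub_mul, sub_mul]
              simp only [mul_assoc]
            rw [h3, h1, h1, mul_zero, sub_zero]
        exact sub_eq_zero.1 (h2 k)
      have h4 := hf e' hcen (by
        have h5 := h1 1
        simpa only [mul_one] using h5) k0
      rw [hk1] at h4
      exact one_ne_zero h4
  exact key _ e rfl h

end Pool.Agent.H.MP_4c5958_al.SO
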