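import Mathlib

/-!
# Module Bas: a basis of `E` over `K` inside a stable subfield

`E/K` finite Galois with group `G`, `L` a `G`-stable subfield of `E` on which `G` acts faithfully.
The ring `K[L]` is a field between `K` and `E` (`E/K` is algebraic) fixed by no `g ≠ 1`, so it is `E`, and
`L` spans `E` over `K`: choose a basis `ε` of `E` inside `L`. For `e ∈ L` the coordinates `c`
satisfy `Tr (e ε_m) = ∑ c_l Tr (ε_l ε_m)`, all these traces are in `K ∩ L` (the trace is the sum of
the conjugates) and the matrix `(Tr (ε_l ε_m))` is invertible (`traceForm_nondegenerate`,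
`det_traceMatrix_ne_zero`), so the coordinates are in `K ∩ L`.
-/

set_option autoImplicit false

noncomputable section

namespace Pool.Agent.H.MP_4c5958_al.SO

universe u

theorem Bas_span {F K E : Type u} [Field F] [Field K] [Field E] [Algebra F K] [Algebra K E]
    [Algebra F E] [IsScalarTower F K E] [FiniteDimensional K E] [IsGalois K E]
    (L : IntermediateField F E)
    (h2 : ∀ g : E ≃ₐ[K] E, (∀ e ∈ L, g e = e) → g = 1) :
    Submodule.span K (L : Set E) = ⊤ := by
  have e1 : IntermediateField.adjoin K (L : Set E) = ⊤ := by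
    have e2 : (IntermediateField.adjoin K (L : Set E)).fixingSubgroup = ⊥ := by
      rw [eq_bot_iff]
      intro g hg
      rw [IntermediateField.mem_fixingSubgroup_iff] at hg
      rw [Subgroup.mem_bot]
      exact h2 g fun e he => hg e (IntermediateField.subset_adjoin K _ he)
    rw [← IsGalois.fixedField_fixingSubgroup (IntermediateField.adjoin K (L : Set E)), e2,
      IntermediateField.fixedField_bot]
  have e3 : Algebra.adjoin K (L : Set E) = ⊤ := by
    rw [← IntermediateField.adjoin_toSubalgebra, e1]
    rfl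
  have e4 : (Submonoid.closure (L : Set E) : Set E) = L := by
    apply Set.Subset.antisymm
    · have h3 : Submonoid.closure (L : Set E) ≤ L.toSubfield.toSubmonoid :=
        Submonoid.closure_le.2 fun x hx => hx
      exact h3
    · exact Submonoid.subset_closure
  have e5 := Algebra.adjoin_eq_span K (L : Set E)
  rw [e3, e4] at e5
  rw [← e5]
  rfl

theorem exists_basis {F K E : Type u} [Field F] [Field K] [Field E] [Algebra F K] [Algebra K E]
    [Algebra F E] [IsScalarTower F K E] [FiniteDimensional K E] [IsGalois K E]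
    (L : IntermediateField F E) (h1 : ∀ g : E ≃ₐ[K] E, ∀ e ∈ L, g e ∈ L)
    (h2 : ∀ g : E ≃ₐ[K] E, (∀ e ∈ L, g e = e) → g = 1) :
    ∃ (n : ℕ) (ε : Module.Basis (Fin n) K E), (∀ l, ε l ∈ L) ∧
      ∀ e ∈ L, ∀ l, algebraMap K E (ε.repr e l) ∈ L := by
  classical
  obtain ⟨b, hb1, hb2, hb3⟩ := exists_linearIndependent K (L : Set E)
  rw [Bas_span L h2] at hb2
  let B : Module.Basis b K E := Module.Basis.mk hb3 (by
    rw [Subtype.range_coe]
    exact hb2.ge)
  have hfin : Finite b := Module.Finite.finite_basis B
  have hft : Fintype b := Fintype.ofFinite b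
  let ε : Module.Basis (Fin (Fintype.card b)) K E := B.reindex (Fintype.equivFin b)
  have hε : ∀ l, ε l ∈ L := by
    intro l
    have h3 : ε l = ((Fintype.equivFin b).symm l : E) := by
      simp [ε, B]
    rw [h3]
    exact hb1 ((Fintype.equivFin b).symm l).2
  refine ⟨Fintype.card b, ε, hε, fun e he l => ?_⟩
  let K' : Subfield K := L.toSubfield.comap (algebraMap K E)
  have htr : ∀ x ∈ L, Algebra.trace K E x ∈ K' := by
    intro x hx
    have h3 : algebraMap K E (Algebra.trace K E x) ∈ L := by
      rw [trace_eq_sum_automorphisms]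
      exact sum_mem fun σ _ => h1 σ x hx
    exact h3
  let T : Matrix (Fin (Fintype.card b)) (Fin (Fintype.card b)) K' :=
    fun i j => ⟨Algebra.trace K E (ε i * ε j), htr _ (mul_mem (hε i) (hε j))⟩
  let v : Fin (Fintype.card b) → K' :=
    fun i => ⟨Algebra.trace K E (e * ε i), htr _ (mul_mem he (hε i))⟩
  have hT : T.map K'.subtype = Algebra.traceMatrix K ε := by
    ext i j
    rfl
  have hdet : (Algebra.traceMatrix K ε).det ≠ 0 := by
    rw [Algebra.traceMatrix_of_basis]
    exact det_traceForm_ne_zero ε
  have hdT : T.det ≠ 0 := by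
    intro h
    apply hdet
    have h3 := K'.subtype.map_det T
    rw [h, map_zero, RingHom.mapMatrix_apply, hT] at h3
    exact h3.symm
  have hc : T.mulVec (T⁻¹.mulVec v) = v := by
    rw [Matrix.mulVec_mulVec, Matrix.mul_nonsing_inv _ (isUnit_iff_ne_zero.2 hdT),
      Matrix.one_mulVec]
  have hc2 : (Algebra.traceMatrix K ε).mulVec (K'.subtype ∘ T⁻¹.mulVec v) =
      fun i => Algebra.trace K E (e * ε i) := by
    ext i
    rw [← hT, ← RingHom.map_mulVec, hc]
    rfl
  have hc3 := Algebra.traceMatrix_of_basis_mulVec ε e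
  have hinj : Function.Injective (Algebra.traceMatrix K ε).mulVec :=
    Matrix.mulVec_injective_iff_isUnit.2
      ((Matrix.isUnit_iff_isUnit_det _).2 (isUnit_iff_ne_zero.2 hdet))
  have hc4 := hinj (hc3.trans hc2.symm)
  have hc5 : ε.repr e l = (T⁻¹.mulVec v l : K) := by
    have := congrFun hc4 l
    rw [Module.Basis.equivFun_apply] at this
    exact this
  rw [hc5]
  exact (T⁻¹.mulVec v l).2

end Pool.Agent.H.MP_4c5958_al.SO
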