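import Pool.Agent.H.MP_4c5958_al.SO.DecB

/-!
# Module Cde: the constants `b` and `c`

`u ^ 5` commutes with `ι E` (`σ ^ 5 = 1`), so it is `ι b`, and it commutes with `u`, so `σ b = b`.
`T u * u⁻¹ ^ k` commutes with `ι E`: `T u * ι (τ e) = T (u * ι e) = T (ι (σ e) * u) =
ι (τ (σ e)) * T u` and `τ σ = σ ^ k τ`.
-/

set_option autoImplicit false

noncomputable section

namespace Pool.Agent.H.MP_4c5958_al.SO

universe u

variable {K E A B : Type u} [Field K] [Field E] [Algebra K E] {D : GD K E} [Ring A]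
    [Algebra K A] [DivisionRing B] [Algebra K B] (P : AD D A B)

theorem exists_b {u : B} (hu0 : u ≠ 0) (hu : ∀ e, u * P.ι e = P.ι (D.σ e) * u) :
    ∃ b : E, b ≠ 0 ∧ D.σ b = b ∧ u ^ 5 = P.ι b := by
  have h5 : D.σ ^ 5 = 1 := by
    rw [← D.hσ]
    exact pow_orderOf_eq_one _
  obtain ⟨b, hb⟩ := dec_cent P hu0 hu (u ^ 5) (fun e => by
    rw [DecB_pow P hu, h5, AlgEquiv.one_apply])
  refine ⟨b, ?_, ?_, hb⟩
  · rintro rfl
    rw [map_zero] at hb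
    exact pow_ne_zero 5 hu0 hb
  · have h1 : P.ι (D.σ b) * u = P.ι b * u := by
      rw [← hu, ← hb, ← pow_succ, ← pow_succ']
    exact P.ι.toRingHom.injective (mul_right_cancel₀ hu0 h1)

theorem exists_c {u : B} (hu0 : u ≠ 0) (hu : ∀ e, u * P.ι e = P.ι (D.σ e) * u) :
    ∃ c : E, c ≠ 0 ∧ P.T u = P.ι c * u ^ D.k := by
  have hk0 : u ^ D.k ≠ 0 := pow_ne_zero _ hu0
  have hT : ∀ e, P.T u * P.ι (D.τ e) = P.ι (D.τ (D.σ e)) * P.T u := by
    intro e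
    rw [← P.Tι, ← map_mul, hu, map_mul, P.Tι]
  have hrel : ∀ e, D.τ (D.σ e) = (D.σ ^ D.k) (D.τ e) := by
    intro e
    rw [← AlgEquiv.mul_apply, D.rel, AlgEquiv.mul_apply]
  have hinv : ∀ e, (u ^ D.k)⁻¹ * P.ι ((D.σ ^ D.k) e) = P.ι e * (u ^ D.k)⁻¹ := by
    intro e
    have h1 := DecB_pow P hu D.k e
    calc (u ^ D.k)⁻¹ * P.ι ((D.σ ^ D.k) e)
        = (u ^ D.k)⁻¹ * (P.ι ((D.σ ^ D.k) e) * u ^ D.k) * (u ^ D.k)⁻¹ := by
          rw [mul_assoc, mul_assoc, mul_inv_cancel₀ hk0, mul_one]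
      _ = P.ι e * (u ^ D.k)⁻¹ := by
          rw [← h1, ← mul_assoc, inv_mul_cancel₀ hk0, one_mul]
  obtain ⟨c, hc⟩ := dec_cent P hu0 hu (P.T u * (u ^ D.k)⁻¹) (fun e => by
    obtain ⟨e1, rfl⟩ := (D.σ ^ D.k).surjective e
    obtain ⟨e2, rfl⟩ := D.τ.surjective e1
    rw [mul_assoc, hinv, ← mul_assoc, hT, hrel, mul_assoc])
  have h2 : P.T u = P.ι c * u ^ D.k := by
    rw [← hc, mul_assoc, inv_mul_cancel₀ hk0, mul_one]
  refine ⟨c, ?_, h2⟩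
  rintro rfl
  rw [map_zero, zero_mul] at h2
  exact hu0 (P.T.injective (h2.trans (map_zero P.T).symm))

end Pool.Agent.H.MP_4c5958_al.SO
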