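import Pool.Agent.H.MP_4c5958_al.SO.Defs

/-!
# Module Cdp: fifth powers
-/

set_option autoImplicit false

noncomputable section

namespace Pool.Agent.H.MP_4c5958_al.SO

universe u

variable {K E A B : Type u} [Field K] [Field E] [Algebra K E] {D : GD K E} [Ring A]
    [Algebra K A] [DivisionRing B] [Algebra K B] (P : AD D A B)

include P in
theorem Cdp_comm {v : B} {s : E ≃ₐ[K] E} (hv : ∀ e, v * P.ι e = P.ι (s e) * v) (n : ℕ) (e : E) :
    v ^ n * P.ι e = P.ι ((s ^ n) e) * v ^ n := by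
  induction n generalizing e with
  | zero => simp
  | succ n ih =>
    rw [pow_succ, mul_assoc, hv, ← mul_assoc, ih, mul_assoc, ← pow_succ, pow_succ s,
      AlgEquiv.mul_apply]

include P in
theorem Cdp_gen {v : B} {s : E ≃ₐ[K] E} (hv : ∀ e, v * P.ι e = P.ι (s e) * v) (n : ℕ) (e : E) :
    (P.ι e * v) ^ n = P.ι (∏ i ∈ Finset.range n, (s ^ i) e) * v ^ n := by
  induction n with
  | zero => simp
  | succ n ih =>
    rw [pow_succ, ih, Finset.prod_range_succ, map_mul]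
    have h := Cdp_comm P hv n e
    calc P.ι (∏ i ∈ Finset.range n, (s ^ i) e) * v ^ n * (P.ι e * v)
        = P.ι (∏ i ∈ Finset.range n, (s ^ i) e) * (v ^ n * P.ι e) * v := by
          simp only [mul_assoc]
      _ = P.ι (∏ i ∈ Finset.range n, (s ^ i) e) * P.ι ((s ^ n) e) * v ^ (n + 1) := by
          rw [h, pow_succ]
          simp only [mul_assoc]

theorem Cdp_s5 (D : GD K E) : D.σ ^ 5 = 1 := by
  have h := pow_orderOf_eq_one D.σ
  rwa [D.hσ] at h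

/-- The fifth power of `ι e * u`, by `hu`. -/
theorem pow_five {u : B} (hu : ∀ e, u * P.ι e = P.ι (D.σ e) * u) (e : E) :
    (P.ι e * u) ^ 5 = P.ι (∏ i ∈ Finset.range 5, (D.σ ^ i) e) * u ^ 5 := by
  exact Cdp_gen P hu 5 e

/-- The fifth power of `ι e * u ^ 2`. -/
theorem pow_five' {u : B} (hu : ∀ e, u * P.ι e = P.ι (D.σ e) * u) (e : E) :
    (P.ι e * u ^ 2) ^ 5 = P.ι (∏ i ∈ Finset.range 5, (D.σ ^ i) e) * u ^ 10 := by
  have hv : ∀ e, u ^ 2 * P.ι e = P.ι ((D.σ ^ 2) e) * u ^ 2 := fun e => Cdp_comm P hu 2 e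
  have h := Cdp_gen P hv 5 e
  have h5 := Cdp_s5 D
  have e6 : D.σ ^ 6 = D.σ := by
    rw [show (6 : ℕ) = 5 + 1 from rfl, pow_add, h5, one_mul, pow_one]
  have e8 : D.σ ^ 8 = D.σ ^ 3 := by
    rw [show (8 : ℕ) = 5 + 3 from rfl, pow_add, h5, one_mul]
  have hp : (∏ i ∈ Finset.range 5, ((D.σ ^ 2) ^ i) e) = ∏ i ∈ Finset.range 5, (D.σ ^ i) e := by
    simp only [Finset.prod_range_succ, Finset.prod_range_zero, ← pow_mul, Nat.mul_zero,
      Nat.mul_one, Nat.reduceMul, e6, e8, pow_zero, pow_one, one_mul]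
    ring
  rw [h, hp, ← pow_mul]

/-- The fifth power of `ι e * u⁻¹`. -/
theorem pow_five'' {u : B} (hu0 : u ≠ 0) (hu : ∀ e, u * P.ι e = P.ι (D.σ e) * u) (e : E) :
    (P.ι e * u⁻¹) ^ 5 = P.ι (∏ i ∈ Finset.range 5, (D.σ ^ i) e) * (u ^ 5)⁻¹ := by
  have h5 := Cdp_s5 D
  have h4 : ∀ e, D.σ ((D.σ ^ 4) e) = e := by
    intro e
    rw [← AlgEquiv.mul_apply, ← pow_succ', h5]
    rfl
  have hv : ∀ e, u⁻¹ * P.ι e = P.ι ((D.σ ^ 4) e) * u⁻¹ := by
    intro e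
    have h := hu ((D.σ ^ 4) e)
    rw [h4] at h
    calc u⁻¹ * P.ι e = u⁻¹ * (P.ι e * u) * u⁻¹ := by
          rw [mul_assoc, mul_assoc, mul_inv_cancel₀ hu0, mul_one]
      _ = P.ι ((D.σ ^ 4) e) * u⁻¹ := by
          rw [← h, ← mul_assoc, inv_mul_cancel₀ hu0, one_mul]
  have h := Cdp_gen P hv 5 e
  have e8 : D.σ ^ 8 = D.σ ^ 3 := by
    rw [show (8 : ℕ) = 5 + 3 from rfl, pow_add, h5, one_mul]
  have e12 : D.σ ^ 12 = D.σ ^ 2 := by
    rw [show (12 : ℕ) = 5 + (5 + 2) from rfl, pow_add, pow_add, h5, one_mul, one_mul]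
  have e16 : D.σ ^ 16 = D.σ := by
    rw [show (16 : ℕ) = 5 + (5 + (5 + 1)) from rfl, pow_add, pow_add, pow_add, h5, one_mul,
      one_mul, one_mul, pow_one]
  have hp : (∏ i ∈ Finset.range 5, ((D.σ ^ 4) ^ i) e) = ∏ i ∈ Finset.range 5, (D.σ ^ i) e := by
    simp only [Finset.prod_range_succ, Finset.prod_range_zero, ← pow_mul, Nat.mul_zero,
      Nat.mul_one, Nat.reduceMul, e8, e12, e16, pow_zero, pow_one, one_mul]
    ring
  rw [h, hp, inv_pow]

end Pool.Agent.H.MP_4c5958_al.SO
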