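import Pool.Agent.H.MP_4c5958_al.SO.Fx

/-!
# Module Dec: the powers of `u` are a basis of `B` over `E`

View `B` as a left vector space over `E` via `ι`; right multiplication by `ι θ` is `E`-linear, and
`u ^ i` (`i < 5`) is an eigenvector for the eigenvalue `σ ^ i θ`; these are distinct
(`hσ`, `σθ`: if `σ ^ i θ = σ ^ j θ`, `i ≠ j`, then `σ θ = θ`). So the `u ^ i` are linearly
independent over `E`, and `dim_E B = 25 r / (5 r) = 5` (`finrank K E = 5 r`, `D.card`).
-/

set_option autoImplicit false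

noncomputable section

namespace Pool.Agent.H.MP_4c5958_al.SO

universe u

variable {K E A B : Type u} [Field K] [Field E] [Algebra K E] {D : GD K E} [Ring A]
    [Algebra K A] [DivisionRing B] [Algebra K B] (P : AD D A B)

private theorem Dec_pow {u : B} (hu : ∀ e, u * P.ι e = P.ι (D.σ e) * u) (i : ℕ) (e : E) :
    u ^ i * P.ι e = P.ι ((D.σ ^ i) e) * u ^ i := by
  induction i with
  | zero => rw [pow_zero, pow_zero, one_mul, mul_one, AlgEquiv.one_apply]
  | succ i ih =>
    rw [pow_succ', mul_assoc, ih, ← mul_assoc, hu, mul_assoc, pow_succ' D.σ, AlgEquiv.mul_apply]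

private theorem Dec_lt {i j : ℕ} (hij : i < j) (hj : j < 5) :
    (D.σ ^ i) D.θ ≠ (D.σ ^ j) D.θ := by
  intro h
  obtain ⟨d, rfl⟩ : ∃ d, j = i + d := ⟨j - i, by omega⟩
  rw [pow_add, AlgEquiv.mul_apply] at h
  have h1 : D.θ = (D.σ ^ d) D.θ := (D.σ ^ i).injective h
  have hc : Nat.Coprime d (orderOf D.σ) := by
    rw [D.hσ]
    have hd1 : 1 ≤ d := by omega
    have hd2 : d < 5 := by omega
    interval_cases d <;> decide
  obtain ⟨m, hm⟩ := exists_pow_eq_self_of_coprime hc
  have h2 : ∀ n : ℕ, ((D.σ ^ d) ^ n) D.θ = D.θ := by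
    intro n
    induction n with
    | zero => rw [pow_zero, AlgEquiv.one_apply]
    | succ n ih => rw [pow_succ, AlgEquiv.mul_apply, ← h1, ih]
  have h3 := h2 m
  rw [hm] at h3
  exact D.σθ h3

private theorem Dec_inj : Function.Injective (fun i : Fin 5 => (D.σ ^ (i : ℕ)) D.θ) := by
  intro i j h
  rcases lt_trichotomy i j with h1 | h1 | h1
  · exact (Dec_lt (D := D) (Fin.lt_def.1 h1) j.isLt h).elim
  · exact h1
  · exact (Dec_lt (D := D) (Fin.lt_def.1 h1) i.isLt h.symm).elim

private theorem Dec_key {u : B} (hu0 : u ≠ 0) (hu : ∀ e, u * P.ι e = P.ι (D.σ e) * u) :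
    (∀ c : Fin 5 → E, ∑ i, P.ι (c i) * u ^ (i : ℕ) = 0 → c = 0) ∧
      ∀ b : B, ∃ c : Fin 5 → E, b = ∑ i, P.ι (c i) * u ^ (i : ℕ) := by
  let _ : Module E B := Module.compHom B (P.ι : E →+* B)
  have hs : ∀ (e : E) (b : B), e • b = P.ι e * b := fun _ _ => rfl
  let f : Module.End E B :=
    { toFun := fun b => b * P.ι D.θ
      map_add' := fun a b => add_mul a b _
      map_smul' := fun e b => mul_assoc (P.ι e) b _ }
  have hli : LinearIndependent E (fun i : Fin 5 => u ^ (i : ℕ)) := by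
    refine Module.End.eigenvectors_linearIndependent' f (fun i : Fin 5 => (D.σ ^ (i : ℕ)) D.θ)
      (Dec_inj (D := D)) _ (fun i => ?_)
    exact ⟨Module.End.mem_eigenspace_iff.2 (Dec_pow P hu i D.θ), pow_ne_zero _ hu0⟩
  refine ⟨fun c h => ?_, fun b => ?_⟩
  · funext i
    exact Fintype.linearIndependent_iff.1 hli c h i
  · have := D.fin
    have := D.gal
    have := P.fin
    have : IsScalarTower K E B := ⟨fun k e b => by
      rw [hs, hs, map_smul, smul_mul_assoc]⟩
    have : Module.Finite E B := Module.Finite.of_restrictScalars_finite K E B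
    have h1 : Module.finrank K E * Module.finrank E B = Module.finrank K B :=
      Module.finrank_mul_finrank K E B
    have h2 : Module.finrank K E = 5 * D.r := by
      rw [← IsGalois.card_aut_eq_finrank, D.card]
    rw [h2, P.dim] at h1
    have hr : 0 < D.r := by
      rcases D.hrk with h | h | h <;> omega
    have h3 : Module.finrank E B = 5 := by
      have h4 : (5 * D.r) * Module.finrank E B = (5 * D.r) * 5 := by rw [h1]; ring
      exact Nat.eq_of_mul_eq_mul_left (by omega) h4
    let bs := basisOfLinearIndependentOfCardEqFinrank hli (by rw [h3, Fintype.card_fin])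
    refine ⟨fun i => bs.repr b i, ?_⟩
    have h5 := bs.sum_repr b
    rw [coe_basisOfLinearIndependentOfCardEqFinrank] at h5
    exact h5.symm

theorem dec_indep {u : B} (hu0 : u ≠ 0) (hu : ∀ e, u * P.ι e = P.ι (D.σ e) * u)
    (c : Fin 5 → E) (h : ∑ i, P.ι (c i) * u ^ (i : ℕ) = 0) : c = 0 :=
  (Dec_key P hu0 hu).1 c h

theorem dec_span {u : B} (hu0 : u ≠ 0) (hu : ∀ e, u * P.ι e = P.ι (D.σ e) * u) (b : B) :
    ∃ c : Fin 5 → E, b = ∑ i, P.ι (c i) * u ^ (i : ℕ) :=
  (Dec_key P hu0 hu).2 b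

end Pool.Agent.H.MP_4c5958_al.SO
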