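import Pool.Agent.H.MP_4c5958_al.SO.Defs

/-!
# Module Fx: the field fixed by `σ`
-/

set_option autoImplicit false

noncomputable section

open Polynomial

namespace Pool.Agent.H.MP_4c5958_al.SO

universe u

variable {K E : Type u} [Field K] [Field E] [Algebra K E] (D : GD K E)

theorem mem_MM (e : E) : e ∈ D.MM ↔ D.σ e = e := by
  unfold GD.MM
  rw [IntermediateField.mem_fixedField_iff]
  constructor
  · intro h
    exact h D.σ (Subgroup.mem_zpowers D.σ)
  · intro h f hf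
    have h1 : Subgroup.zpowers D.σ ≤ MulAction.stabilizer (E ≃ₐ[K] E) e :=
      Subgroup.zpowers_le.2 h
    exact h1 hf

/-- `M` has degree `r` over `K`. -/
theorem finrank_MM : Module.finrank K D.MM = D.r := by
  have h0 := D.fin
  have h1 := D.gal
  have h2 : Module.finrank D.MM E = 5 := by
    unfold GD.MM
    rw [IntermediateField.finrank_fixedField_eq_card, Nat.card_zpowers, D.hσ]
  have h3 : Module.finrank K D.MM * Module.finrank D.MM E = Module.finrank K E :=
    Module.finrank_mul_finrank K D.MM E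
  have h4 := IsGalois.card_aut_eq_finrank K E
  have h5 := D.card
  rw [h2, ← h4, h5] at h3
  omega

/-- `σ` fixes what `σ ^ k` fixes. -/
theorem Fx_pow (e : E) (h : (D.σ ^ D.k) e = e) : D.σ e = e := by
  have h5 : D.σ ^ 5 = 1 := by
    rw [← D.hσ]
    exact pow_orderOf_eq_one _
  have h1 : ∀ j : ℕ, ((D.σ ^ D.k) ^ j) e = e := by
    intro j
    induction j with
    | zero => rfl
    | succ j ih =>
      rw [pow_succ, AlgEquiv.mul_apply, h, ih]
  rcases D.hrk with ⟨-, hk⟩ | ⟨-, hk⟩ | ⟨-, hk⟩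
  · rw [hk, pow_one] at h
    exact h
  · have h2 := h1 4
    rw [hk, ← pow_mul] at h2
    have h3 : D.σ ^ (4 * 4) = D.σ := by
      calc D.σ ^ (4 * 4) = (D.σ ^ 5) ^ 3 * D.σ := by rw [← pow_mul, ← pow_succ]
        _ = D.σ := by rw [h5, one_pow, one_mul]
    rw [h3] at h2
    exact h2
  · have h2 := h1 3
    rw [hk, ← pow_mul] at h2
    have h3 : D.σ ^ (2 * 3) = D.σ := by
      calc D.σ ^ (2 * 3) = D.σ ^ 5 * D.σ := by rw [← pow_succ]
        _ = D.σ := by rw [h5, one_mul]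
    rw [h3] at h2
    exact h2

theorem Fx_tau (e : E) (h : D.σ e = e) : D.σ (D.τ e) = D.τ e := by
  apply Fx_pow
  have h1 : (D.τ * D.σ) e = (D.σ ^ D.k * D.τ) e := by rw [D.rel]
  rw [AlgEquiv.mul_apply, AlgEquiv.mul_apply, h] at h1
  exact h1.symm

/-- `τ` restricts to `M`. -/
theorem exists_tau : ∃ t : D.MM ≃ₐ[K] D.MM, (∀ m : D.MM, ((t m : D.MM) : E) = D.τ (m : E)) ∧
    t ^ D.r = 1 := by
  have h0 := D.fin
  let f0 : D.MM →ₐ[K] E := (D.τ : E →ₐ[K] E).comp D.MM.val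
  have hf0 : ∀ m : D.MM, f0 m ∈ D.MM.toSubalgebra := fun m =>
    (mem_MM D _).2 (Fx_tau D _ ((mem_MM D _).1 m.2))
  let f : D.MM →ₐ[K] D.MM := f0.codRestrict D.MM.toSubalgebra hf0
  have hf : ∀ m : D.MM, ((f m : D.MM) : E) = D.τ (m : E) := fun m => rfl
  let t : D.MM ≃ₐ[K] D.MM := AlgEquiv.ofBijective f (Algebra.IsAlgebraic.algHom_bijective f)
  have ht : ∀ m : D.MM, ((t m : D.MM) : E) = D.τ (m : E) := fun m => rfl
  have htn : ∀ (n : ℕ) (m : D.MM), (((t ^ n) m : D.MM) : E) = (D.τ ^ n) (m : E) := by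
    intro n
    induction n with
    | zero => intro m; rfl
    | succ n ih =>
      intro m
      rw [pow_succ, pow_succ, AlgEquiv.mul_apply, AlgEquiv.mul_apply, ih, ht]
  refine ⟨t, ht, ?_⟩
  have h1 : D.τ ^ D.r = 1 := by
    rw [← D.hτ]
    exact pow_orderOf_eq_one _
  apply AlgEquiv.ext
  intro m
  apply Subtype.ext
  rw [htn, h1]
  rfl

/-- Elements fixed by `σ` and `τ` are in `K`. -/
theorem fixed_K (e : E) (h1 : D.σ e = e) (h2 : D.τ e = e) : ∃ c : K, algebraMap K E c = e := by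
  have h0 := D.fin
  have h3 := D.gal
  have h4 : ∀ g : E ≃ₐ[K] E, g e = e → ∀ n : ℕ, (g ^ n) e = e := by
    intro g hg n
    induction n with
    | zero => rfl
    | succ n ih => rw [pow_succ, AlgEquiv.mul_apply, hg, ih]
  have h5 : ∀ g : E ≃ₐ[K] E, g e = e := by
    intro g
    obtain ⟨i, -, j, -, rfl⟩ := D.gen g
    rw [AlgEquiv.mul_apply, h4 D.τ h2, h4 D.σ h1]
  exact (IsGalois.mem_range_algebraMap_iff_fixed e).2 h5

end Pool.Agent.H.MP_4c5958_al.SO
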