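import Pool.Agent.H.MP_4c5958_al.SO.Nf
import Pool.Agent.H.MP_4c5958_al.SO.Fx
import Pool.Agent.H.MP_4c5958_al.SO.Dec

/-!
# Module ChA: characteristic five, a purely inseparable element

Apply `normal_form` with `F := K`: `u ^ 5 = ι b`, `T u = ι d * u ^ k`, and `b`, `d` are fixed by `σ`
(the elements of `adjoin K S` are). So `T ^ j u = ι (m j) * u ^ (k ^ j)` with `σ (m j) = m j`, `m 0 = 1`;
these commute with each other. Put `z' = ∑ j < r, T ^ j u`. It is fixed by `T` (`P.Tr`), so `z' = inc z`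
(`P.Tfix`). In characteristic five `z' ^ 5 = ∑ (T ^ j u) ^ 5 = ι (∑ τ ^ j b)` and the sum is in `K`
(`fixed_K`). `z` is not in `K`: reduce `u ^ (k ^ j)` by `u ^ 5 = ι b`; for `j < r` the residues
`k ^ j` modulo `5` are distinct, the coefficient of `u` in `z'` is `1`, `dec_indep`.
-/

set_option autoImplicit false

noncomputable section

namespace Pool.Agent.H.MP_4c5958_al.SO

universe u

theorem ChA_pow {K E A B : Type u} [Field K] [Field E] [Algebra K E] {D : GD K E}
    [Ring A] [Algebra K A] [DivisionRing B] [Algebra K B] (P : AD D A B) {u : B} {d : E}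
    (hd : D.σ d = d) (hT : P.T u = P.ι d * u ^ D.k) (j : ℕ) :
    ∃ m : E, D.σ m = m ∧ (P.T ^ j) u = P.ι m * u ^ (D.k ^ j) := by
  induction j with
  | zero =>
    refine ⟨1, map_one _, ?_⟩
    rw [pow_zero, pow_zero, pow_one, map_one, one_mul, AlgEquiv.one_apply]
  | succ j ih =>
    obtain ⟨m, hm, h⟩ := ih
    refine ⟨D.τ m * d ^ (D.k ^ j), ?_, ?_⟩
    · rw [map_mul, map_pow, hd, Fx_tau D m hm]
    · have hc : Commute (P.ι d) (u ^ D.k) := (P.central d hd _).symm
      rw [pow_succ', AlgEquiv.mul_apply, h, map_mul, map_pow, P.Tι, hT, hc.mul_pow, ← pow_mul,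
        ← map_pow, ← mul_assoc, ← map_mul, ← pow_succ']

theorem ChA_comm {K E A B : Type u} [Field K] [Field E] [Algebra K E] {D : GD K E}
    [Ring A] [Algebra K A] [DivisionRing B] [Algebra K B] (P : AD D A B) {u : B} {d : E}
    (hd : D.σ d = d) (hT : P.T u = P.ι d * u ^ D.k) (i j : ℕ) :
    Commute ((P.T ^ i) u) ((P.T ^ j) u) := by
  obtain ⟨m, hm, h⟩ := ChA_pow P hd hT i
  obtain ⟨m', hm', h'⟩ := ChA_pow P hd hT j
  rw [h, h']
  have h1 : ∀ x : B, Commute (P.ι m) x := fun x => (P.central m hm x).symm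
  have h2 : ∀ x : B, Commute (P.ι m') x := fun x => (P.central m' hm' x).symm
  have h3 : Commute (u ^ (D.k ^ i)) (u ^ (D.k ^ j)) :=
    (Commute.refl u).pow_pow _ _
  exact (h1 _).mul_left ((h2 _).symm.mul_right h3)

theorem ChA_sum {K E A B : Type u} [Field K] [Field E] [Algebra K E] [CharP K 5] {D : GD K E}
    [Ring A] [Algebra K A] [DivisionRing B] [Algebra K B] (P : AD D A B) {u : B} {b d : E}
    (hd : D.σ d = d) (hT : P.T u = P.ι d * u ^ D.k) (h5 : u ^ 5 = P.ι b) (n : ℕ) :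
    (∑ j ∈ Finset.range n, (P.T ^ j) u) ^ 5 = P.ι (∑ j ∈ Finset.range n, (D.τ ^ j) b) := by
  have : Fact (Nat.Prime 5) := ⟨by norm_num⟩
  have : CharP B 5 := charP_of_injective_algebraMap (algebraMap K B).injective 5
  have hTj : ∀ j : ℕ, (P.T ^ j) (P.ι b) = P.ι ((D.τ ^ j) b) := by
    intro j
    induction j with
    | zero => rfl
    | succ j ih =>
      rw [pow_succ', pow_succ', AlgEquiv.mul_apply, AlgEquiv.mul_apply, ih, P.Tι]
  induction n with
  | zero =>
    rw [Finset.sum_range_zero, Finset.sum_range_zero, map_zero]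
    exact zero_pow (by norm_num)
  | succ n ih =>
    have hc : Commute (∑ j ∈ Finset.range n, (P.T ^ j) u) ((P.T ^ n) u) :=
      Commute.sum_left _ _ _ (fun j _ => ChA_comm P hd hT j n)
    rw [Finset.sum_range_succ, Finset.sum_range_succ, add_pow_char_of_commute 5 hc, ih, map_add,
      ← map_pow, h5, hTj]

theorem ChA_fix {G : Type*} [AddCommMonoid G] [IsRightCancelAdd G] (f : ℕ → G) (n : ℕ)
    (h : f n = f 0) : ∑ j ∈ Finset.range n, f (j + 1) = ∑ j ∈ Finset.range n, f j := by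
  have h1 := Finset.sum_range_succ f n
  have h2 := Finset.sum_range_succ' f n
  rw [h1, h] at h2
  exact (add_right_cancel h2).symm

theorem ChA_not {K E A B : Type u} [Field K] [Field E] [Algebra K E] {D : GD K E}
    [Ring A] [Algebra K A] [DivisionRing B] [Algebra K B] (P : AD D A B) {u : B} {b d : E}
    (hu0 : u ≠ 0) (hu : ∀ e, u * P.ι e = P.ι (D.σ e) * u)
    (hd : D.σ d = d) (hT : P.T u = P.ι d * u ^ D.k) (h5 : u ^ 5 = P.ι b) (e : E) :
    ∑ j ∈ Finset.range D.r, (P.T ^ j) u ≠ P.ι e := by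
  intro h
  have hcase : ∀ c2 c3 c4 : E,
      u + (P.ι c2 * u ^ 2 + P.ι c3 * u ^ 3 + P.ι c4 * u ^ 4) = P.ι e → False := by
    intro c2 c3 c4 hh
    have h0 := dec_indep P hu0 hu ![-e, 1, c2, c3, c4] (by
      rw [Fin.sum_univ_five]
      change P.ι (-e) * u ^ 0 + P.ι 1 * u ^ 1 + P.ι c2 * u ^ 2 + P.ι c3 * u ^ 3 +
        P.ι c4 * u ^ 4 = 0
      rw [map_neg, map_one, pow_zero, pow_one, mul_one, one_mul, ← hh]
      abel)
    have h1 : (1 : E) = 0 := congrFun h0 1
    exact one_ne_zero h1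
  rcases D.hrk with ⟨hr, hk⟩ | ⟨hr, hk⟩ | ⟨hr, hk⟩
  · rw [hr, Finset.sum_range_one, pow_zero, AlgEquiv.one_apply] at h
    apply hcase 0 0 0
    rw [h, map_zero]
    simp
  · rw [hr, Finset.sum_range_succ, Finset.sum_range_one, pow_zero, AlgEquiv.one_apply, pow_one,
      hT, hk] at h
    apply hcase 0 0 d
    rw [← h, map_zero]
    simp
  · obtain ⟨m2, -, h2⟩ := ChA_pow P hd hT 2
    obtain ⟨m3, -, h3⟩ := ChA_pow P hd hT 3
    rw [hr, Finset.sum_range_succ, Finset.sum_range_succ, Finset.sum_range_succ,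
      Finset.sum_range_one, pow_zero, AlgEquiv.one_apply, pow_one, hT, h2, h3, hk] at h
    apply hcase d (m3 * b) m2
    rw [← h]
    have h8 : P.ι m3 * u ^ (2 ^ 3) = P.ι (m3 * b) * u ^ 3 := by
      have : u ^ (2 ^ 3) = u ^ 5 * u ^ 3 := by
        rw [← pow_add]
        norm_num
      rw [this, h5, map_mul, mul_assoc]
    rw [h8]
    have h4 : u ^ (2 ^ 2) = u ^ 4 := rfl
    rw [h4]
    abel

theorem exists_insep {K E A B : Type u} [Field K] [Field E] [Algebra K E] [CharP K 5] {D : GD K E}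
    [Ring A] [Algebra K A] [DivisionRing B] [Algebra K B] (P : AD D A B) :
    ∃ (z : A) (a : K), z ^ 5 = algebraMap K A a ∧ ∀ c : K, z ≠ algebraMap K A c := by
  obtain ⟨S, u, b, d, -, hS, -, hbS, hdS, hu0, hu, h5, hT⟩ := normal_form (F := K) P
  have hle : IntermediateField.adjoin K (S : Set E) ≤ D.MM :=
    IntermediateField.adjoin_le_iff.2 (fun s hs => (mem_MM D s).2 (hS s hs))
  have hb : D.σ b = b := (mem_MM D b).1 (hle hbS)
  have hd : D.σ d = d := (mem_MM D d).1 (hle hdS)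
  have hTz : P.T (∑ j ∈ Finset.range D.r, (P.T ^ j) u) = ∑ j ∈ Finset.range D.r, (P.T ^ j) u := by
    have h1 := ChA_fix (fun j => (P.T ^ j) u) D.r (by
      rw [P.Tr, pow_zero])
    rw [map_sum]
    refine Eq.trans (Finset.sum_congr rfl fun j _ => ?_) h1
    rw [pow_succ', AlgEquiv.mul_apply]
  have hτr : D.τ ^ D.r = 1 := by
    have h1 := pow_orderOf_eq_one D.τ
    rwa [D.hτ] at h1
  have hστ : ∀ j : ℕ, D.σ ((D.τ ^ j) b) = (D.τ ^ j) b := by
    intro j
    induction j with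
    | zero => exact hb
    | succ j ih =>
      rw [pow_succ', AlgEquiv.mul_apply]
      exact Fx_tau D _ ih
  obtain ⟨a, ha⟩ := fixed_K D (∑ j ∈ Finset.range D.r, (D.τ ^ j) b)
    (by
      rw [map_sum]
      exact Finset.sum_congr rfl fun j _ => hστ j)
    (by
      have h1 := ChA_fix (fun j => (D.τ ^ j) b) D.r (by
        rw [hτr, pow_zero])
      rw [map_sum]
      refine Eq.trans (Finset.sum_congr rfl fun j _ => ?_) h1
      rw [pow_succ', AlgEquiv.mul_apply])
  obtain ⟨z, hz⟩ := P.Tfix _ hTz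
  refine ⟨z, a, ?_, ?_⟩
  · apply P.inc_inj
    rw [map_pow, hz, ChA_sum P hd hT h5, ← ha, P.ι.commutes, P.inc.commutes]
  · intro c hc
    refine ChA_not P hu0 hu hd hT h5 (algebraMap K E c) ?_
    rw [← hz, hc, P.ι.commutes, P.inc.commutes]

end Pool.Agent.H.MP_4c5958_al.SO
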