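import Mathlib

/-!
# Module ChB: characteristic five, Albert's theorem

`δ b = z b - b z` satisfies `δ ^ 5 = 0` (`δ ^ 5 b = z ^ 5 b - b z ^ 5` in characteristic five: `δ` is the
difference of two commuting operators) and `δ ≠ 0` (`z` is not central). So there is `w` with
`δ w ≠ 0`, `δ (δ w) = 0`. Let `s = δ w`; `s` commutes with `z`; `s` is invertible (`A` is a finite
dimensional domain); `y = s⁻¹ z w`: `δ y = s⁻¹ z s = z`, that is `z y = (y + 1) z`.
-/

set_option autoImplicit false

noncomputable section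

namespace Pool.Agent.H.MP_4c5958_al.SO

universe u

theorem exists_y {K A : Type u} [Field K] [CharP K 5] [Ring A] [IsDomain A] [Algebra K A]
    [Algebra.IsCentral K A] [FiniteDimensional K A] (z : A) (a : K)
    (hz : z ^ 5 = algebraMap K A a) (hnc : ∀ c : K, z ≠ algebraMap K A c) :
    ∃ y : A, z * y = (y + 1) * z := by
  obtain ⟨δ, hδ⟩ : ∃ δ : Module.End K A, δ = LinearMap.mulLeft K z - LinearMap.mulRight K z :=
    ⟨_, rfl⟩
  have hδa : ∀ b, δ b = z * b - b * z := by
    intro b
    rw [hδ]
    rfl
  have hch : CharP (Module.End K A) 5 :=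
    charP_of_injective_algebraMap (algebraMap K (Module.End K A)).injective 5
  have hp : Fact (Nat.Prime 5) := ⟨by norm_num⟩
  have h5 : δ ^ 5 = 0 := by
    have hc : Commute (LinearMap.mulLeft K z) (LinearMap.mulRight K z) :=
      LinearMap.commute_mulLeft_right z z
    rw [hδ, sub_pow_char_of_commute _ hc, LinearMap.pow_mulLeft, LinearMap.pow_mulRight, hz]
    ext b
    show algebraMap K A a * b - b * algebraMap K A a = 0
    rw [Algebra.commutes, sub_self]
  have h1 : δ ≠ 0 := by
    intro h0
    have h2 : z ∈ Subalgebra.center K A := by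
      rw [Subalgebra.mem_center_iff]
      intro b
      have h3 : δ b = 0 := by
        rw [h0]
        rfl
      rw [hδa] at h3
      exact (sub_eq_zero.1 h3).symm
    obtain ⟨c, hc⟩ := (Algebra.IsCentral.mem_center_iff K).1 h2
    exact hnc c hc
  obtain ⟨w, hw1, hw2⟩ : ∃ w, δ w ≠ 0 ∧ δ (δ w) = 0 := by
    classical
    have hex : ∃ n, δ ^ n = 0 := ⟨5, h5⟩
    obtain ⟨N, hN⟩ : ∃ N, N = Nat.find hex := ⟨_, rfl⟩
    have hN0 : δ ^ N = 0 := by
      rw [hN]
      exact Nat.find_spec hex
    have hN1 : ∀ m < N, δ ^ m ≠ 0 := by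
      intro m hm
      rw [hN] at hm
      exact Nat.find_min hex hm
    have hN2 : 2 ≤ N := by
      by_contra hlt
      have hcase : N = 0 ∨ N = 1 := by omega
      rcases hcase with h | h
      · rw [h, pow_zero] at hN0
        exact one_ne_zero hN0
      · rw [h, pow_one] at hN0
        exact h1 hN0
    obtain ⟨M, rfl⟩ : ∃ M, N = M + 2 := ⟨N - 2, by omega⟩
    obtain ⟨v, hv⟩ : ∃ v, (δ ^ (M + 1)) v ≠ 0 := by
      by_contra hcon
      push Not at hcon
      exact hN1 (M + 1) (by omega) (LinearMap.ext hcon)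
    refine ⟨(δ ^ M) v, ?_, ?_⟩
    · rw [pow_succ'] at hv
      exact hv
    · have h3 : (δ ^ (M + 2)) v = 0 := by
        rw [hN0]
        rfl
      rw [pow_succ', pow_succ'] at h3
      exact h3
  obtain ⟨s, hs⟩ : ∃ s, s = δ w := ⟨_, rfl⟩
  rw [← hs] at hw1 hw2
  have hzs : z * s = s * z := by
    rw [hδa] at hw2
    exact sub_eq_zero.1 hw2
  rw [hδa] at hs
  obtain ⟨t, ht⟩ : ∃ t, s * t = 1 := by
    have hinj : Function.Injective (LinearMap.mulLeft K s) := by
      intro b b' h
      exact mul_left_cancel₀ hw1 h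
    obtain ⟨t, ht⟩ := (LinearMap.injective_iff_surjective.1 hinj) 1
    exact ⟨t, ht⟩
  have ht' : t * s = 1 := by
    apply mul_left_cancel₀ hw1
    rw [← mul_assoc, ht, one_mul, mul_one]
  have htz : t * z = z * t := by
    calc t * z = t * (z * (s * t)) := by rw [ht, mul_one]
      _ = t * (z * s) * t := by simp only [mul_assoc]
      _ = t * (s * z) * t := by rw [hzs]
      _ = t * s * z * t := by simp only [mul_assoc]
      _ = z * t := by rw [ht', one_mul]
  refine ⟨t * z * w, ?_⟩
  have h3 : z * (t * z * w) - t * z * w * z = z := by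
    calc z * (t * z * w) - t * z * w * z = (z * t) * z * w - t * z * w * z := by
          simp only [mul_assoc]
      _ = (t * z) * z * w - t * z * w * z := by rw [htz]
      _ = t * z * (z * w - w * z) := by
          rw [mul_sub]
          simp only [mul_assoc]
      _ = t * (z * s) := by rw [← hs, mul_assoc]
      _ = t * s * z := by rw [hzs, mul_assoc]
      _ = z := by rw [ht', one_mul]
  rw [add_mul, one_mul]
  exact eq_add_of_sub_eq' h3

end Pool.Agent.H.MP_4c5958_al.SO
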