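import Mathlib

/-!
# Module ChC: characteristic five, the standard basis

`y z ^ j - z ^ j y = -j z ^ j`, so the `z ^ j` (`j < 5`) are eigenvectors for distinct eigenvalues
of `[y, ·]`, which commutes with left multiplication by polynomials in `y`: a relation `∑ f_j(y) z ^ j = 0`
gives `f_j(y) = 0` for all `j`. If `f` is the minimal polynomial of `y` then `f (y + 1) = z f(y) z⁻¹ = 0`,
so `f (X + 1) = f (X)` and `f` is not of degree `1, 2, 3, 4` (the leading coefficient of
`f (X + 1) - f (X)` is `deg f` times that of `f`); so `1, y, ..., y ^ 4` are independent. The 25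
products are independent, hence a basis; `y ^ 5 - y` commutes with `y` and with `z`
(`(y + 1) ^ 5 - (y + 1) = y ^ 5 - y`), so it is central.
-/

set_option autoImplicit false

noncomputable section

namespace Pool.Agent.H.MP_4c5958_al.SO

universe u

variable {K A : Type u} [Field K] [CharP K 5] [Ring A] [IsDomain A] [Algebra K A]
    [FiniteDimensional K A] (y z : A)

omit [Field K] [CharP K 5] [IsDomain A] [Algebra K A] [FiniteDimensional K A] in
private theorem ChC_zpow (h : z * y = (y + 1) * z) (j : ℕ) :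
    z ^ j * y = (y + (j : A)) * z ^ j := by
  induction j with
  | zero => rw [pow_zero, one_mul, Nat.cast_zero, add_zero, mul_one]
  | succ j ih =>
    have h1 : z * (j : A) = (j : A) * z := (Nat.cast_commute j z).symm.eq
    calc z ^ (j + 1) * y = z * (z ^ j * y) := by rw [pow_succ', mul_assoc]
      _ = (z * y + z * (j : A)) * z ^ j := by rw [ih, ← mul_assoc, mul_add]
      _ = (y + ((j + 1 : ℕ) : A)) * (z * z ^ j) := by
        rw [h, h1, Nat.cast_succ]
        noncomm_ring
      _ = _ := by rw [← pow_succ']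

omit [CharP K 5] [IsDomain A] [FiniteDimensional K A] in
private theorem ChC_aeval (h : z * y = (y + 1) * z) (p : Polynomial K) :
    z * Polynomial.aeval y p = Polynomial.aeval (y + 1) p * z := by
  have hp : ∀ k : ℕ, z * y ^ k = (y + 1) ^ k * z := by
    intro k
    induction k with
    | zero => rw [pow_zero, pow_zero, mul_one, one_mul]
    | succ k ih =>
      rw [pow_succ, ← mul_assoc, ih, mul_assoc, h, ← mul_assoc, ← pow_succ]
  induction p using Polynomial.induction_on' with
  | add p q hp hq => rw [map_add, map_add, mul_add, add_mul, hp, hq]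
  | monomial k c =>
    rw [Polynomial.aeval_monomial, Polynomial.aeval_monomial, ← mul_assoc,
      ← Algebra.commutes c z, mul_assoc, hp k, mul_assoc]

private theorem ChC_deg (hz : z ≠ 0) (h : z * y = (y + 1) * z) :
    5 ≤ (minpoly K y).natDegree := by
  classical
  have hint : IsIntegral K y := Algebra.IsIntegral.isIntegral y
  obtain ⟨f, hf⟩ : ∃ f, f = minpoly K y := ⟨_, rfl⟩
  have hfm : f.Monic := by
    rw [hf]
    exact minpoly.monic hint
  have h0 : Polynomial.aeval (y + 1) f = 0 := by
    have h1 := ChC_aeval y z h f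
    rw [hf, minpoly.aeval, mul_zero] at h1
    rw [hf]
    exact (mul_eq_zero.1 h1.symm).resolve_right hz
  -- `f (X + 1) = f`
  obtain ⟨g, hg⟩ : ∃ g, g = f.comp (Polynomial.X + 1) := ⟨_, rfl⟩
  have hX : (Polynomial.X + 1 : Polynomial K).natDegree = 1 := by
    have := Polynomial.natDegree_X_add_C (1 : K)
    rwa [Polynomial.C_1] at this
  have hXm : (Polynomial.X + 1 : Polynomial K).Monic := by
    have := Polynomial.monic_X_add_C (1 : K)
    rwa [Polynomial.C_1] at this
  have hgm : g.Monic := by
    rw [hg]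
    exact hfm.comp hXm (by rw [hX]; exact one_ne_zero)
  have hgd : g.natDegree = f.natDegree := by
    rw [hg, Polynomial.natDegree_comp, hX, mul_one]
  have hgy : Polynomial.aeval y g = 0 := by
    rw [hg, Polynomial.aeval_comp, map_add, Polynomial.aeval_X, map_one, h0]
  have hgf : g = f := by
    have h2 : f ∣ g := by
      rw [hf]
      exact minpoly.dvd K y hgy
    exact (Polynomial.eq_of_monic_of_dvd_of_natDegree_le hfm hgm h2 hgd.le).symm ▸ rfl
  -- roots
  have hf1 : f.degree ≠ 0 := by
    rw [hf]
    exact (minpoly.degree_pos hint).ne'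
  obtain ⟨α, hα⟩ := IsAlgClosed.exists_aeval_eq_zero (AlgebraicClosure K) f hf1
  have hstep : ∀ x : AlgebraicClosure K, Polynomial.aeval x f = 0 →
      Polynomial.aeval (x + 1) f = 0 := by
    intro x hx
    have h2 : Polynomial.aeval x g = 0 := by rw [hgf, hx]
    rw [hg, Polynomial.aeval_comp, map_add, Polynomial.aeval_X, map_one] at h2
    exact h2
  have hroot : ∀ k : ℕ, Polynomial.aeval (α + (k : AlgebraicClosure K)) f = 0 := by
    intro k
    induction k with
    | zero => rw [Nat.cast_zero, add_zero, hα]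
    | succ k ih =>
      have h2 := hstep _ ih
      rw [add_assoc] at h2
      rw [Nat.cast_succ]
      exact h2
  have hch : CharP (AlgebraicClosure K) 5 :=
    charP_of_injective_algebraMap (algebraMap K (AlgebraicClosure K)).injective 5
  have hinj : Set.InjOn (fun k : ℕ => α + (k : AlgebraicClosure K)) (Finset.range 5) := by
    intro a ha b hb hab
    have h2 : (a : AlgebraicClosure K) = b := add_left_cancel hab
    have h3 : a ≡ b [MOD 5] := (CharP.cast_eq_iff_mod_eq (AlgebraicClosure K) 5).1 h2
    have ha' := Finset.mem_range.1 (Finset.mem_coe.1 ha)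
    have hb' := Finset.mem_range.1 (Finset.mem_coe.1 hb)
    have h4 : a % 5 = b % 5 := h3
    omega
  have hm : f.map (algebraMap K (AlgebraicClosure K)) ≠ 0 := (hfm.map _).ne_zero
  have hsub : ((Finset.range 5).image fun k : ℕ => α + (k : AlgebraicClosure K)).val ⊆
      (f.map (algebraMap K (AlgebraicClosure K))).roots := by
    intro x hx
    have hx' : x ∈ (Finset.range 5).image fun k : ℕ => α + (k : AlgebraicClosure K) := hx
    obtain ⟨k, -, rfl⟩ := Finset.mem_image.1 hx'
    rw [Polynomial.mem_roots hm, Polynomial.IsRoot.def, Polynomial.eval_map_algebraMap]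
    exact hroot k
  have h5 := Polynomial.card_le_degree_of_subset_roots hsub
  rw [Finset.card_image_of_injOn hinj, Finset.card_range, Polynomial.natDegree_map] at h5
  rw [← hf]
  exact h5

theorem yz_pow_indep (hz : z ≠ 0) (h : z * y = (y + 1) * z) :
    LinearIndependent K (fun i : Fin 5 => y ^ (i : ℕ)) := by
  have h1 := ChC_deg (K := K) y z hz h
  exact (linearIndependent_pow (K := K) y).comp (Fin.castLE h1) (Fin.castLE_injective h1)

/-- The commutator with `y`. -/
private def ChC_D : Module.End K A := LinearMap.mulLeft K y - LinearMap.mulRight K y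

omit [CharP K 5] [IsDomain A] [FiniteDimensional K A] in
private theorem ChC_eig (h : z * y = (y + 1) * z) {g : A} (hg : Commute y g) (j : ℕ) :
    g * z ^ j ∈ Module.End.eigenspace (ChC_D (K := K) y) (-(j : K)) := by
  rw [Module.End.mem_eigenspace_iff]
  show y * (g * z ^ j) - g * z ^ j * y = _
  have h1 : (algebraMap K A (j : K)) = (j : A) := map_natCast _ _
  have h2 : g * (j : A) = (j : A) * g := (Nat.cast_commute j g).symm.eq
  rw [mul_assoc g (z ^ j) y, ChC_zpow y z h j, neg_smul, Algebra.smul_def, h1, ← mul_assoc,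
    ← mul_assoc, hg.eq, mul_add, add_mul, h2]
  noncomm_ring

theorem yz_indep (hz : z ≠ 0) (h : z * y = (y + 1) * z) :
    LinearIndependent K (fun p : Fin 5 × Fin 5 => y ^ (p.1 : ℕ) * z ^ (p.2 : ℕ)) := by
  rw [Fintype.linearIndependent_iff]
  intro c hc
  obtain ⟨g, hg⟩ : ∃ g : Fin 5 → A, g = fun j => ∑ i : Fin 5, c (i, j) • y ^ (i : ℕ) := ⟨_, rfl⟩
  have hgc : ∀ j, Commute y (g j) := by
    intro j
    rw [hg]
    exact Commute.sum_right _ _ _ fun i _ => (Commute.pow_right (Commute.refl y) _).smul_right _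
  have hsum : ∑ j : Fin 5, g j * z ^ (j : ℕ) = 0 := by
    rw [← hc, Fintype.sum_prod_type_right]
    refine Finset.sum_congr rfl fun j _ => ?_
    rw [hg]
    show (∑ i : Fin 5, c (i, j) • y ^ (i : ℕ)) * z ^ (j : ℕ) = _
    rw [Finset.sum_mul]
    exact Finset.sum_congr rfl fun i _ => smul_mul_assoc _ _ _
  have hinj : Function.Injective (fun j : Fin 5 => -((j : ℕ) : K)) := by
    intro a b hab
    have h2 : ((a : ℕ) : K) = ((b : ℕ) : K) := neg_injective hab
    have h3 : (a : ℕ) ≡ (b : ℕ) [MOD 5] := (CharP.cast_eq_iff_mod_eq K 5).1 h2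
    have h4 : (a : ℕ) % 5 = (b : ℕ) % 5 := h3
    exact Fin.ext (by omega)
  have hind := (Module.End.eigenspaces_iSupIndep (ChC_D (K := K) y)).comp hinj
  rw [iSupIndep_iff_finsetSum_eq_zero_imp_eq_zero] at hind
  have hzero : ∀ j : Fin 5, g j * z ^ (j : ℕ) = 0 := by
    intro j
    exact hind Finset.univ (fun j => g j * z ^ (j : ℕ)) (fun j _ => ChC_eig y z h (hgc j) j)
      hsum j (Finset.mem_univ j)
  rintro ⟨i, j⟩
  have h1 : g j = 0 := (mul_eq_zero.1 (hzero j)).resolve_right (pow_ne_zero _ hz)
  rw [hg] at h1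
  exact (Fintype.linearIndependent_iff.1 (yz_pow_indep (K := K) y z hz h)) (fun i => c (i, j)) h1 i

theorem yz_basis [Algebra.IsCentral K A] (hdim : Module.finrank K A = 25) (hz : z ≠ 0)
    (h : z * y = (y + 1) * z) :
    (∃ w : Module.Basis (Fin 5 × Fin 5) K A, ∀ p, w p = y ^ (p.1 : ℕ) * z ^ (p.2 : ℕ)) ∧
      ∃ c : K, y ^ 5 - y = algebraMap K A c := by
  have hind := yz_indep (K := K) y z hz h
  have hcard : Fintype.card (Fin 5 × Fin 5) = Module.finrank K A := by
    rw [hdim, Fintype.card_prod, Fintype.card_fin]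
  obtain ⟨w, hw⟩ : ∃ w : Module.Basis (Fin 5 × Fin 5) K A,
      ∀ p, w p = y ^ (p.1 : ℕ) * z ^ (p.2 : ℕ) :=
    ⟨basisOfLinearIndependentOfCardEqFinrank hind hcard, fun p => by
      rw [coe_basisOfLinearIndependentOfCardEqFinrank]⟩
  refine ⟨⟨w, hw⟩, ?_⟩
  have hchA : CharP A 5 := charP_of_injective_algebraMap (algebraMap K A).injective 5
  have hfact : Fact (Nat.Prime 5) := ⟨by norm_num⟩
  have h5 : (y + 1) ^ 5 = y ^ 5 + 1 := by
    rw [add_pow_char_of_commute 5 (Commute.one_right y), one_pow]
  have hp : z * y ^ 5 = (y + 1) ^ 5 * z := by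
    have h1 := ChC_aeval (K := K) y z h (Polynomial.X ^ 5)
    rw [map_pow, map_pow, Polynomial.aeval_X, Polynomial.aeval_X] at h1
    exact h1
  have hcz : Commute (y ^ 5 - y) z := by
    show (y ^ 5 - y) * z = z * (y ^ 5 - y)
    rw [mul_sub, hp, h5, h]
    noncomm_ring
  have hcy : Commute (y ^ 5 - y) y := by
    have h1 : Commute (y ^ 5) y := Commute.pow_left (Commute.refl y) 5
    exact h1.sub_left (Commute.refl y)
  have hcen : ∀ a : A, Commute (y ^ 5 - y) a := by
    intro a
    have ha : a ∈ Submodule.span K (Set.range w) := by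
      rw [w.span_eq]
      exact Submodule.mem_top
    induction ha using Submodule.span_induction with
    | mem x hx =>
      obtain ⟨p, rfl⟩ := hx
      rw [hw]
      exact (hcy.pow_right _).mul_right (hcz.pow_right _)
    | zero => exact Commute.zero_right _
    | add x y _ _ hx hy => exact hx.add_right hy
    | smul c x _ hx => exact hx.smul_right c
  have hmem : y ^ 5 - y ∈ Subalgebra.center K A := by
    rw [Subalgebra.mem_center_iff]
    intro a
    exact (hcen a).eq.symm
  have h1 := Algebra.IsCentral.out hmem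
  obtain ⟨c, hc⟩ := Algebra.mem_bot.1 h1
  exact ⟨c, hc.symm⟩

end Pool.Agent.H.MP_4c5958_al.SO
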