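import Mathlib

/-!
# Module ChD: characteristic five, the form

`A₀` is the `L`-span of the `y ^ i z ^ j`, `i, j < 5`. It is closed under multiplication: it is closed
under left multiplication by `y` (`y ^ 5 = y + c`) and by `z` (`z y ^ i = (y + 1) ^ i z`, `z ^ 5 = a`).
-/

set_option autoImplicit false

noncomputable section

namespace Pool.Agent.H.MP_4c5958_al.SO

universe u

theorem form_yz {F K A : Type u} [Field F] [Field K] [Algebra F K] [Ring A] [Algebra K A] (y z : A)
    (a c : K) (w : Module.Basis (Fin 5 × Fin 5) K A)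
    (hw : ∀ p, w p = y ^ (p.1 : ℕ) * z ^ (p.2 : ℕ)) (h1 : z * y = (y + 1) * z)
    (h2 : z ^ 5 = algebraMap K A a) (h3 : y ^ 5 - y = algebraMap K A c)
    (L : IntermediateField F K) (ha : a ∈ L) (hc : c ∈ L) :
    ∃ A₀ : Subalgebra L A, (∀ p, w p ∈ A₀) ∧ ∀ x ∈ A₀, ∀ p, w.repr x p ∈ L := by
  classical
  have hadd : ∀ x x' : A, (∀ p, w.repr x p ∈ L) → (∀ p, w.repr x' p ∈ L) →
      ∀ p, w.repr (x + x') p ∈ L := by
    intro x x' hx hx' p
    rw [map_add, Finsupp.add_apply]
    exact L.add_mem (hx p) (hx' p)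
  have hsmul : ∀ k ∈ L, ∀ x : A, (∀ p, w.repr x p ∈ L) → ∀ p, w.repr (k • x) p ∈ L := by
    intro k hk x hx p
    rw [map_smul, Finsupp.smul_apply, smul_eq_mul]
    exact L.mul_mem hk (hx p)
  have hzero : ∀ p, w.repr (0 : A) p ∈ L := by
    intro p
    rw [map_zero, Finsupp.zero_apply]
    exact L.zero_mem
  have hsum : ∀ f : Fin 5 × Fin 5 → A, (∀ i, ∀ p, w.repr (f i) p ∈ L) →
      ∀ p, w.repr (∑ i, f i) p ∈ L := by
    intro f hf
    exact Finset.sum_induction f (fun x => ∀ p, w.repr x p ∈ L) hadd hzero (fun i _ => hf i)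
  have hwp : ∀ q, ∀ p, w.repr (w q) p ∈ L := by
    intro q p
    rw [Module.Basis.repr_self, Finsupp.single_apply]
    split
    · exact L.one_mem
    · exact L.zero_mem
  have h1w : (1 : A) = w (0, 0) := by
    rw [hw]
    simp
  have h1P : ∀ p, w.repr (1 : A) p ∈ L := by
    rw [h1w]
    exact hwp _
  have hlift : ∀ v : A, (∀ q, ∀ p, w.repr (v * w q) p ∈ L) →
      ∀ x : A, (∀ p, w.repr x p ∈ L) → ∀ p, w.repr (v * x) p ∈ L := by
    intro v hv x hx
    have e1 : v * x = ∑ q, w.repr x q • (v * w q) := by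
      conv_lhs => rw [← w.sum_repr x, Finset.mul_sum]
      exact Finset.sum_congr rfl fun q _ => mul_smul_comm _ _ _
    rw [e1]
    exact hsum _ fun q => hsmul _ (hx q) _ (hv q)
  have h5 : y ^ 5 = y + c • (1 : A) := by
    rw [← Algebra.algebraMap_eq_smul_one, ← h3]
    abel
  have hyw : ∀ q, ∀ p, w.repr (y * w q) p ∈ L := by
    rintro ⟨i, j⟩
    by_cases hi : (i : ℕ) + 1 < 5
    · have e1 : y * w (i, j) = w (⟨(i : ℕ) + 1, hi⟩, j) := by
        rw [hw, hw]
        simp only [pow_succ', mul_assoc]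
      rw [e1]
      exact hwp _
    · have hi4 : (i : ℕ) + 1 = 5 := by
        have := i.isLt
        omega
      have e1 : y * w (i, j) = w (1, j) + c • w (0, j) := by
        have e2 : y * w (i, j) = y ^ 5 * z ^ (j : ℕ) := by
          rw [hw, ← mul_assoc, ← pow_succ', hi4]
        rw [e2, h5, hw, hw]
        simp [add_mul]
      rw [e1]
      exact hadd _ _ (hwp _) (hsmul _ hc _ (hwp _))
  have hy : ∀ x : A, (∀ p, w.repr x p ∈ L) → ∀ p, w.repr (y * x) p ∈ L := hlift y hyw
  have hy1 : ∀ n : ℕ, ∀ x : A, (∀ p, w.repr x p ∈ L) →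
      ∀ p, w.repr ((y + 1) ^ n * x) p ∈ L := by
    intro n
    induction n with
    | zero =>
      intro x hx
      rw [pow_zero, one_mul]
      exact hx
    | succ n ih =>
      intro x hx
      rw [pow_succ, mul_assoc, add_mul, one_mul]
      exact ih _ (hadd _ _ (hy x hx) hx)
  have hzw : ∀ q, ∀ p, w.repr (z * w q) p ∈ L := by
    rintro ⟨i, j⟩
    have hs : SemiconjBy z y (y + 1) := h1
    have e1 : z * w (i, j) = (y + 1) ^ (i : ℕ) * z ^ ((j : ℕ) + 1) := by
      rw [hw, ← mul_assoc, (hs.pow_right (i : ℕ)).eq, mul_assoc, pow_succ']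
    rw [e1]
    refine hy1 _ _ ?_
    by_cases hj : (j : ℕ) + 1 < 5
    · have e2 : z ^ ((j : ℕ) + 1) = w (0, ⟨(j : ℕ) + 1, hj⟩) := by
        rw [hw]
        simp
      rw [e2]
      exact hwp _
    · have hj4 : (j : ℕ) + 1 = 5 := by
        have := j.isLt
        omega
      rw [hj4, h2, Algebra.algebraMap_eq_smul_one]
      exact hsmul _ ha _ h1P
  have hz : ∀ x : A, (∀ p, w.repr x p ∈ L) → ∀ p, w.repr (z * x) p ∈ L := hlift z hzw
  have hyp : ∀ n : ℕ, ∀ x : A, (∀ p, w.repr x p ∈ L) → ∀ p, w.repr (y ^ n * x) p ∈ L := by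
    intro n
    induction n with
    | zero =>
      intro x hx
      rw [pow_zero, one_mul]
      exact hx
    | succ n ih =>
      intro x hx
      rw [pow_succ, mul_assoc]
      exact ih _ (hy x hx)
  have hzp : ∀ n : ℕ, ∀ x : A, (∀ p, w.repr x p ∈ L) → ∀ p, w.repr (z ^ n * x) p ∈ L := by
    intro n
    induction n with
    | zero =>
      intro x hx
      rw [pow_zero, one_mul]
      exact hx
    | succ n ih =>
      intro x hx
      rw [pow_succ, mul_assoc]
      exact ih _ (hz x hx)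
  have hmul : ∀ x x' : A, (∀ p, w.repr x p ∈ L) → (∀ p, w.repr x' p ∈ L) →
      ∀ p, w.repr (x * x') p ∈ L := by
    intro x x' hx hx'
    have e1 : x * x' = ∑ q, w.repr x q • (w q * x') := by
      conv_lhs => rw [← w.sum_repr x, Finset.sum_mul]
      exact Finset.sum_congr rfl fun q _ => smul_mul_assoc _ _ _
    rw [e1]
    refine hsum _ fun q => hsmul _ (hx q) _ ?_
    rw [hw, mul_assoc]
    exact hyp _ _ (hzp _ _ hx')
  refine ⟨{ carrier := {x | ∀ p, w.repr x p ∈ L}
            mul_mem' := fun {x x'} hx hx' => hmul x x' hx hx'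
            one_mem' := h1P
            add_mem' := fun {x x'} hx hx' => hadd x x' hx hx'
            zero_mem' := hzero
            algebraMap_mem' := fun r => ?_ }, fun p => hwp p, fun x hx => hx⟩
  have e1 : algebraMap L A r = (r : K) • (1 : A) := by
    rw [← Algebra.algebraMap_eq_smul_one]
    rfl
  change ∀ p, w.repr (algebraMap L A r) p ∈ L
  rw [e1]
  exact hsmul _ r.2 _ h1P

end Pool.Agent.H.MP_4c5958_al.SO
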