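import Mathlib

/-!
# Module Csa: the descended algebra is central simple of dimension 25

`A₀` is a domain (it embeds in `A`), of dimension `25` over `L` (`finrank_baseChange`), so a division
ring, so simple. Its centre commutes with `K A₀ = A`, so it is in `K ∩ A₀ = L`.
-/

set_option autoImplicit false

noncomputable section

open scoped TensorProduct

namespace Pool.Agent.H.MP_4c5958_al.SO

universe u

theorem csa_of_form {F K A : Type u} [Field F] [Field K] [Algebra F K] [Ring A] [Algebra K A]
    [Algebra.IsCentral K A] [IsDomain A] (hdim : Module.finrank K A = 25)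
    (L : IntermediateField F K) (A₀ : Subalgebra L A)
    (φ : K ⊗[L] A₀ ≃ₐ[K] A) (hφ : ∀ (c : K) (a : A₀), φ (c ⊗ₜ a) = c • (a : A))
    (hc : ∀ c : K, algebraMap K A c ∈ A₀ → c ∈ L) :
    Algebra.IsCentral L A₀ ∧ IsSimpleRing A₀ ∧ Module.finrank L A₀ = 25 := by
  have hfr : Module.finrank L A₀ = 25 := by
    rw [← hdim, ← φ.toLinearEquiv.finrank_eq]
    exact (Module.finrank_baseChange (R := K) (S := L) (M' := A₀)).symm
  have hfin : Module.Finite L A₀ := Module.finite_of_finrank_pos (by omega)
  have hdom : IsDomain A₀ :=
    Function.Injective.isDomain (f := (A₀.val : A₀ →+* A)) Subtype.val_injective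
  refine ⟨⟨?_⟩, ?_, hfr⟩
  · intro z hz
    rw [Subalgebra.mem_center_iff] at hz
    have h1 : (z : A) ∈ Subalgebra.center K A := by
      rw [Subalgebra.mem_center_iff]
      intro a
      obtain ⟨t, rfl⟩ := φ.surjective a
      induction t using TensorProduct.induction_on with
      | zero => rw [map_zero, zero_mul, mul_zero]
      | add x y hx hy => rw [map_add, add_mul, mul_add, hx, hy]
      | tmul c a =>
        rw [hφ, smul_mul_assoc, mul_smul_comm]
        have := congrArg (Subtype.val) (hz a)
        simp only [MulMemClass.coe_mul] at this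
        rw [this]
    have h2 := Algebra.IsCentral.out (K := K) (D := A) h1
    obtain ⟨c, hc1⟩ := Algebra.mem_bot.1 h2
    have h3 : c ∈ L := hc c (by rw [hc1]; exact z.2)
    refine Algebra.mem_bot.2 ⟨⟨c, h3⟩, ?_⟩
    apply Subtype.ext
    rw [← hc1]
    rfl
  · letI := divisionRingOfFiniteDimensional L A₀
    infer_instance

end Pool.Agent.H.MP_4c5958_al.SO
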