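import Pool.Agent.H.MP_4c5958_al.SO.DscB
import Pool.Agent.H.MP_4c5958_al.SO.Csa

/-!
# Module ChE: a form with a basis is a field of definition

`mulK A₀` is injective (`mulK_injective` with `inc = AlgHom.id K A`) and surjective (it hits the basis
`w`); `φ = AlgEquiv.ofBijective`; `csa_of_form`; if `algebraMap c ∈ A₀` then `c • w p ∈ A₀`, whose
coordinate `c` is in `L` (`κ` is not empty as `A ≠ 0`).
-/

set_option autoImplicit false

noncomputable section

open scoped TensorProduct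

namespace Pool.Agent.H.MP_4c5958_al.SO

universe u

theorem form_descends {F K A : Type u} [Field F] [Field K] [Algebra F K] [Ring A] [Algebra K A]
    [Algebra.IsCentral K A] [IsDomain A] (hdim : Module.finrank K A = 25)
    (L : IntermediateField F K) (A₀ : Subalgebra L A) {κ : Type} [Fintype κ]
    (w : Module.Basis κ K A) (hw : ∀ p, w p ∈ A₀) (hco : ∀ x ∈ A₀, ∀ p, w.repr x p ∈ L) :
    (Algebra.IsCentral L A₀ ∧ IsSimpleRing A₀ ∧ Module.finrank L A₀ = 25) ∧
      Nonempty (K ⊗[L] A₀ ≃ₐ[K] A) := by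
  classical
  have hinj : Function.Injective (mulK A₀) :=
    mulK_injective L (AlgHom.id K A) Function.injective_id w A₀ fun a ha s => hco a ha s
  have hsur : Function.Surjective (mulK A₀) := by
    intro a
    rw [← w.sum_repr a]
    refine ⟨∑ p, (w.repr a p) ⊗ₜ[L] (⟨w p, hw p⟩ : A₀), ?_⟩
    rw [map_sum]
    exact Finset.sum_congr rfl fun p _ => mulK_tmul A₀ _ _
  obtain ⟨φ, hφ⟩ : ∃ φ : K ⊗[L] A₀ ≃ₐ[K] A, ∀ (c : K) (a : A₀), φ (c ⊗ₜ a) = c • (a : A) :=
    ⟨AlgEquiv.ofBijective (mulK A₀) ⟨hinj, hsur⟩, fun c a => mulK_tmul A₀ c a⟩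
  have hne : Nonempty κ := by
    by_contra hκ
    rw [not_nonempty_iff] at hκ
    have h1 : (1 : A) = 0 := w.repr.injective (by
      ext p
      exact isEmptyElim p)
    exact one_ne_zero h1
  obtain ⟨p⟩ := hne
  refine ⟨csa_of_form hdim L A₀ φ hφ ?_, ⟨φ⟩⟩
  intro c hc
  have h1 : c • w p ∈ A₀ := by
    rw [Algebra.smul_def]
    exact A₀.mul_mem hc (hw p)
  have h2 := hco _ h1 p
  rw [map_smul, Finsupp.smul_apply, Module.Basis.repr_self, Finsupp.single_eq_same, smul_eq_mul,
    mul_one] at h2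
  exact h2

end Pool.Agent.H.MP_4c5958_al.SO
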