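import Mathlib

/-!
# Module Dm: extension of scalars of degree prime to five keeps a division algebra

`M ⊗ A` is central simple over `M` of dimension `25`. By Wedderburn it is `Matrix n n D'` with
`n ^ 2 * dim D' = 25`, so it is a division ring (`n = 1`) or `Matrix (Fin 5) (Fin 5) M`. In the second
case it has a left ideal of dimension `5` over `M`, so of dimension `5 * [M : K]` over `K`; but a left
ideal is a (left) vector space over the division ring `A`, so its dimension over `K` is divisible
by `25`, and `5 ∣ [M : K]`. (H/MP_4c5958_al/Wedderburn.lean has the form of Wedderburn's theorem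
used for the other theorem of this problem.)
-/

set_option autoImplicit false

noncomputable section

open scoped TensorProduct

namespace Pool.Agent.H.MP_4c5958_al.SO

universe u

section simple

variable {K M A : Type u} [Field K] [Field M] [Algebra K M] [FiniteDimensional K M]
  [DivisionRing A] [Algebra K A]

omit [FiniteDimensional K M] in
theorem Dm_left {ι : Type*} (b : Module.Basis ι K M) (a : A) (x : A ⊗[K] M) (i : ι) :
    (Algebra.TensorProduct.basis A b).repr ((a ⊗ₜ[K] (1 : M)) * x) i =
      a * (Algebra.TensorProduct.basis A b).repr x i := by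
  induction x using TensorProduct.induction_on with
  | zero => simp
  | tmul a' m =>
    simp only [Algebra.TensorProduct.tmul_mul_tmul, one_mul,
      Algebra.TensorProduct.basis_repr_tmul, Finsupp.smul_apply, smul_eq_mul, mul_assoc]
  | add x y hx hy => rw [mul_add, map_add, map_add, Finsupp.add_apply, Finsupp.add_apply, hx, hy,
      mul_add]

omit [FiniteDimensional K M] in
theorem Dm_right {ι : Type*} (b : Module.Basis ι K M) (a : A) (x : A ⊗[K] M) (i : ι) :
    (Algebra.TensorProduct.basis A b).repr (x * (a ⊗ₜ[K] (1 : M))) i =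
      (Algebra.TensorProduct.basis A b).repr x i * a := by
  induction x using TensorProduct.induction_on with
  | zero => simp
  | tmul a' m =>
    simp only [Algebra.TensorProduct.tmul_mul_tmul, mul_one,
      Algebra.TensorProduct.basis_repr_tmul, Finsupp.smul_apply, smul_eq_mul, mul_assoc,
      Finsupp.mapRange_apply]
    rw [Algebra.commutes]
  | add x y hx hy => rw [add_mul, map_add, map_add, Finsupp.add_apply, Finsupp.add_apply, hx, hy,
      add_mul]

omit [FiniteDimensional K M] in
theorem Dm_ideal [Algebra.IsCentral K A] {ι : Type*} [Fintype ι] (b : Module.Basis ι K M)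
    (J : TwoSidedIdeal (A ⊗[K] M)) : ∀ (n : ℕ) (x : A ⊗[K] M), x ∈ J → x ≠ 0 →
      ((Algebra.TensorProduct.basis A b).repr x).support.card ≤ n → (1 : A ⊗[K] M) ∈ J := by
  classical
  set c := Algebra.TensorProduct.basis A b with hc
  intro n
  induction n with
  | zero =>
    intro x _ hx0 hcard
    exfalso
    apply hx0
    have h1 : (c.repr x).support = ∅ := Finset.card_eq_zero.mp (Nat.le_zero.mp hcard)
    have h2 : c.repr x = 0 := Finsupp.support_eq_empty.mp h1
    exact c.repr.map_eq_zero_iff.mp h2
  | succ n ih =>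
    intro x hx hx0 hcard
    have hne : c.repr x ≠ 0 := fun h => hx0 (c.repr.map_eq_zero_iff.mp h)
    obtain ⟨i₀, hi₀⟩ := Finsupp.support_nonempty_iff.mpr hne
    have hi₀' : c.repr x i₀ ≠ 0 := Finsupp.mem_support_iff.mp hi₀
    set y : A ⊗[K] M := ((c.repr x i₀)⁻¹ ⊗ₜ[K] (1 : M)) * x with hy
    have hyJ : y ∈ J := J.mul_mem_left _ _ hx
    have hyr : ∀ i, c.repr y i = (c.repr x i₀)⁻¹ * c.repr x i := fun i => Dm_left b _ _ _
    have hy1 : c.repr y i₀ = 1 := by rw [hyr, inv_mul_cancel₀ hi₀']
    have hy0 : y ≠ 0 := by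
      intro h
      rw [h] at hy1
      simp at hy1
    by_cases hall : ∀ a : A, (a ⊗ₜ[K] (1 : M)) * y - y * (a ⊗ₜ[K] (1 : M)) = 0
    · -- all coordinates are central
      have hcen : ∀ i, ∃ k : K, algebraMap K A k = c.repr y i := by
        intro i
        have h1 : c.repr y i ∈ Subalgebra.center K A := by
          rw [Subalgebra.mem_center_iff]
          intro a
          have h2 := congrArg (fun t => c.repr t i) (sub_eq_zero.mp (hall a))
          simp only [hc, Dm_left b, Dm_right b] at h2
          exact h2
        rw [Algebra.IsCentral.center_eq_bot] at h1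
        exact Algebra.mem_bot.mp h1
      choose k hk using hcen
      have h3 : y = (1 : A) ⊗ₜ[K] (∑ i, k i • b i) := by
        rw [TensorProduct.tmul_sum]
        conv_lhs => rw [← c.sum_repr y]
        refine Finset.sum_congr rfl fun i _ => ?_
        rw [← hk i, hc, Algebra.TensorProduct.basis_apply, TensorProduct.tmul_smul,
          TensorProduct.smul_tmul', TensorProduct.smul_tmul', smul_eq_mul, mul_one,
          Algebra.algebraMap_eq_smul_one]
      set m : M := ∑ i, k i • b i with hm
      have hm0 : m ≠ 0 := by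
        intro h
        apply hy0
        rw [h3, h, TensorProduct.tmul_zero]
      have h4 : ((1 : A) ⊗ₜ[K] m⁻¹) * y = 1 := by
        rw [h3, Algebra.TensorProduct.tmul_mul_tmul, one_mul, inv_mul_cancel₀ hm0]
        rfl
      rw [← h4]
      exact J.mul_mem_left _ _ hyJ
    · obtain ⟨a, ha⟩ := not_forall.mp hall
      refine ih _ (J.sub_mem (J.mul_mem_left _ _ hyJ) (J.mul_mem_right _ _ hyJ)) ha ?_
      have hsub : (c.repr ((a ⊗ₜ[K] (1 : M)) * y - y * (a ⊗ₜ[K] (1 : M)))).support ⊆
          (c.repr x).support.erase i₀ := by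
        intro i hi
        rw [Finsupp.mem_support_iff, map_sub, Finsupp.sub_apply, hc, Dm_left b, Dm_right b,
          ← hc] at hi
        rw [Finset.mem_erase, Finsupp.mem_support_iff]
        refine ⟨?_, ?_⟩
        · rintro rfl
          apply hi
          rw [hy1, mul_one, one_mul, sub_self]
        · intro h
          apply hi
          rw [hyr, h, mul_zero, mul_zero, zero_mul, sub_self]
      have h5 := Finset.card_le_card hsub
      rw [Finset.card_erase_of_mem hi₀] at h5
      omega

omit [FiniteDimensional K M] [DivisionRing A] [Algebra K A] in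
theorem Dm_cnt {D R V : Type*} [DivisionRing D] [Algebra K D] [Ring R] [Algebra K R]
    [AddCommGroup V] [Module R V] [Module K V] [IsScalarTower K R V] (f : D →ₐ[K] R) :
    Module.finrank K D ∣ Module.finrank K V := by
  let i₁ : Module D V := Module.compHom V (f : D →+* R)
  have i₂ : IsScalarTower K D V := ⟨fun r a s => by
    change f (r • a) • s = r • (f a • s)
    rw [map_smul, smul_assoc]⟩
  rw [← Module.finrank_mul_finrank K D V]
  exact dvd_mul_right _ _

theorem Dm_simple [Algebra.IsCentral K A] : IsSimpleRing (A ⊗[K] M) := by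
  refine IsSimpleRing.of_eq_bot_or_eq_top fun J => ?_
  rw [or_iff_not_imp_left, ← J.one_mem_iff]
  intro h
  obtain ⟨x, hx1, hx2 : x ≠ 0⟩ := SetLike.exists_of_lt (bot_lt_iff_ne_bot.mpr h : ⊥ < J)
  exact Dm_ideal (Module.finBasis K M) J _ x hx1 hx2 le_rfl

theorem Dm_main [Algebra.IsCentral K A] (hM : ¬ 5 ∣ Module.finrank K M)
    (hdim : Module.finrank K A = 25) : IsDomain (A ⊗[K] M) := by
  have hfin : Module.Finite K A := Module.finite_of_finrank_pos (by rw [hdim]; norm_num)
  have hs : IsSimpleRing (A ⊗[K] M) := Dm_simple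
  have hart : IsArtinianRing (A ⊗[K] M) := IsArtinianRing.of_finite K (A ⊗[K] M)
  obtain ⟨k, hk, S, hS, ⟨e⟩⟩ := (IsSimpleRing.isIsotypic (A ⊗[K] M) (A ⊗[K] M)).linearEquiv_fun
  have hC : Module.finrank K (A ⊗[K] M) = 25 * Module.finrank K M := by
    rw [Module.finrank_tensorProduct, hdim]
  have hSfin : Module.Finite K S := Module.Finite.of_injective
    (S.subtype.restrictScalars K) S.injective_subtype
  have h1 : Module.finrank K (A ⊗[K] M) = k * Module.finrank K S := by
    rw [(e.restrictScalars K).finrank_eq, Module.finrank_pi_fintype]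
    simp
  have h2 : 25 ∣ Module.finrank K S := by
    rw [← hdim]
    exact Dm_cnt (Algebra.TensorProduct.includeLeft : A →ₐ[K] A ⊗[K] M)
  have h3 : Module.finrank K M ∣ Module.finrank K S :=
    Dm_cnt (Algebra.TensorProduct.includeRight : M →ₐ[K] A ⊗[K] M)
  have hn : 0 < Module.finrank K M := Module.finrank_pos
  have hk1 : k = 1 := by
    obtain ⟨d₁, hd₁⟩ := h2
    obtain ⟨d₂, hd₂⟩ := h3
    have h4 : k * d₁ = Module.finrank K M := by
      have : 25 * (k * d₁) = 25 * Module.finrank K M := by
        rw [← hC, h1, hd₁]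
        ring
      omega
    have h5 : k * d₂ = 25 := by
      have : Module.finrank K M * (k * d₂) = Module.finrank K M * 25 := by
        rw [mul_comm _ 25, ← hC, h1, hd₂]
        ring
      exact Nat.eq_of_mul_eq_mul_left hn this
    have h6 : k ∣ 5 ^ 2 := ⟨d₂, by rw [h5]; norm_num⟩
    obtain ⟨j, -, hj⟩ := (Nat.dvd_prime_pow Nat.prime_five).mp h6
    rcases Nat.eq_zero_or_pos j with h0 | h0
    · rw [hj, h0, pow_zero]
    · exfalso
      apply hM
      rw [← h4, hj]
      exact Dvd.dvd.mul_right (dvd_pow_self 5 h0.ne') _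
  subst hk1
  have hCs : IsSimpleModule (A ⊗[K] M) (A ⊗[K] M) :=
    IsSimpleModule.congr (e.trans (LinearEquiv.funUnique (Fin 1) (A ⊗[K] M) S))
  obtain ⟨hnt, hu⟩ := isSimpleModule_self_iff_isUnit.mp hCs
  have hnz : NoZeroDivisors (A ⊗[K] M) := ⟨fun {x y} hxy => by
    by_cases hx : x = 0
    · exact Or.inl hx
    · exact Or.inr ((hu x hx).mul_right_eq_zero.mp hxy)⟩
  exact NoZeroDivisors.to_isDomain _

end simple

theorem isDomain_tensor {K M A : Type u} [Field K] [Field M] [Algebra K M] [FiniteDimensional K M]
    (hM : ¬ 5 ∣ Module.finrank K M) [Ring A] [Algebra K A] [Algebra.IsCentral K A] [IsSimpleRing A]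
    [IsDomain A] (hdim : Module.finrank K A = 25) : IsDomain (M ⊗[K] A) := by
  have hfin : Module.Finite K A := Module.finite_of_finrank_pos (by rw [hdim]; norm_num)
  let i₁ : DivisionRing A := divisionRingOfFiniteDimensional K A
  have h := Dm_main (K := K) (M := M) (A := A) hM hdim
  exact (Algebra.TensorProduct.comm K M A).toMulEquiv.isDomain _

end Pool.Agent.H.MP_4c5958_al.SO
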