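import Mathlib

/-!
# Module MkA: the tensor product of a field and a central algebra
-/

set_option autoImplicit false

noncomputable section

open scoped TensorProduct

namespace Pool.Agent.H.MP_4c5958_al.SO

universe u

variable {K M A : Type u} [Field K] [Field M] [Algebra K M] [Ring A] [Algebra K A]

/-- The centre of `M ⊗ A` is `M`. -/
theorem tensor_center [Algebra.IsCentral K A] (b : M ⊗[K] A) (hb : ∀ a, b * a = a * b) :
    ∃ m : M, b = m ⊗ₜ 1 := by
  have h1 : b ∈ Subalgebra.centralizer K
      ((Algebra.TensorProduct.includeRight : A →ₐ[K] M ⊗[K] A).range : Set (M ⊗[K] A)) := by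
    rw [Subalgebra.mem_centralizer_iff]
    intro a _
    exact (hb a).symm
  rw [Subalgebra.centralizer_range_includeRight_eq_center_tensorProduct] at h1
  obtain ⟨w, rfl⟩ := h1
  clear hb
  induction w using TensorProduct.induction_on with
  | zero => exact ⟨0, by rw [map_zero, TensorProduct.zero_tmul]⟩
  | tmul m c =>
    obtain ⟨c, hc⟩ := c
    rw [Algebra.IsCentral.center_eq_bot] at hc
    obtain ⟨k, hk⟩ := Algebra.mem_bot.1 hc
    refine ⟨k • m, ?_⟩
    change m ⊗ₜ[K] c = (k • m) ⊗ₜ[K] (1 : A)
    rw [← hk, Algebra.algebraMap_eq_smul_one, TensorProduct.tmul_smul, TensorProduct.smul_tmul']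
  | add x y hx hy =>
    obtain ⟨m, hm⟩ := hx
    obtain ⟨m', hm'⟩ := hy
    exact ⟨m + m', by rw [TensorProduct.add_tmul, ← hm, ← hm']; exact map_add _ x y⟩

/-- The elements of `M ⊗ A` fixed by `t ⊗ id` are in `A` if the elements of `M` fixed by `t` are
in `K` (coordinates with respect to a basis of `A`). -/
theorem tensor_fixed (t : M ≃ₐ[K] M) (ht : ∀ m, t m = m → ∃ c : K, algebraMap K M c = m)
    (b : M ⊗[K] A) (hb : Algebra.TensorProduct.congr t (AlgEquiv.refl (R := K) (A₁ := A)) b = b) :
    ∃ a : A, b = 1 ⊗ₜ a := by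
  obtain ⟨e, he⟩ : ∃ e : Module.Basis (Module.Basis.ofVectorSpaceIndex K A) K A,
    e = Module.Basis.ofVectorSpace K A := ⟨_, rfl⟩
  obtain ⟨B, hB⟩ : ∃ B, B = Algebra.TensorProduct.basis M e := ⟨_, rfl⟩
  have key : ∀ (x : M ⊗[K] A) (i : Module.Basis.ofVectorSpaceIndex K A),
      B.repr (Algebra.TensorProduct.congr t (AlgEquiv.refl (R := K) (A₁ := A)) x) i =
        t (B.repr x i) := by
    intro x i
    induction x using TensorProduct.induction_on with
    | zero => simp
    | tmul m a =>
      have h1 : Algebra.TensorProduct.congr t (AlgEquiv.refl (R := K) (A₁ := A)) (m ⊗ₜ[K] a) =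
          t m ⊗ₜ[K] a := rfl
      rw [h1, hB, Algebra.TensorProduct.basis_repr_tmul, Algebra.TensorProduct.basis_repr_tmul,
        Finsupp.smul_apply, Finsupp.smul_apply, Finsupp.mapRange_apply, smul_eq_mul, smul_eq_mul,
        map_mul, AlgEquiv.commutes]
    | add x y hx hy =>
      rw [map_add, map_add, Finsupp.add_apply, hx, hy, map_add, Finsupp.add_apply, map_add]
  have h2 : ∀ i, ∃ c : K, algebraMap K M c = B.repr b i := by
    intro i
    refine ht _ ?_
    have h3 := key b i
    rw [hb] at h3
    exact h3.symm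
  choose c hc using h2
  refine ⟨∑ i ∈ (B.repr b).support, c i • e i, ?_⟩
  have h4 := B.linearCombination_repr b
  rw [Finsupp.linearCombination_apply, Finsupp.sum] at h4
  rw [TensorProduct.tmul_sum]
  refine h4.symm.trans (Finset.sum_congr rfl fun i _ => ?_)
  rw [hB, Algebra.TensorProduct.basis_apply, ← hB, ← hc i, algebraMap_smul,
    TensorProduct.tmul_smul]

end Pool.Agent.H.MP_4c5958_al.SO
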