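import Pool.Agent.H.MP_4c5958_al.SO.Fy
import Pool.Agent.H.MP_4c5958_al.SO.Dm
import Pool.Agent.H.MP_4c5958_al.SO.MkA

/-!
# Module Mk: the algebra data of a division algebra

`B = D.MM ⊗[K] A` (a domain by `isDomain_tensor`, finite over `K`, so a division ring by
`divisionRingOfFiniteDimensional`), `inc a = 1 ⊗ a`, `ι` is the `D.MM`-homomorphism with
`θ ↦ 1 ⊗ x` (`exists_lift`), `T = t ⊗ id` with `t` of `exists_tau`; `T ι = ι τ` by `hom_ext`;
the elements fixed by `T` are `1 ⊗ a` (`tensor_fixed`, `fixed_K`);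
the centre of `B` is `M` (`tensor_center`).
-/

set_option autoImplicit false

noncomputable section

open scoped TensorProduct

namespace Pool.Agent.H.MP_4c5958_al.SO

universe u

theorem Mk_pack {K E A : Type u} [Field K] [Field E] [Algebra K E] (D : GD K E) [Ring A]
    [Algebra K A] (B : Type u) [Ring B] [IsDomain B] [Algebra K B] (hfin : FiniteDimensional K B)
    (hdim : Module.finrank K B = 25 * D.r)
    (x : A) (inc : A →ₐ[K] B) (ι : E →ₐ[K] B) (T : B ≃ₐ[K] B)
    (inc_inj : Function.Injective inc) (ιθ : ι D.θ = inc x) (Tι : ∀ e, T (ι e) = ι (D.τ e))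
    (Tr : ∀ b, (T ^ D.r) b = b) (Tinc : ∀ a, T (inc a) = inc a)
    (Tfix : ∀ b, T b = b → ∃ a, inc a = b)
    (central : ∀ e, D.σ e = e → ∀ b, b * ι e = ι e * b)
    (of_central : ∀ b, (∀ a, b * a = a * b) → ∃ e, D.σ e = e ∧ b = ι e) :
    ∃ (B : Type u) (_ : DivisionRing B) (_ : Algebra K B), Nonempty (AD D A B) := by
  let dr : DivisionRing B := divisionRingOfFiniteDimensional K B
  refine ⟨B, dr, ‹Algebra K B›, ⟨?_⟩⟩
  exact
    { x := x
      inc := inc
      ι := ι
      T := T
      inc_inj := inc_inj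
      ιθ := ιθ
      Tι := Tι
      Tr := AlgEquiv.ext Tr
      Tinc := Tinc
      Tfix := Tfix
      central := central
      of_central := of_central
      fin := hfin
      dim := hdim }

theorem Mk_gen {K E A : Type u} [Field K] [Field E] [Algebra K E] (D : GD K E) [Ring A]
    [Algebra K A] (x : A) (hx : minpoly K x = minpoly K D.θ)
    (B : Type u) [Ring B] [IsDomain B] [Algebra K B] [Algebra D.MM B] [IsScalarTower K D.MM B]
    (hfin : FiniteDimensional K B) (hdim : Module.finrank K B = 25 * D.r)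
    (inc : A →ₐ[K] B) (inc_inj : Function.Injective inc)
    (t : D.MM ≃ₐ[K] D.MM) (ht : ∀ m : D.MM, ((t m : D.MM) : E) = D.τ (m : E))
    (T : B ≃ₐ[K] B) (Tinc : ∀ a, T (inc a) = inc a)
    (hTm : ∀ m : D.MM, T (algebraMap D.MM B m) = algebraMap D.MM B (t m))
    (Tr : ∀ b, (T ^ D.r) b = b)
    (Tfix : ∀ b, T b = b → ∃ a, inc a = b)
    (hc : ∀ b : B, (∀ a, b * a = a * b) → ∃ m : D.MM, b = algebraMap D.MM B m) :
    ∃ (B : Type u) (_ : DivisionRing B) (_ : Algebra K B), Nonempty (AD D A B) := by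
  have hy : Polynomial.aeval (inc x) ((minpoly K D.θ).map (algebraMap K D.MM)) = 0 := by
    rw [Polynomial.aeval_map_algebraMap, Polynomial.aeval_algHom_apply, ← hx, minpoly.aeval,
      map_zero]
  obtain ⟨f, hf⟩ := exists_lift D (B := B) (inc x) hy
  have hfm : ∀ m : D.MM, f (m : E) = algebraMap D.MM B m := fun m => f.commutes m
  refine Mk_pack D B hfin hdim x inc (f.restrictScalars K) T inc_inj hf ?_ Tr Tinc Tfix ?_ ?_
  · intro e
    have h1 : (T : B →ₐ[K] B).comp (f.restrictScalars K) =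
        (f.restrictScalars K).comp (D.τ : E →ₐ[K] E) := by
      refine hom_ext D _ _ (fun e he => ?_) ?_
      · have h2 : T (f ((⟨e, (mem_MM D e).2 he⟩ : D.MM) : E)) =
            f (D.τ ((⟨e, (mem_MM D e).2 he⟩ : D.MM) : E)) := by
          rw [← ht, hfm, hfm, hTm]
        exact h2
      · have h2 : T (f D.θ) = f (D.τ D.θ) := by
          rw [D.τθ, hf, Tinc]
        exact h2
    exact DFunLike.congr_fun h1 e
  · intro e he b
    have h2 : b * f ((⟨e, (mem_MM D e).2 he⟩ : D.MM) : E) =
        f ((⟨e, (mem_MM D e).2 he⟩ : D.MM) : E) * b := by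
      rw [hfm]
      exact (Algebra.commutes (⟨e, (mem_MM D e).2 he⟩ : D.MM) b).symm
    exact h2
  · intro b hb
    obtain ⟨m, hm⟩ := hc b hb
    refine ⟨(m : E), (mem_MM D _).1 m.2, ?_⟩
    rw [hm]
    exact (hfm m).symm

theorem exists_AD {K E A : Type u} [Field K] [Field E] [Algebra K E] (D : GD K E) [Ring A]
    [Algebra K A] [Algebra.IsCentral K A] [IsSimpleRing A] [IsDomain A]
    (hdim : Module.finrank K A = 25) (x : A) (hx : minpoly K x = minpoly K D.θ) :
    ∃ (B : Type u) (_ : DivisionRing B) (_ : Algebra K B), Nonempty (AD D A B) := by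
  have := D.fin
  have := D.gal
  have hfinA : FiniteDimensional K A := Module.finite_of_finrank_pos (by rw [hdim]; norm_num)
  have hfinM : FiniteDimensional K D.MM := inferInstance
  have hr : Module.finrank K D.MM = D.r := finrank_MM D
  have h5 : ¬ 5 ∣ Module.finrank K D.MM := by
    rw [hr]
    rcases D.hrk with h | h | h <;> rw [h.1] <;> norm_num
  have hdom : IsDomain (D.MM ⊗[K] A) := isDomain_tensor h5 hdim
  obtain ⟨t, ht, htr⟩ := exists_tau D
  have hTt : ∀ (m : D.MM) (a : A),
      Algebra.TensorProduct.congr t (AlgEquiv.refl (R := K) (A₁ := A)) (m ⊗ₜ[K] a) =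
        t m ⊗ₜ[K] a := fun m a => rfl
  have hTn : ∀ (n : ℕ) (m : D.MM) (a : A),
      ((Algebra.TensorProduct.congr t (AlgEquiv.refl (R := K) (A₁ := A))) ^ n) (m ⊗ₜ[K] a) =
        (t ^ n) m ⊗ₜ[K] a := by
    intro n
    induction n with
    | zero =>
      intro m a
      simp
    | succ n ih =>
      intro m a
      rw [pow_succ, pow_succ, AlgEquiv.mul_apply, AlgEquiv.mul_apply, hTt, ih]
  have hfinT : FiniteDimensional K (D.MM ⊗[K] A) := inferInstance
  have hdimT : Module.finrank K (D.MM ⊗[K] A) = 25 * D.r := by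
    rw [Module.finrank_tensorProduct, hr, hdim, mul_comm]
  refine Mk_gen D x hx (D.MM ⊗[K] A) hfinT hdimT
    (Algebra.TensorProduct.includeRight : A →ₐ[K] D.MM ⊗[K] A) ?_ t ht
    (Algebra.TensorProduct.congr t (AlgEquiv.refl (R := K) (A₁ := A))) ?_ ?_ ?_ ?_ ?_
  · exact (Algebra.TensorProduct.includeRight : A →ₐ[K] D.MM ⊗[K] A).toRingHom.injective
  · intro a
    have h1 := hTt 1 a
    rw [map_one] at h1
    exact h1
  · intro m
    exact hTt m 1
  · intro b
    induction b using TensorProduct.induction_on with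
    | zero => rw [map_zero]
    | tmul m a => rw [hTn, htr]; rfl
    | add b c hb hc => rw [map_add, hb, hc]
  · intro b hb
    obtain ⟨a, ha⟩ := tensor_fixed t (fun m hm => by
      have h1 : D.τ (m : E) = m := by rw [← ht, hm]
      obtain ⟨c, hc⟩ := fixed_K D (m : E) ((mem_MM D _).1 m.2) h1
      exact ⟨c, Subtype.ext hc⟩) b hb
    exact ⟨a, ha.symm⟩
  · intro b hb
    exact tensor_center b hb

end Pool.Agent.H.MP_4c5958_al.SO
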