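import Mathlib

/-!
# Module Spl: algebras that are not division algebras are split

Wedderburn: `A` is `Matrix (Fin n) (Fin n) D'`, `n ^ 2 * dim D' = 25`; if `A` is not a domain then
`n = 5` and `D' = K`. (H/MP_4c5958_al/Wedderburn.lean has the form of Wedderburn's theorem used for
the other theorem of this problem.)
-/

set_option autoImplicit false

noncomputable section

open scoped TensorProduct

namespace Pool.Agent.H.MP_4c5958_al.SO

universe u

theorem split_of_not_domain {K A : Type u} [Field K] [Ring A] [Algebra K A] [Algebra.IsCentral K A]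
    [IsSimpleRing A] (hdim : Module.finrank K A = 25) (h : ¬ IsDomain A) :
    Nonempty (A ≃ₐ[K] Matrix (Fin 5) (Fin 5) K) := by
  have hfin : Module.Finite K A := Module.finite_of_finrank_pos (by rw [hdim]; norm_num)
  have hart : IsArtinianRing A := IsArtinianRing.of_finite K A
  obtain ⟨n, hn, D, iD, iA, iF, ⟨e⟩⟩ :=
    IsSimpleRing.exists_algEquiv_matrix_divisionRing_finite K A
  have h1 : n * n * Module.finrank K D = 25 := by
    rw [← hdim, e.toLinearEquiv.finrank_eq, Module.finrank_matrix, Fintype.card_fin]
  have hn1 : n ≤ 25 := by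
    have h2 : n ∣ 25 := ⟨n * Module.finrank K D, by rw [← h1]; ring⟩
    exact Nat.le_of_dvd (by norm_num) h2
  have hcase : n = 1 ∨ (n = 5 ∧ Module.finrank K D = 1) := by
    have h2 : n * n ∣ 25 := ⟨Module.finrank K D, h1.symm⟩
    have h3 : n ≤ 5 := by
      have h4 := Nat.le_of_dvd (by norm_num) h2
      by_contra hcon
      push Not at hcon
      have h5 : 6 * 6 ≤ n * n := Nat.mul_le_mul hcon hcon
      omega
    interval_cases n
    · exact absurd h1 (by norm_num)
    · exact Or.inl rfl
    · omega
    · omega
    · omega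
    · exact Or.inr ⟨rfl, by omega⟩
  rcases hcase with h5 | ⟨h5, hD⟩
  · exfalso
    subst h5
    apply h
    have hdom : IsDomain (Matrix (Fin 1) (Fin 1) D) :=
      (Matrix.uniqueRingEquiv (m := Fin 1) (A := D)).toMulEquiv.isDomain_iff.2 inferInstance
    exact e.toRingEquiv.toMulEquiv.isDomain_iff.2 hdom
  · subst h5
    have hbij : Function.Bijective (algebraMap K D) := by
      refine ⟨(algebraMap K D).injective, fun x => ?_⟩
      have h6 := Subalgebra.bot_eq_top_iff_finrank_eq_one.2 hD
      have h7 : x ∈ (⊥ : Subalgebra K D) := by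
        rw [h6]
        exact Algebra.mem_top
      exact Algebra.mem_bot.1 h7
    exact ⟨e.trans (AlgEquiv.mapMatrix (AlgEquiv.ofBijective (Algebra.ofId K D) hbij).symm)⟩

/-- The matrix algebra is defined over every intermediate field. -/
theorem form_of_split {F K A : Type u} [Field F] [Field K] [Algebra F K] [Ring A] [Algebra K A]
    (e : A ≃ₐ[K] Matrix (Fin 5) (Fin 5) K) (L : IntermediateField F K) :
    ∃ (A₀ : Type u) (_ : Ring A₀) (_ : Algebra L A₀), (Algebra.IsCentral L A₀ ∧ IsSimpleRing A₀ ∧
      Module.finrank L A₀ = 25) ∧ Nonempty (K ⊗[L] A₀ ≃ₐ[K] A) := by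
  refine ⟨Matrix (Fin 5) (Fin 5) L, inferInstance, inferInstance, ⟨?_, inferInstance, ?_⟩, ⟨?_⟩⟩
  · exact Algebra.IsCentral.of_algEquiv L (Module.End L (Fin 5 → L)) (Matrix (Fin 5) (Fin 5) L)
      (Matrix.toLinAlgEquiv').symm
  · rw [Module.finrank_matrix, Fintype.card_fin, Module.finrank_self]
  · refine (AlgEquiv.ofRingEquiv (f := ((matrixEquivTensor (Fin 5) L K).symm).toRingEquiv)
      fun k => ?_).trans e.symm
    show (matrixEquivTensor (Fin 5) L K).symm (algebraMap K (K ⊗[L] Matrix (Fin 5) (Fin 5) L) k) = _
    rw [Algebra.TensorProduct.algebraMap_apply, matrixEquivTensor_apply_symm,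
      Matrix.map_one _ (map_zero _) (map_one _), Algebra.algebraMap_eq_smul_one,
      Algebra.algebraMap_eq_smul_one]
    simp

/-- A central division algebra of dimension 25 has an infinite centre (little Wedderburn). -/
theorem infinite_of_domain {K A : Type u} [Field K] [Ring A] [Algebra K A] [Algebra.IsCentral K A]
    [IsDomain A] (hdim : Module.finrank K A = 25) : Infinite K := by
  by_contra hcon
  rw [not_infinite_iff_finite] at hcon
  have hfin : Module.Finite K A := Module.finite_of_finrank_pos (by rw [hdim]; norm_num)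
  have hA : Finite A := Module.finite_of_finite K
  have hfield := Finite.isDomain_to_isField A
  have h1 : (⊥ : Subalgebra K A) = ⊤ := by
    rw [eq_top_iff]
    intro x _
    refine Algebra.IsCentral.out ?_
    rw [Subalgebra.mem_center_iff]
    intro y
    exact hfield.mul_comm y x
  have h2 := Subalgebra.bot_eq_top_iff_finrank_eq_one.1 h1
  omega

theorem trdeg_bot {F K : Type u} [Field F] [Field K] [Algebra F K] :
    Algebra.trdeg F (⊥ : IntermediateField F K) = 0 := by
  exact trdeg_eq_zero

end Pool.Agent.H.MP_4c5958_al.SO
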