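import Mathlib

/-!
# Module Trd: transcendence degrees
-/

set_option autoImplicit false

noncomputable section

namespace Pool.Agent.H.MP_4c5958_al.SO

universe u

open scoped IntermediateField.algebraAdjoinAdjoin in
theorem trdeg_adjoin_le {F E : Type u} [Field F] [Field E] [Algebra F E] (S : Finset E) :
    Algebra.trdeg F (IntermediateField.adjoin F (S : Set E)) ≤ (S.card : Cardinal.{u}) := by
  have h0 : Algebra.trdeg (Algebra.adjoin F (S : Set E))
      (IntermediateField.adjoin F (S : Set E)) = 0 :=
    trdeg_eq_zero_iff.2 inferInstance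
  have h1 := trdeg_add_eq F (Algebra.adjoin F (S : Set E))
    (A := IntermediateField.adjoin F (S : Set E))
  rw [h0, add_zero] at h1
  rw [← h1]
  have h2 : Algebra.adjoin F (S : Set E) =
      (MvPolynomial.aeval (R := F) (fun x : (S : Set E) => (x : E))).range := by
    rw [← Algebra.adjoin_range_eq_range_aeval, Subtype.range_coe]
  rw [h2]
  have h3 := trdeg_le_of_surjective
    (MvPolynomial.aeval (R := F) (fun x : (S : Set E) => (x : E))).rangeRestrict
    (AlgHom.rangeRestrict_surjective _)
  refine h3.trans ?_
  rw [MvPolynomial.trdeg_of_isDomain, Cardinal.lift_id]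
  exact Cardinal.mk_coe_finset.le

theorem trdeg_comap_le {F K E : Type u} [Field F] [Field K] [Field E] [Algebra F K] [Algebra K E]
    [Algebra F E] [IsScalarTower F K E] (L : IntermediateField F E) :
    Algebra.trdeg F (L.comap (IsScalarTower.toAlgHom F K E)) ≤ Algebra.trdeg F L := by
  let f : K →ₐ[F] E := IsScalarTower.toAlgHom F K E
  let g : (L.comap f) →ₐ[F] L.toSubalgebra :=
    (f.comp (L.comap f).val).codRestrict L.toSubalgebra (fun x => x.2)
  exact trdeg_le_of_injective g fun x y h => by
    have h1 : f (x : K) = f (y : K) := congrArg Subtype.val h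
    exact Subtype.ext (f.toRingHom.injective h1)

end Pool.Agent.H.MP_4c5958_al.SO
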