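import Pool.Agent.H.MP_4c5958_al.SO.Gal
import Pool.Agent.H.MP_4c5958_al.SO.Mk
import Pool.Agent.H.MP_4c5958_al.SO.ChA
import Pool.Agent.H.MP_4c5958_al.SO.ChB
import Pool.Agent.H.MP_4c5958_al.SO.ChC
import Pool.Agent.H.MP_4c5958_al.SO.ChD
import Pool.Agent.H.MP_4c5958_al.SO.ChE
import Pool.Agent.H.MP_4c5958_al.SO.Trd
import Pool.Agent.H.MP_4c5958_al.SO.Spl

/-!
# Module ChM: characteristic five
-/

set_option autoImplicit false

noncomputable section

open scoped TensorProduct
open Polynomial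

namespace Pool.Agent.H.MP_4c5958_al.SO

universe u

theorem main_char {F K A : Type u} [Field F] [CharP F 5] [Field K] [Algebra F K] [Ring A]
    [Algebra K A] [Algebra.IsCentral K A] [IsSimpleRing A] (hdim : Module.finrank K A = 25) (x : A)
    (hirr : Irreducible (minpoly K x)) (hdeg : (minpoly K x).natDegree = 5)
    (hsep : (minpoly K x).Separable) (hsol : Group.IsSolvable (minpoly K x).Gal) :
    ∃ L : IntermediateField F K,
      (∃ (A₀ : Type u) (_ : Ring A₀) (_ : Algebra L A₀), (Algebra.IsCentral L A₀ ∧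
        IsSimpleRing A₀ ∧ Module.finrank L A₀ = 25) ∧ Nonempty (K ⊗[L] A₀ ≃ₐ[K] A)) ∧
      Algebra.trdeg F L ≤ (2 : ℕ) := by
  by_cases hdom : IsDomain A
  swap
  · obtain ⟨e⟩ := split_of_not_domain hdim hdom
    refine ⟨⊥, form_of_split e ⊥, ?_⟩
    rw [trdeg_bot]
    exact zero_le
  have hfin : FiniteDimensional K A := Module.finite_of_finrank_pos (by rw [hdim]; norm_num)
  have hint : IsIntegral K x := IsIntegral.of_finite K x
  have hchar : CharP K 5 := charP_of_injective_algebraMap (algebraMap F K).injective 5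
  obtain ⟨D, hD, -⟩ := exists_GD (minpoly K x) hirr (minpoly.monic hint) hdeg hsep hsol
  obtain ⟨B, _, _, ⟨P⟩⟩ := exists_AD D hdim x hD.symm
  obtain ⟨z, a, hz, hnc⟩ := exists_insep P
  obtain ⟨y, hy⟩ := exists_y z a hz hnc
  have hz0 : z ≠ 0 := fun h => hnc 0 (by rw [h, map_zero])
  obtain ⟨⟨w, hw⟩, c, hc⟩ := yz_basis y z hdim hz0 hy
  classical
  obtain ⟨L, hL⟩ : ∃ L : IntermediateField F K,
      L = IntermediateField.adjoin F ((({a, c} : Finset K) : Set K)) := ⟨_, rfl⟩
  have haL : a ∈ L := by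
    rw [hL]
    exact IntermediateField.subset_adjoin F _ (by simp)
  have hcL : c ∈ L := by
    rw [hL]
    exact IntermediateField.subset_adjoin F _ (by simp)
  obtain ⟨A₀, h1, h2⟩ := form_yz y z a c w hw hy hz hc L haL hcL
  obtain ⟨h3, h4⟩ := form_descends hdim L A₀ w h1 h2
  refine ⟨L, ⟨A₀, inferInstance, inferInstance, h3, h4⟩, ?_⟩
  rw [hL]
  exact (trdeg_adjoin_le _).trans (Nat.cast_le.2 Finset.card_le_two)

end Pool.Agent.H.MP_4c5958_al.SO
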