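import Pool.Agent.H.MP_4c5958_al.SO.Defs

/-!
# Module CrA: all cross ratios of five points are rational in two of them

`f t = ((t - t₁) (t₂ - t₀)) / ((t - t₀) (t₂ - t₁))` sends `t₀, t₁, t₂` to `∞, 0, 1`;
`X = f t₃ = cr 3 2 1 0`, `Y = f t₄ = cr 4 2 1 0`. With `w₀ = (1, 0)`, `w₁ = (0, 1)`, `w₂ = (1, 1)`,
`w₃ = (X, 1)`, `w₄ = (Y, 1)` there are nonzero `λ i` and `κ` with
`det (w i, w j) = κ * λ i * λ j * (t i - t j)`, so `cr t i j k l` is the same expression in the
`det (w i, w j)`, which are in `F(X, Y)`.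
-/

set_option autoImplicit false

noncomputable section

namespace Pool.Agent.H.MP_4c5958_al.SO

/-- The homogeneous coordinates of the points. -/
theorem CrA_key {F E : Type*} [Field F] [Field E] [Algebra F E] (t : ZMod 5 → E)
    (ht : Function.Injective t) (i : ZMod 5) : ∃ m p q : E, m ≠ 0 ∧
      p ∈ IntermediateField.adjoin F ({cr t 3 2 1 0, cr t 4 2 1 0} : Set E) ∧
      q ∈ IntermediateField.adjoin F ({cr t 3 2 1 0, cr t 4 2 1 0} : Set E) ∧
      (t i - t 1) * (t 2 - t 0) = m * p ∧ (t i - t 0) * (t 2 - t 1) = m * q := by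
  have hne : ∀ a b : ZMod 5, a ≠ b → t a - t b ≠ 0 := fun a b hab =>
    sub_ne_zero.2 fun h => hab (ht h)
  have h10 := hne 1 0 (by decide)
  have h01 := hne 0 1 (by decide)
  have h20 := hne 2 0 (by decide)
  have h21 := hne 2 1 (by decide)
  have h30 := hne 3 0 (by decide)
  have h40 := hne 4 0 (by decide)
  have hi : i = 0 ∨ i = 1 ∨ i = 2 ∨ i = 3 ∨ i = 4 := by
    revert i
    decide
  rcases hi with rfl | rfl | rfl | rfl | rfl
  · exact ⟨(t 0 - t 1) * (t 2 - t 0), 1, 0, mul_ne_zero h01 h20, one_mem _, zero_mem _,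
      by ring, by ring⟩
  · exact ⟨(t 1 - t 0) * (t 2 - t 1), 0, 1, mul_ne_zero h10 h21, zero_mem _, one_mem _,
      by ring, by ring⟩
  · exact ⟨(t 2 - t 1) * (t 2 - t 0), 1, 1, mul_ne_zero h21 h20, one_mem _, one_mem _,
      by ring, by ring⟩
  · refine ⟨(t 3 - t 0) * (t 2 - t 1), cr t 3 2 1 0, 1, mul_ne_zero h30 h21,
      IntermediateField.subset_adjoin _ _ (Set.mem_insert _ _), one_mem _, ?_, by ring⟩
    unfold cr
    rw [mul_div_cancel₀ _ (mul_ne_zero h30 h21)]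
  · refine ⟨(t 4 - t 0) * (t 2 - t 1), cr t 4 2 1 0, 1, mul_ne_zero h40 h21,
      IntermediateField.subset_adjoin _ _ (Set.mem_insert_of_mem _ rfl), one_mem _, ?_, by ring⟩
    unfold cr
    rw [mul_div_cancel₀ _ (mul_ne_zero h40 h21)]

theorem cr_mem {F E : Type*} [Field F] [Field E] [Algebra F E] (t : ZMod 5 → E)
    (ht : Function.Injective t) (i j k l : ZMod 5) (hij : i ≠ j) (hik : i ≠ k) (hil : i ≠ l)
    (hjk : j ≠ k) (hjl : j ≠ l) (hkl : k ≠ l) :
    cr t i j k l ∈ IntermediateField.adjoin F ({cr t 3 2 1 0, cr t 4 2 1 0} : Set E) := by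
  have hne : ∀ a b : ZMod 5, a ≠ b → t a - t b ≠ 0 := fun a b hab =>
    sub_ne_zero.2 fun h => hab (ht h)
  have hkey := fun i : ZMod 5 => CrA_key (F := F) t ht i
  choose m p q hm hp hq h1 h2 using hkey
  obtain ⟨C, hC, hC0⟩ : ∃ C : E, C = (t 2 - t 0) * (t 2 - t 1) * (t 1 - t 0) ∧ C ≠ 0 :=
    ⟨_, rfl, mul_ne_zero (mul_ne_zero (hne 2 0 (by decide)) (hne 2 1 (by decide)))
      (hne 1 0 (by decide))⟩
  obtain ⟨d, hd⟩ : ∃ d : ZMod 5 → ZMod 5 → E, ∀ a b, d a b = p a * q b - p b * q a :=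
    ⟨fun a b => p a * q b - p b * q a, fun _ _ => rfl⟩
  have e1 : ∀ a b, C * (t a - t b) = m a * m b * d a b := by
    intro a b
    rw [hd, hC]
    linear_combination (t b - t 0) * (t 2 - t 1) * h1 a - (t a - t 0) * (t 2 - t 1) * h1 b +
      m a * p a * h2 b - m b * p b * h2 a
  have e2 : ∀ a b, t a - t b = m a * m b * d a b / C := by
    intro a b
    rw [eq_div_iff hC0, ← e1, mul_comm]
  have e3 : ∀ a b, a ≠ b → d a b ≠ 0 := by
    intro a b hab h0
    have h3 := e1 a b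
    rw [h0, mul_zero] at h3
    exact mul_ne_zero hC0 (hne a b hab) h3
  have e4 : cr t i j k l = (d i k * d j l) / (d i l * d j k) := by
    have a1 := hm i
    have a2 := hm j
    have a3 := hm k
    have a4 := hm l
    have a5 := e3 i l hil
    have a6 := e3 j k hjk
    unfold cr
    rw [e2 i k, e2 j l, e2 i l, e2 j k]
    field_simp
  have e5 : ∀ a b, d a b ∈
      IntermediateField.adjoin F ({cr t 3 2 1 0, cr t 4 2 1 0} : Set E) := by
    intro a b
    rw [hd]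
    exact sub_mem (mul_mem (hp a) (hq b)) (mul_mem (hp b) (hq a))
  rw [e4]
  exact div_mem (mul_mem (e5 _ _) (e5 _ _)) (mul_mem (e5 _ _) (e5 _ _))

end Pool.Agent.H.MP_4c5958_al.SO
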