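import Pool.Agent.H.MP_4c5958_al.SO.Defs

/-!
# Module CrB: a good generator

Put `η = T θ + θ ^ 2` with `T ∈ K`, `θ_i = σ ^ i θ` (distinct, `i < 5`), `η_i = σ ^ i η`. Then
`η_i - η_j = (θ_i - θ_j) (T + θ_i + θ_j)`. `cr η 0 1 2 3 = cr η 1 2 3 4` would give
`D(0,2) D(1,4) D(2,3) = D(0,3) D(1,2) D(2,4)` for `D(i,j) = η_i - η_j`, a polynomial equation in `T` that
is nontrivial: at `T = -(θ_0 + θ_2)` the left side vanishes and the right side does not
(`θ_0 + θ_2` is not `θ_0 + θ_3`, `θ_1 + θ_2`, `θ_2 + θ_4`). So all but finitely many `T ∈ K` do.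
-/

set_option autoImplicit false

noncomputable section

namespace Pool.Agent.H.MP_4c5958_al.SO

universe u

open Polynomial in
/-- The polynomials. -/
theorem CrB_pol {K E : Type u} [Field K] [Field E] [Algebra K E] [Infinite K] {t : ZMod 5 → E}
    (ht : Function.Injective t) :
    ∃ T : K, (∀ i j : ZMod 5, i ≠ j → algebraMap K E T + t i + t j ≠ 0) ∧
      (t 2 - t 4) * (t 0 - t 3) * (t 1 - t 2) * ((algebraMap K E T + t 2 + t 4) *
        (algebraMap K E T + t 0 + t 3) * (algebraMap K E T + t 1 + t 2)) ≠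
      (t 0 - t 2) * (t 1 - t 4) * (t 2 - t 3) * ((algebraMap K E T + t 0 + t 2) *
        (algebraMap K E T + t 1 + t 4) * (algebraMap K E T + t 2 + t 3)) := by
  classical
  have hne : ∀ i j : ZMod 5, i ≠ j → t i - t j ≠ 0 := fun i j h =>
    sub_ne_zero.2 (ht.ne h)
  set P : E[X] := C ((t 2 - t 4) * (t 0 - t 3) * (t 1 - t 2)) *
      ((X + C (t 2 + t 4)) * (X + C (t 0 + t 3)) * (X + C (t 1 + t 2))) -
    C ((t 0 - t 2) * (t 1 - t 4) * (t 2 - t 3)) *
      ((X + C (t 0 + t 2)) * (X + C (t 1 + t 4)) * (X + C (t 2 + t 3))) with hP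
  set Q : E[X] := ∏ i : ZMod 5, ∏ j : ZMod 5, (X + C (t i + t j)) with hQ
  have hP0 : P ≠ 0 := by
    intro h
    have h1 : P.eval (-(t 0 + t 2)) = 0 := by rw [h, eval_zero]
    have h2 : P.eval (-(t 0 + t 2)) = (t 2 - t 4) * (t 0 - t 3) * (t 1 - t 2) *
        ((t 4 - t 0) * (t 3 - t 2) * (t 1 - t 0)) := by
      rw [hP]
      simp only [eval_sub, eval_mul, eval_C, eval_add, eval_X]
      ring
    rw [h2] at h1
    have a1 := hne 2 4 (by decide)
    have a2 := hne 0 3 (by decide)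
    have a3 := hne 1 2 (by decide)
    have a4 := hne 4 0 (by decide)
    have a5 := hne 3 2 (by decide)
    have a6 := hne 1 0 (by decide)
    exact mul_ne_zero (mul_ne_zero (mul_ne_zero a1 a2) a3)
      (mul_ne_zero (mul_ne_zero a4 a5) a6) h1
  have hQ0 : Q ≠ 0 := by
    rw [hQ]
    exact Finset.prod_ne_zero_iff.2 fun i _ => Finset.prod_ne_zero_iff.2 fun j _ =>
      X_add_C_ne_zero _
  have hfin : {x : E | (P * Q).IsRoot x}.Finite :=
    Polynomial.finite_setOf_isRoot (mul_ne_zero hP0 hQ0)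
  obtain ⟨T, hT⟩ := (hfin.preimage (f := algebraMap K E)
    (algebraMap K E).injective.injOn).exists_notMem
  have hT2 : (P * Q).eval (algebraMap K E T) ≠ 0 := hT
  rw [eval_mul] at hT2
  refine ⟨T, ?_, ?_⟩
  · intro i j _ h0
    apply right_ne_zero_of_mul hT2
    rw [hQ, eval_prod]
    refine Finset.prod_eq_zero (Finset.mem_univ i) ?_
    rw [eval_prod]
    refine Finset.prod_eq_zero (Finset.mem_univ j) ?_
    rw [eval_add, eval_X, eval_C, ← add_assoc, h0]
  · intro h0
    apply left_ne_zero_of_mul hT2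
    rw [hP]
    simp only [eval_sub, eval_mul, eval_C, eval_add, eval_X]
    rw [sub_eq_zero]
    simp only [← add_assoc]
    exact h0

theorem CrB_pow {K E : Type u} [Field K] [Field E] [Algebra K E] (g : E ≃ₐ[K] E) {x : E}
    (h : g x = x) (a : ℕ) : (g ^ a) x = x := by
  induction a with
  | zero => rfl
  | succ n ih => rw [pow_succ, AlgEquiv.mul_apply, h, ih]

theorem CrB_ne {K E : Type u} [Field K] [Field E] [Algebra K E] (D : GD K E) {m : ℕ}
    (h0 : 0 < m) (h5 : m < 5) : (D.σ ^ m) D.θ ≠ D.θ := by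
  intro h
  apply D.σθ
  have hs : D.σ ^ 5 = 1 := by
    rw [← D.hσ]
    exact pow_orderOf_eq_one _
  have key : ∀ a b : ℕ, m * a = 5 * b + 1 → D.σ D.θ = D.θ := by
    intro a b hab
    have h1 := CrB_pow _ h a
    rw [← pow_mul, hab, pow_add, pow_mul, hs, one_pow, one_mul, pow_one] at h1
    exact h1
  interval_cases m
  · exact key 1 0 rfl
  · exact key 3 1 rfl
  · exact key 2 1 rfl
  · exact key 4 3 rfl

theorem CrB_inj {K E : Type u} [Field K] [Field E] [Algebra K E] (D : GD K E) :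
    Function.Injective (fun i : ZMod 5 => (D.σ ^ i.val) D.θ) := by
  have key : ∀ i j : ZMod 5, i.val < j.val → (D.σ ^ i.val) D.θ ≠ (D.σ ^ j.val) D.θ := by
    intro i j hij h
    have hj := ZMod.val_lt j
    have e : j.val = i.val + (j.val - i.val) := by omega
    rw [e, pow_add, AlgEquiv.mul_apply] at h
    exact CrB_ne D (m := j.val - i.val) (by omega) (by omega) ((D.σ ^ i.val).injective h).symm
  intro i j hij
  rcases lt_trichotomy i.val j.val with h | h | h
  · exact (key i j h hij).elim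
  · exact ZMod.val_injective 5 h
  · exact (key j i h hij.symm).elim

theorem exists_eta {K E : Type u} [Field K] [Field E] [Algebra K E] [Infinite K] (D : GD K E) :
    ∃ η : E, D.τ η = η ∧ Function.Injective (fun i : ZMod 5 => (D.σ ^ i.val) η) ∧
      cr (fun i : ZMod 5 => (D.σ ^ i.val) η) 1 2 3 4 ≠
        cr (fun i : ZMod 5 => (D.σ ^ i.val) η) 0 1 2 3 := by
  obtain ⟨T, hT1, hT2⟩ := CrB_pol (K := K) (CrB_inj D)
  set t : ZMod 5 → E := fun i : ZMod 5 => (D.σ ^ i.val) D.θ with ht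
  have hinj : Function.Injective t := CrB_inj D
  set s : ZMod 5 → E := fun i : ZMod 5 =>
    (D.σ ^ i.val) (algebraMap K E T * D.θ + D.θ ^ 2) with hs
  have hd : ∀ i j, s i - s j = (t i - t j) * (algebraMap K E T + t i + t j) := by
    intro i j
    rw [hs, ht]
    simp only [map_add, map_mul, map_pow, AlgEquiv.commutes]
    ring
  have hne : ∀ i j : ZMod 5, i ≠ j → s i - s j ≠ 0 := by
    intro i j hij
    rw [hd]
    exact mul_ne_zero (sub_ne_zero.2 (hinj.ne hij)) (hT1 i j hij)
  refine ⟨algebraMap K E T * D.θ + D.θ ^ 2, ?_, ?_, ?_⟩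
  · rw [map_add, map_mul, map_pow, AlgEquiv.commutes, D.τθ]
  · intro i j hij
    by_contra h
    exact hne i j h (sub_eq_zero.2 hij)
  · intro h
    change cr s 1 2 3 4 = cr s 0 1 2 3 at h
    unfold cr at h
    have a1 := hne 1 4 (by decide)
    have a2 := hne 2 3 (by decide)
    have a3 := hne 0 3 (by decide)
    have a4 := hne 1 2 (by decide)
    have a5 := hne 1 3 (by decide)
    rw [div_eq_div_iff (mul_ne_zero a1 a2) (mul_ne_zero a3 a4)] at h
    apply hT2
    apply mul_left_cancel₀ a5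
    have e1 := hd 2 4
    have e2 := hd 0 3
    have e3 := hd 1 2
    have e4 := hd 0 2
    have e5 := hd 1 4
    have e6 := hd 2 3
    calc (s 1 - s 3) * ((t 2 - t 4) * (t 0 - t 3) * (t 1 - t 2) *
          ((algebraMap K E T + t 2 + t 4) * (algebraMap K E T + t 0 + t 3) *
            (algebraMap K E T + t 1 + t 2)))
        = (s 1 - s 3) * (((t 2 - t 4) * (algebraMap K E T + t 2 + t 4)) *
          ((t 0 - t 3) * (algebraMap K E T + t 0 + t 3)) *
            ((t 1 - t 2) * (algebraMap K E T + t 1 + t 2))) := by ring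
      _ = (s 1 - s 3) * (s 2 - s 4) * ((s 0 - s 3) * (s 1 - s 2)) := by
          rw [← e1, ← e2, ← e3]
          ring
      _ = (s 0 - s 2) * (s 1 - s 3) * ((s 1 - s 4) * (s 2 - s 3)) := h
      _ = (s 1 - s 3) * (((t 0 - t 2) * (algebraMap K E T + t 0 + t 2)) *
          ((t 1 - t 4) * (algebraMap K E T + t 1 + t 4)) *
            ((t 2 - t 3) * (algebraMap K E T + t 2 + t 3))) := by
          rw [← e4, ← e5, ← e6]
          ring
      _ = _ := by ring

end Pool.Agent.H.MP_4c5958_al.SO
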