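import Pool.Agent.H.MP_4c5958_al.SO.CrA
import Pool.Agent.H.MP_4c5958_al.SO.CrB

/-!
# Module CrC: a small stable subfield on which `σ` is not trivial

`S = {cr η 3 2 1 0, cr η 4 2 1 0}`; `σ η_i = η_(i+1)`, `τ η_i = η_(k i)` (`τ σ ^ i = σ ^ (k i) τ`,
`τ η = η`), so `σ` and `τ` map cross ratios to cross ratios, which are in `F(S)` by `cr_mem`;
`e = cr η 0 1 2 3`, `σ e = cr η 1 2 3 4`.
-/

set_option autoImplicit false

noncomputable section

namespace Pool.Agent.H.MP_4c5958_al.SO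

universe u

theorem CrC_map {K E : Type*} [Field K] [Field E] [Algebra K E] (φ : E ≃ₐ[K] E) (t : ZMod 5 → E)
    (π : ZMod 5 → ZMod 5) (h : ∀ i, φ (t i) = t (π i)) (i j k l : ZMod 5) :
    φ (cr t i j k l) = cr t (π i) (π j) (π k) (π l) := by
  unfold cr
  rw [map_div₀, map_mul, map_mul, map_sub, map_sub, map_sub, map_sub, h, h, h, h]

theorem CrC_pow {K E : Type u} [Field K] [Field E] [Algebra K E] (D : GD K E) (η : E) (n : ℕ) :
    (D.σ ^ (n % 5)) η = (D.σ ^ n) η := by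
  have h := pow_mod_orderOf D.σ n
  rw [D.hσ] at h
  rw [h]

theorem CrC_sig {K E : Type u} [Field K] [Field E] [Algebra K E] (D : GD K E) (η : E)
    (i : ZMod 5) : D.σ ((D.σ ^ i.val) η) = (D.σ ^ (i + 1).val) η := by
  have h1 : (i + 1).val = (i.val + 1) % 5 := by
    rw [ZMod.val_add]
    rfl
  rw [h1, CrC_pow, pow_succ']
  rfl

theorem CrC_comm {K E : Type u} [Field K] [Field E] [Algebra K E] (D : GD K E) (i : ℕ) :
    D.τ * D.σ ^ i = D.σ ^ (D.k * i) * D.τ := by
  induction i with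
  | zero => rw [Nat.mul_zero, pow_zero, mul_one, one_mul]
  | succ i ih =>
    rw [pow_succ, ← mul_assoc, ih, mul_assoc, D.rel, ← mul_assoc, ← pow_add, Nat.mul_succ]

theorem CrC_tau {K E : Type u} [Field K] [Field E] [Algebra K E] (D : GD K E) {η : E}
    (hη : D.τ η = η) (i : ZMod 5) :
    D.τ ((D.σ ^ i.val) η) = (D.σ ^ ((D.k : ZMod 5) * i).val) η := by
  have h1 : ((D.k : ZMod 5) * i).val = (D.k * i.val) % 5 := by
    rw [← ZMod.val_natCast, Nat.cast_mul, ZMod.natCast_zmod_val]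
  have h2 : (D.τ * D.σ ^ i.val) η = (D.σ ^ (D.k * i.val) * D.τ) η := by rw [CrC_comm]
  have h3 : D.τ ((D.σ ^ i.val) η) = (D.σ ^ (D.k * i.val)) (D.τ η) := h2
  rw [h3, hη, h1, CrC_pow]

theorem CrC_inj {K E : Type u} [Field K] [Field E] [Algebra K E] (D : GD K E) :
    Function.Injective fun i : ZMod 5 => (D.k : ZMod 5) * i := by
  rcases D.hrk with ⟨-, h⟩ | ⟨-, h⟩ | ⟨-, h⟩
  · rw [h]
    intro a b
    revert a b
    decide
  · rw [h]
    intro a b
    revert a b
    decide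
  · rw [h]
    intro a b
    revert a b
    decide

theorem CrC_mem {F K E : Type u} [Field F] [Field K] [Field E] [Algebra K E]
    [Algebra F E] (φ : E ≃ₐ[K] E) (t : ZMod 5 → E) (ht : Function.Injective t)
    (π : ZMod 5 → ZMod 5) (hπ : Function.Injective π) (h : ∀ i, φ (t i) = t (π i)) (s : E)
    (hs : s = cr t 3 2 1 0 ∨ s = cr t 4 2 1 0) :
    φ s ∈ IntermediateField.adjoin F ({cr t 3 2 1 0, cr t 4 2 1 0} : Set E) := by
  rcases hs with rfl | rfl
  · rw [CrC_map φ t π h]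
    exact cr_mem t ht _ _ _ _ (hπ.ne (by decide)) (hπ.ne (by decide)) (hπ.ne (by decide))
      (hπ.ne (by decide)) (hπ.ne (by decide)) (hπ.ne (by decide))
  · rw [CrC_map φ t π h]
    exact cr_mem t ht _ _ _ _ (hπ.ne (by decide)) (hπ.ne (by decide)) (hπ.ne (by decide))
      (hπ.ne (by decide)) (hπ.ne (by decide)) (hπ.ne (by decide))

theorem exists_small {F K E : Type u} [Field F] [Field K] [Field E] [Algebra F K] [Algebra K E]
    [Algebra F E] [IsScalarTower F K E] [Infinite K] (D : GD K E) :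
    ∃ S : Finset E, S.card ≤ 2 ∧
      (∀ s ∈ S, D.σ s ∈ IntermediateField.adjoin F (S : Set E)) ∧
      (∀ s ∈ S, D.τ s ∈ IntermediateField.adjoin F (S : Set E)) ∧
      ∃ e ∈ IntermediateField.adjoin F (S : Set E), D.σ e ≠ e := by
  classical
  obtain ⟨η, hη, ht, hne⟩ := exists_eta D
  obtain ⟨t, hdef⟩ : ∃ t : ZMod 5 → E, t = fun i => (D.σ ^ i.val) η := ⟨_, rfl⟩
  rw [← hdef] at ht hne
  have hσ : ∀ i, D.σ (t i) = t (i + 1) := fun i => by
    rw [hdef]
    exact CrC_sig D η i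
  have hτ : ∀ i, D.τ (t i) = t ((D.k : ZMod 5) * i) := fun i => by
    rw [hdef]
    exact CrC_tau D hη i
  refine ⟨{cr t 3 2 1 0, cr t 4 2 1 0}, Finset.card_le_two, ?_, ?_, cr t 0 1 2 3, ?_, ?_⟩
  · intro s hs
    rw [Finset.coe_pair]
    rw [Finset.mem_insert, Finset.mem_singleton] at hs
    exact CrC_mem D.σ t ht (fun i => i + 1) (add_left_injective 1) hσ s hs
  · intro s hs
    rw [Finset.coe_pair]
    rw [Finset.mem_insert, Finset.mem_singleton] at hs
    exact CrC_mem D.τ t ht (fun i => (D.k : ZMod 5) * i) (CrC_inj D) hτ s hs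
  · rw [Finset.coe_pair]
    exact cr_mem t ht _ _ _ _ (by decide) (by decide) (by decide) (by decide) (by decide)
      (by decide)
  · rw [CrC_map D.σ t (fun i => i + 1) hσ]
    exact hne

end Pool.Agent.H.MP_4c5958_al.SO
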