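import Pool.Agent.H.MP_4c5958_al.SO.Dec

/-!
# Module DecB: `ι E` is its own centralizer

Write `b = ∑ ι (c i) * u ^ i` (`dec_span`); `b ι(θ) = ι(θ) b` gives `c i * (σ ^ i θ - θ) = 0`
(`dec_indep`), so `c i = 0` for `i ≠ 0`.
-/

set_option autoImplicit false

noncomputable section

namespace Pool.Agent.H.MP_4c5958_al.SO

universe u

variable {K E A B : Type u} [Field K] [Field E] [Algebra K E] {D : GD K E} [Ring A]
    [Algebra K A] [DivisionRing B] [Algebra K B] (P : AD D A B)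

theorem DecB_fix (D : GD K E) (i : ℕ) (h1 : 1 ≤ i) (h4 : i < 5)
    (h : (D.σ ^ i) D.θ = D.θ) : False := by
  have h5 : D.σ ^ 5 = 1 := by
    rw [← D.hσ]
    exact pow_orderOf_eq_one _
  have key : ∀ m : ℕ, ((D.σ ^ i) ^ m) D.θ = D.θ := by
    intro m
    induction m with
    | zero => rw [pow_zero, AlgEquiv.one_apply]
    | succ m ih => rw [pow_succ, AlgEquiv.mul_apply, h, ih]
  apply D.σθ
  interval_cases i
  · rwa [pow_one] at h
  · have h6 := key 3
    rwa [← pow_mul, show 2 * 3 = 5 + 1 from rfl, pow_add, h5, one_mul, pow_one] at h6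
  · have h6 := key 2
    rwa [← pow_mul, show 3 * 2 = 5 + 1 from rfl, pow_add, h5, one_mul, pow_one] at h6
  · have h6 := key 4
    rwa [← pow_mul, show 4 * 4 = 5 * 3 + 1 from rfl, pow_add, pow_mul, h5, one_pow, one_mul,
      pow_one] at h6

theorem DecB_pow {u : B} (hu : ∀ e, u * P.ι e = P.ι (D.σ e) * u) (i : ℕ) (e : E) :
    u ^ i * P.ι e = P.ι ((D.σ ^ i) e) * u ^ i := by
  induction i with
  | zero => rw [pow_zero, pow_zero, one_mul, mul_one, AlgEquiv.one_apply]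
  | succ i ih =>
    rw [pow_succ', mul_assoc, ih, ← mul_assoc, hu, mul_assoc, pow_succ' D.σ, AlgEquiv.mul_apply]

/-- `ι E` is its own centralizer. -/
theorem dec_cent {u : B} (hu0 : u ≠ 0) (hu : ∀ e, u * P.ι e = P.ι (D.σ e) * u) (b : B)
    (hb : ∀ e, b * P.ι e = P.ι e * b) : ∃ e, b = P.ι e := by
  obtain ⟨c, hc⟩ := dec_span P hu0 hu b
  have h1 : ∑ i : Fin 5, P.ι (c i * ((D.σ ^ (i : ℕ)) D.θ - D.θ)) * u ^ (i : ℕ) = 0 := by
    have h2 := hb D.θ
    rw [hc, Finset.sum_mul, Finset.mul_sum, ← sub_eq_zero, ← Finset.sum_sub_distrib] at h2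
    rw [← h2]
    refine Finset.sum_congr rfl fun i _ => ?_
    rw [mul_assoc (P.ι (c i)), DecB_pow P hu, ← mul_assoc, ← mul_assoc, ← map_mul, ← map_mul,
      ← sub_mul, ← map_sub]
    congr 2
    ring
  have h3 := dec_indep P hu0 hu _ h1
  refine ⟨c 0, ?_⟩
  rw [hc, Finset.sum_eq_single (0 : Fin 5)]
  · rw [Fin.val_zero, pow_zero, mul_one]
  · intro i _ hi
    have h4 : c i * ((D.σ ^ (i : ℕ)) D.θ - D.θ) = 0 := congrFun h3 i
    rcases mul_eq_zero.1 h4 with h5 | h5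
    · rw [h5, map_zero, zero_mul]
    · exact (DecB_fix D i (Nat.one_le_iff_ne_zero.2 fun h => hi (Fin.ext h)) i.isLt
        (sub_eq_zero.1 h5)).elim
  · intro h
    exact absurd (Finset.mem_univ _) h

end Pool.Agent.H.MP_4c5958_al.SO
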