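import Mathlib

/-!
# Module Defs: Galois data and algebra data

See H/MP_4c5958_al/SO: central simple algebras of degree five with a solvable maximal subfield.
-/

set_option autoImplicit false

noncomputable section

namespace Pool.Agent.H.MP_4c5958_al.SO

universe u

/-- Galois data: the group of `E/K` is generated by `σ` of order `5` and `τ` of order
`r ∈ {1, 2, 4}`, where `τ σ = σ ^ k τ`, and `τ` fixes `θ`. -/
structure GD (K E : Type u) [Field K] [Field E] [Algebra K E] where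
  r : ℕ
  k : ℕ
  σ : E ≃ₐ[K] E
  τ : E ≃ₐ[K] E
  θ : E
  hrk : (r = 1 ∧ k = 1) ∨ (r = 2 ∧ k = 4) ∨ (r = 4 ∧ k = 2)
  hσ : orderOf σ = 5
  hτ : orderOf τ = r
  rel : τ * σ = σ ^ k * τ
  τθ : τ θ = θ
  σθ : σ θ ≠ θ
  gen : ∀ g : E ≃ₐ[K] E, ∃ i < 5, ∃ j < r, g = σ ^ i * τ ^ j
  fin : FiniteDimensional K E
  gal : IsGalois K E
  deg : (minpoly K θ).natDegree = 5
  card : Nat.card (E ≃ₐ[K] E) = 5 * r

/-- The subfield of `E` fixed by `σ`. -/
def GD.MM {K E : Type u} [Field K] [Field E] [Algebra K E] (D : GD K E) :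
    IntermediateField K E :=
  IntermediateField.fixedField (Subgroup.zpowers D.σ)

/-- Algebra data: `B = M ⊗ A` with the embedding `ι` of `E` and the automorphism `T = τ ⊗ id`. -/
structure AD {K E : Type u} [Field K] [Field E] [Algebra K E] (D : GD K E)
    (A B : Type u) [Ring A] [Algebra K A] [DivisionRing B] [Algebra K B] where
  x : A
  inc : A →ₐ[K] B
  ι : E →ₐ[K] B
  T : B ≃ₐ[K] B
  inc_inj : Function.Injective inc
  ιθ : ι D.θ = inc x
  Tι : ∀ e, T (ι e) = ι (D.τ e)
  Tr : T ^ D.r = 1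
  Tinc : ∀ a, T (inc a) = inc a
  Tfix : ∀ b, T b = b → ∃ a, inc a = b
  central : ∀ e, D.σ e = e → ∀ b, b * ι e = ι e * b
  of_central : ∀ b, (∀ a, b * a = a * b) → ∃ e, D.σ e = e ∧ b = ι e
  fin : FiniteDimensional K B
  dim : Module.finrank K B = 25 * D.r

/-- The cross ratio of four of the points `t`. -/
def cr {I E : Type*} [Field E] (t : I → E) (i j k l : I) : E :=
  ((t i - t k) * (t j - t l)) / ((t i - t l) * (t j - t k))

end Pool.Agent.H.MP_4c5958_al.SO
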