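import Pool.Agent.H.MP_4c5958_al.SO.DscD

/-!
# Module DscB: descent of the fixed ring, injectivity

The coordinate map `A₀ → κ → L`, `a ↦ (w.repr (inc a) s)_s`, is injective and `L`-linear, so
`K ⊗ A₀ → K ⊗ (κ → L) = (κ → K)` is injective (flatness), and the composite with
`K ⊗ A₀ → A → B → (κ → K)` is this map.
-/

set_option autoImplicit false

noncomputable section

open scoped TensorProduct

namespace Pool.Agent.H.MP_4c5958_al.SO

universe u

theorem mulK_injective {F K A B : Type u} [Field F] [Field K] [Algebra F K] [Ring A] [Algebra K A]
    [Ring B] [Algebra K B] (L : IntermediateField F K) (inc : A →ₐ[K] B)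
    (hinj : Function.Injective inc) {κ : Type} [Fintype κ] (w : Module.Basis κ K B)
    (A₀ : Subalgebra L A) (hco : ∀ a ∈ A₀, ∀ s, w.repr (inc a) s ∈ L) :
    Function.Injective (mulK A₀) := by
  classical
  let u : A₀ →ₗ[L] (κ → L) :=
    { toFun := fun a s => ⟨w.repr (inc (a : A)) s, hco (a : A) a.2 s⟩
      map_add' := fun a b => by
        funext s
        apply Subtype.ext
        show w.repr (inc ((a : A) + (b : A))) s = w.repr (inc (a : A)) s + w.repr (inc (b : A)) s
        rw [map_add, map_add, Finsupp.add_apply]
      map_smul' := fun c a => by
        funext s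
        apply Subtype.ext
        show w.repr (inc ((c : K) • (a : A))) s = (c : K) * w.repr (inc (a : A)) s
        rw [map_smul, map_smul, Finsupp.smul_apply, smul_eq_mul] }
  have hu : Function.Injective u := by
    intro a b hab
    apply Subtype.ext
    apply hinj
    apply w.repr.injective
    ext s
    exact congrArg Subtype.val (congrFun hab s)
  have h1 : Function.Injective (LinearMap.lTensor K u) :=
    Module.Flat.lTensor_preserves_injective_linearMap u hu
  have key : ∀ z : K ⊗[L] A₀, (fun s => w.repr (inc (mulK A₀ z)) s) =
      TensorProduct.piScalarRight L L K κ (LinearMap.lTensor K u z) := by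
    intro z
    induction z using TensorProduct.induction_on with
    | zero =>
      rw [map_zero, map_zero, map_zero, map_zero, map_zero]
      rfl
    | tmul c a =>
      rw [mulK_tmul, map_smul, map_smul, LinearMap.lTensor_tmul, TensorProduct.piScalarRight_apply]
      funext s
      rw [Finsupp.smul_apply, TensorProduct.piScalarRightHom_tmul, smul_eq_mul]
      show _ = (w.repr (inc (a : A)) s) * c
      rw [mul_comm]
    | add x y hx hy =>
      rw [map_add (LinearMap.lTensor K u), map_add (TensorProduct.piScalarRight L L K κ), ← hx, ← hy]
      funext s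
      rw [map_add, map_add, map_add]
      rfl
  intro z₁ z₂ h
  apply h1
  apply (TensorProduct.piScalarRight L L K κ).injective
  rw [← key, ← key, h]

end Pool.Agent.H.MP_4c5958_al.SO
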