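import Pool.Agent.H.MP_4c5958_al.SO.DscA
import Pool.Agent.H.MP_4c5958_al.SO.DscB

/-!
# Module Dsc: descent of the fixed ring

`A₀ = {a | inc a ∈ B₁}` is a subalgebra over `L`; `φ = mulK A₀` is bijective by `span_fixed` and
`mulK_injective`.
-/

set_option autoImplicit false

noncomputable section

open scoped TensorProduct

namespace Pool.Agent.H.MP_4c5958_al.SO

universe u

theorem exists_descent {F K A B : Type u} [Field F] [Field K] [Algebra F K] [Ring A] [Algebra K A]
    [Ring B] [Algebra K B] (L : IntermediateField F K) (inc : A →ₐ[K] B)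
    (hinj : Function.Injective inc) (T : B ≃ₐ[K] B) (r : ℕ) (hr : 0 < r) (hTr : T ^ r = 1)
    (hTinc : ∀ a, T (inc a) = inc a) (hfix : ∀ b, T b = b → ∃ a, inc a = b)
    (m : B) (hm : ∑ j ∈ Finset.range r, (T ^ j) m = 1)
    (B₁ : Subring B) {κ : Type} [Fintype κ] (w : Module.Basis κ K B) (hw : ∀ s, w s ∈ B₁)
    (hco : ∀ y ∈ B₁, ∀ s, w.repr y s ∈ L) (hK : ∀ c ∈ L, algebraMap K B c ∈ B₁)
    (hTB : ∀ y ∈ B₁, T y ∈ B₁) :
    ∃ A₀ : Subalgebra L A, (∀ a, a ∈ A₀ ↔ inc a ∈ B₁) ∧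
      ∃ φ : K ⊗[L] A₀ ≃ₐ[K] A, ∀ (c : K) (a : A₀), φ (c ⊗ₜ a) = c • (a : A) := by
  let A₀ : Subalgebra L A :=
    { carrier := {a | inc a ∈ B₁}
      mul_mem' := fun {a b} ha hb => by
        show inc (a * b) ∈ B₁
        rw [map_mul]
        exact B₁.mul_mem ha hb
      one_mem' := by
        show inc 1 ∈ B₁
        rw [map_one]
        exact B₁.one_mem
      add_mem' := fun {a b} ha hb => by
        show inc (a + b) ∈ B₁
        rw [map_add]
        exact B₁.add_mem ha hb
      zero_mem' := by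
        show inc 0 ∈ B₁
        rw [map_zero]
        exact B₁.zero_mem
      algebraMap_mem' := fun c => by
        show inc (algebraMap L A c) ∈ B₁
        have h1 : algebraMap L A c = algebraMap K A (c : K) := rfl
        rw [h1, inc.commutes]
        exact hK _ c.2 }
  have hmem : ∀ a, a ∈ A₀ ↔ inc a ∈ B₁ := fun a => Iff.rfl
  refine ⟨A₀, hmem, ?_⟩
  have hinj' : Function.Injective (mulK A₀) :=
    mulK_injective L inc hinj w A₀ fun a ha s => hco _ ha s
  have hsur : Function.Surjective (mulK A₀) := by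
    intro a
    have h1 := span_fixed inc hinj T r hr hTr hTinc hfix m hm B₁ w hw hTB a
    have h2 : Submodule.span K {a : A | inc a ∈ B₁} ≤ LinearMap.range (mulK A₀).toLinearMap := by
      rw [Submodule.span_le]
      intro x hx
      exact ⟨(1 : K) ⊗ₜ[L] (⟨x, hx⟩ : A₀), by
        show mulK A₀ ((1 : K) ⊗ₜ[L] (⟨x, hx⟩ : A₀)) = x
        rw [mulK_tmul, one_smul]⟩
    exact h2 h1
  exact ⟨AlgEquiv.ofBijective (mulK A₀) ⟨hinj', hsur⟩, fun c a => mulK_tmul A₀ c a⟩

end Pool.Agent.H.MP_4c5958_al.SO
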