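import Mathlib

/-!
# Module DscA: descent of the fixed ring, surjectivity

Write `m * inc a = ∑ λ_s w_s`, `λ_s ∈ K`; then `inc a = ∑_j T ^ j (m * inc a) =
∑_s λ_s (∑_j T ^ j w_s)` and `∑_j T ^ j w_s ∈ B₁` is fixed by `T` (`T ^ r = 1`), so it is `inc` of an
element of `{a | inc a ∈ B₁}`.
-/

set_option autoImplicit false

noncomputable section

namespace Pool.Agent.H.MP_4c5958_al.SO

universe u

theorem span_fixed {K A B : Type u} [Field K] [Ring A] [Algebra K A]
    [Ring B] [Algebra K B] (inc : A →ₐ[K] B)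
    (hinj : Function.Injective inc) (T : B ≃ₐ[K] B) (r : ℕ) (hr : 0 < r) (hTr : T ^ r = 1)
    (hTinc : ∀ a, T (inc a) = inc a) (hfix : ∀ b, T b = b → ∃ a, inc a = b)
    (m : B) (hm : ∑ j ∈ Finset.range r, (T ^ j) m = 1)
    (B₁ : Subring B) {κ : Type} [Fintype κ] (w : Module.Basis κ K B) (hw : ∀ s, w s ∈ B₁)
    (hTB : ∀ y ∈ B₁, T y ∈ B₁) (a : A) : a ∈ Submodule.span K {a : A | inc a ∈ B₁} := by
  have hTj : ∀ j : ℕ, (T ^ j) (inc a) = inc a := by
    intro j
    induction j with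
    | zero => rfl
    | succ j ih => rw [pow_succ, AlgEquiv.mul_apply, hTinc, ih]
  have hTBj : ∀ j : ℕ, ∀ y ∈ B₁, (T ^ j) y ∈ B₁ := by
    intro j
    induction j with
    | zero => exact fun y hy => hy
    | succ j ih =>
      intro y hy
      rw [pow_succ, AlgEquiv.mul_apply]
      exact ih _ (hTB y hy)
  have hcB : ∀ s, ∑ j ∈ Finset.range r, (T ^ j) (w s) ∈ B₁ := fun s =>
    B₁.sum_mem (fun j _ => hTBj j _ (hw s))
  have hcT : ∀ s, T (∑ j ∈ Finset.range r, (T ^ j) (w s)) =
      ∑ j ∈ Finset.range r, (T ^ j) (w s) := by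
    intro s
    rw [map_sum]
    have h1 : ∀ j ∈ Finset.range r, T ((T ^ j) (w s)) = (T ^ (j + 1)) (w s) := by
      intro j _
      rw [pow_succ', AlgEquiv.mul_apply]
    rw [Finset.sum_congr rfl h1]
    have h2 := Finset.sum_range_succ' (fun j => (T ^ j) (w s)) r
    have h3 := Finset.sum_range_succ (fun j => (T ^ j) (w s)) r
    have h4 : (T ^ r) (w s) = (T ^ 0) (w s) := by rw [hTr, pow_zero]
    have h5 : ∑ j ∈ Finset.range r, (T ^ (j + 1)) (w s) + (T ^ 0) (w s) =
        ∑ j ∈ Finset.range r, (T ^ j) (w s) + (T ^ 0) (w s) := by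
      rw [← h2, h3, h4]
    exact add_right_cancel h5
  choose c hc using fun s => hfix _ (hcT s)
  have hmain : inc a = ∑ s, (w.repr (m * inc a)) s • inc (c s) := by
    have h1 : ∑ j ∈ Finset.range r, (T ^ j) (m * inc a) = inc a := by
      have h2 : ∀ j ∈ Finset.range r, (T ^ j) (m * inc a) = (T ^ j) m * inc a := by
        intro j _
        rw [map_mul, hTj]
      rw [Finset.sum_congr rfl h2, ← Finset.sum_mul, hm, one_mul]
    have h3 : ∀ j : ℕ, (T ^ j) (m * inc a) = ∑ s, (w.repr (m * inc a)) s • (T ^ j) (w s) := by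
      intro j
      conv_lhs => rw [← w.sum_repr (m * inc a)]
      rw [map_sum]
      refine Finset.sum_congr rfl (fun s _ => ?_)
      rw [map_smul]
    calc inc a = ∑ j ∈ Finset.range r, (T ^ j) (m * inc a) := h1.symm
      _ = ∑ j ∈ Finset.range r, ∑ s, (w.repr (m * inc a)) s • (T ^ j) (w s) :=
          Finset.sum_congr rfl (fun j _ => h3 j)
      _ = ∑ s, ∑ j ∈ Finset.range r, (w.repr (m * inc a)) s • (T ^ j) (w s) := Finset.sum_comm
      _ = ∑ s, (w.repr (m * inc a)) s • inc (c s) := by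
          refine Finset.sum_congr rfl (fun s _ => ?_)
          rw [← Finset.smul_sum, hc]
  have hfin : a = ∑ s, (w.repr (m * inc a)) s • c s := by
    apply hinj
    rw [map_sum]
    conv_lhs => rw [hmain]
    refine Finset.sum_congr rfl (fun s _ => ?_)
    rw [map_smul]
  rw [hfin]
  refine Submodule.sum_mem _ (fun s _ => Submodule.smul_mem _ _ (Submodule.subset_span ?_))
  show inc (c s) ∈ B₁
  rw [hc]
  exact hcB s

end Pool.Agent.H.MP_4c5958_al.SO
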