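import Mathlib

/-!
# Module DscD: the multiplication map `K ⊗ A₀ → A`
-/

set_option autoImplicit false

noncomputable section

open scoped TensorProduct

namespace Pool.Agent.H.MP_4c5958_al.SO

universe u

variable {F K A : Type u} [Field F] [Field K] [Algebra F K] [Ring A] [Algebra K A]
    {L : IntermediateField F K}

/-- The multiplication map. -/
def mulK (A₀ : Subalgebra L A) : K ⊗[L] A₀ →ₐ[K] A :=
  Algebra.TensorProduct.lift (Algebra.ofId K A) A₀.val (fun c a => Algebra.commutes c (a : A))

theorem mulK_tmul (A₀ : Subalgebra L A) (c : K) (a : A₀) : mulK A₀ (c ⊗ₜ a) = c • (a : A) := by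
  rw [mulK, Algebra.TensorProduct.lift_tmul, Algebra.smul_def]
  rfl

end Pool.Agent.H.MP_4c5958_al.SO
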