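import Pool.Agent.H.MP_4c5958_al.SO.FrmB

/-!
# Module Frm: the form of `B`

`B₁ = {∑ ι (c i) * u ^ i : c i ∈ L}`. It is a subring (`u * ι e = ι (σ e) * u`, `u ^ 5 = ι b`),
stable under `T` (`T u = ι d * u ^ k`, `T (ι e) = ι (τ e)`). The products `ι (ε l) * u ^ i` are a basis of
`B` over `K` (`dec_indep`, `dec_span`), and the coordinates of elements of `B₁` are in `K ∩ L`.
-/

set_option autoImplicit false

noncomputable section

namespace Pool.Agent.H.MP_4c5958_al.SO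

universe u

theorem exists_form {F K E A B : Type u} [Field F] [Field K] [Field E] [Algebra F K] [Algebra K E]
    [Algebra F E] [IsScalarTower F K E] {D : GD K E} [Ring A] [Algebra K A] [DivisionRing B]
    [Algebra K B] (P : AD D A B) (L : IntermediateField F E)
    (h1 : ∀ g : E ≃ₐ[K] E, ∀ e ∈ L, g e ∈ L)
    (h2 : ∀ g : E ≃ₐ[K] E, (∀ e ∈ L, g e = e) → g = 1)
    {u : B} {b d : E} (hu0 : u ≠ 0) (hu : ∀ e, u * P.ι e = P.ι (D.σ e) * u)
    (hb : b ∈ L) (hd : d ∈ L) (h5 : u ^ 5 = P.ι b) (hT : P.T u = P.ι d * u ^ D.k) :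
    ∃ (B₁ : Subring B) (κ : Type) (_ : Fintype κ) (w : Module.Basis κ K B),
      (∀ s, w s ∈ B₁) ∧ (∀ y ∈ B₁, ∀ s, algebraMap K E (w.repr y s) ∈ L) ∧
      (∀ c : K, algebraMap K E c ∈ L → algebraMap K B c ∈ B₁) ∧
      (∀ y ∈ B₁, P.T y ∈ B₁) ∧
      (∀ c : K, algebraMap K B c ∈ B₁ → algebraMap K E c ∈ L) := by
  obtain ⟨B₁, hB, hTB⟩ := form_subring P L h1 hu0 hu hb hd h5 hT
  obtain ⟨κ, _, w, hw1, hw2, hw3, hw4⟩ := form_basis P L h1 h2 hu0 hu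
  exact ⟨B₁, κ, inferInstance, w, fun s => (hB _).2 (hw1 s), fun y hy => hw2 y ((hB y).1 hy),
    fun c hc => (hB _).2 (hw3 c hc), hTB, fun c hc => hw4 c ((hB _).1 hc)⟩

end Pool.Agent.H.MP_4c5958_al.SO
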