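import Pool.Agent.H.MP_4c5958_al.SO.Defs

/-!
# Module FrmA: the form of `B` is a ring stable under `T`

`B₁ = {∑ ι (c i) * u ^ i : c i ∈ L}`. It is closed under products (`u * ι e = ι (σ e) * u`,
`u ^ 5 = ι b`) and stable under `T` (`T u = ι d * u ^ k`, `T (ι e) = ι (τ e)`).
-/

set_option autoImplicit false
set_option linter.unusedSectionVars false

noncomputable section

namespace Pool.Agent.H.MP_4c5958_al.SO

universe u

variable {F K E A B : Type u} [Field F] [Field K] [Field E] [Algebra F K] [Algebra K E]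
    [Algebra F E] [IsScalarTower F K E] {D : GD K E} [Ring A] [Algebra K A] [DivisionRing B]
    [Algebra K B] (P : AD D A B)

/-- The form of `B`. -/
def form (L : IntermediateField F E) (u : B) : Set B :=
  {y | ∃ c : Fin 5 → E, (∀ i, c i ∈ L) ∧ y = ∑ i, P.ι (c i) * u ^ (i : ℕ)}

theorem FrmA_comm {u : B} (hu : ∀ e, u * P.ι e = P.ι (D.σ e) * u) (n : ℕ) (e : E) :
    u ^ n * P.ι e = P.ι ((D.σ ^ n) e) * u ^ n := by
  induction n generalizing e with
  | zero => rw [pow_zero, pow_zero, one_mul, mul_one, AlgEquiv.one_apply]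
  | succ n ih =>
    rw [pow_succ, mul_assoc, hu, ← mul_assoc, ih, mul_assoc, pow_succ D.σ, AlgEquiv.mul_apply]

theorem FrmA_add {L : IntermediateField F E} {u y z : B} (hy : y ∈ form P L u)
    (hz : z ∈ form P L u) : y + z ∈ form P L u := by
  obtain ⟨c, hc, rfl⟩ := hy
  obtain ⟨c', hc', rfl⟩ := hz
  refine ⟨fun i => c i + c' i, fun i => add_mem (hc i) (hc' i), ?_⟩
  rw [← Finset.sum_add_distrib]
  exact Finset.sum_congr rfl fun i _ => by rw [map_add, add_mul]

theorem FrmA_zero (L : IntermediateField F E) (u : B) : (0 : B) ∈ form P L u := by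
  refine ⟨fun _ => 0, fun i => zero_mem _, ?_⟩
  simp

theorem FrmA_neg {L : IntermediateField F E} {u y : B} (hy : y ∈ form P L u) :
    -y ∈ form P L u := by
  obtain ⟨c, hc, rfl⟩ := hy
  refine ⟨fun i => -c i, fun i => neg_mem (hc i), ?_⟩
  rw [← Finset.sum_neg_distrib]
  exact Finset.sum_congr rfl fun i _ => by rw [map_neg, neg_mul]

theorem FrmA_sum {L : IntermediateField F E} {u : B} {I : Type*} (s : Finset I) (y : I → B)
    (hy : ∀ i ∈ s, y i ∈ form P L u) : ∑ i ∈ s, y i ∈ form P L u := by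
  classical
  induction s using Finset.induction_on with
  | empty =>
    rw [Finset.sum_empty]
    exact FrmA_zero P L u
  | insert a s ha ih =>
    rw [Finset.sum_insert ha]
    exact FrmA_add P (hy a (Finset.mem_insert_self a s))
      (ih fun i hi => hy i (Finset.mem_insert_of_mem hi))

theorem FrmA_mono {L : IntermediateField F E} (h1 : ∀ g : E ≃ₐ[K] E, ∀ e ∈ L, g e ∈ L)
    {u : B} {b : E} (hu : ∀ e, u * P.ι e = P.ι (D.σ e) * u) (hb : b ∈ L)
    (h5 : u ^ 5 = P.ι b) : ∀ (n : ℕ) (e : E), e ∈ L → P.ι e * u ^ n ∈ form P L u := by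
  intro n
  induction n using Nat.strong_induction_on with
  | _ n ih =>
    intro e he
    rcases Nat.lt_or_ge n 5 with hn | hn
    · refine ⟨fun i => if i = (⟨n, hn⟩ : Fin 5) then e else 0, fun i => ?_, ?_⟩
      · dsimp only
        split_ifs
        · exact he
        · exact zero_mem _
      · rw [Finset.sum_eq_single (⟨n, hn⟩ : Fin 5)]
        · dsimp only
          rw [if_pos rfl]
        · intro i _ hi
          dsimp only
          rw [if_neg hi, map_zero, zero_mul]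
        · intro h
          exact absurd (Finset.mem_univ _) h
    · obtain ⟨m, rfl⟩ : ∃ m, n = m + 5 := ⟨n - 5, by omega⟩
      have h2 : P.ι e * u ^ (m + 5) = P.ι (e * (D.σ ^ m) b) * u ^ m := by
        rw [pow_add, h5, FrmA_comm P hu, map_mul, mul_assoc]
      rw [h2]
      exact ih m (by omega) _ (mul_mem he (h1 _ _ hb))

theorem FrmA_mul {L : IntermediateField F E} (h1 : ∀ g : E ≃ₐ[K] E, ∀ e ∈ L, g e ∈ L)
    {u : B} {b : E} (hu : ∀ e, u * P.ι e = P.ι (D.σ e) * u) (hb : b ∈ L)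
    (h5 : u ^ 5 = P.ι b) {y z : B} (hy : y ∈ form P L u) (hz : z ∈ form P L u) :
    y * z ∈ form P L u := by
  obtain ⟨c, hc, rfl⟩ := hy
  obtain ⟨c', hc', rfl⟩ := hz
  rw [Finset.sum_mul]
  refine FrmA_sum P _ _ fun i _ => ?_
  rw [Finset.mul_sum]
  refine FrmA_sum P _ _ fun j _ => ?_
  have h2 : P.ι (c i) * u ^ (i : ℕ) * (P.ι (c' j) * u ^ (j : ℕ)) =
      P.ι (c i * (D.σ ^ (i : ℕ)) (c' j)) * u ^ ((i : ℕ) + j) := by
    rw [mul_assoc, ← mul_assoc (u ^ (i : ℕ)), FrmA_comm P hu, map_mul, pow_add]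
    simp only [mul_assoc]
  rw [h2]
  exact FrmA_mono P h1 hu hb h5 _ _ (mul_mem (hc i) (h1 _ _ (hc' j)))

theorem form_subring (L : IntermediateField F E)
    (h1 : ∀ g : E ≃ₐ[K] E, ∀ e ∈ L, g e ∈ L)
    {u : B} {b d : E} (hu0 : u ≠ 0) (hu : ∀ e, u * P.ι e = P.ι (D.σ e) * u)
    (hb : b ∈ L) (hd : d ∈ L) (h5 : u ^ 5 = P.ι b) (hT : P.T u = P.ι d * u ^ D.k) :
    ∃ B₁ : Subring B, (∀ y, y ∈ B₁ ↔ y ∈ form P L u) ∧ ∀ y ∈ B₁, P.T y ∈ B₁ := by
  have hι : ∀ e ∈ L, P.ι e ∈ form P L u := fun e he => by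
    have h2 := FrmA_mono P h1 hu hb h5 0 e he
    rwa [pow_zero, mul_one] at h2
  have hmul : ∀ {y z : B}, y ∈ form P L u → z ∈ form P L u → y * z ∈ form P L u :=
    fun hy hz => FrmA_mul P h1 hu hb h5 hy hz
  have hone : (1 : B) ∈ form P L u := by
    have h2 := hι 1 (one_mem _)
    rwa [map_one] at h2
  let B₁ : Subring B :=
    { carrier := form P L u
      mul_mem' := fun hy hz => hmul hy hz
      one_mem' := hone
      add_mem' := fun hy hz => FrmA_add P hy hz
      zero_mem' := FrmA_zero P L u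
      neg_mem' := fun hy => FrmA_neg P hy }
  refine ⟨B₁, fun y => Iff.rfl, fun y hy => ?_⟩
  obtain ⟨c, hc, rfl⟩ := hy
  rw [map_sum]
  refine sum_mem fun i _ => ?_
  rw [map_mul, map_pow, P.Tι, hT]
  refine B₁.mul_mem (hι _ (h1 _ _ (hc i))) (pow_mem ?_ _)
  exact FrmA_mono P h1 hu hb h5 _ _ hd

end Pool.Agent.H.MP_4c5958_al.SO
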