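import Pool.Agent.H.MP_4c5958_al.SO.FrmA
import Pool.Agent.H.MP_4c5958_al.SO.Dec
import Pool.Agent.H.MP_4c5958_al.SO.Bas

/-!
# Module FrmB: a basis of `B` in the form

The products `ι (ε l) * u ^ i` (`κ = Fin 5 × Fin n`, `ε` of `exists_basis`) are a basis of
`B` over `K` (`dec_indep`, `dec_span`), and the coordinates of elements of `form P L u` are in `K ∩ L`.
-/

set_option autoImplicit false

noncomputable section

namespace Pool.Agent.H.MP_4c5958_al.SO

universe u

section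

variable {K E A B : Type u} [Field K] [Field E] [Algebra K E] {D : GD K E} [Ring A]
    [Algebra K A] [DivisionRing B] [Algebra K B] (P : AD D A B)

/-- One term as a sum over the powers of `u`. -/
theorem FrmB_single (u : B) (e : E) (i : Fin 5) :
    P.ι e * u ^ (i : ℕ) = ∑ j, P.ι ((Pi.single i e : Fin 5 → E) j) * u ^ (j : ℕ) := by
  rw [Finset.sum_eq_single i]
  · rw [Pi.single_eq_same]
  · intro j _ hj
    rw [Pi.single_eq_of_ne hj, map_zero, zero_mul]
  · intro h
    exact absurd (Finset.mem_univ i) h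

/-- The double sum. -/
theorem FrmB_sum {n : ℕ} (u : B) (ε : Fin n → E) (a : Fin 5 × Fin n → K) :
    ∑ s, a s • (P.ι (ε s.2) * u ^ (s.1 : ℕ)) =
      ∑ i : Fin 5, P.ι (∑ l, a (i, l) • ε l) * u ^ (i : ℕ) := by
  rw [Fintype.sum_prod_type]
  refine Finset.sum_congr rfl fun i _ => ?_
  rw [map_sum, Finset.sum_mul]
  refine Finset.sum_congr rfl fun l _ => ?_
  rw [map_smul, smul_mul_assoc]

/-- Uniqueness of the coordinates over `E`. -/
theorem FrmB_unique {u : B} (hu0 : u ≠ 0) (hu : ∀ e, u * P.ι e = P.ι (D.σ e) * u)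
    (c c' : Fin 5 → E)
    (h : ∑ i, P.ι (c i) * u ^ (i : ℕ) = ∑ i, P.ι (c' i) * u ^ (i : ℕ)) : c = c' := by
  have h1 : ∑ i, P.ι ((c - c') i) * u ^ (i : ℕ) = 0 := by
    have h2 : ∑ i, P.ι ((c - c') i) * u ^ (i : ℕ) =
        ∑ i, P.ι (c i) * u ^ (i : ℕ) - ∑ i, P.ι (c' i) * u ^ (i : ℕ) := by
      rw [← Finset.sum_sub_distrib]
      refine Finset.sum_congr rfl fun i _ => ?_
      rw [Pi.sub_apply, map_sub, sub_mul]
    rw [h2, h, sub_self]
  exact sub_eq_zero.mp (dec_indep P hu0 hu (c - c') h1)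

end

theorem form_basis {F K E A B : Type u} [Field F] [Field K] [Field E] [Algebra F K] [Algebra K E]
    [Algebra F E] [IsScalarTower F K E] {D : GD K E} [Ring A] [Algebra K A] [DivisionRing B]
    [Algebra K B] (P : AD D A B) (L : IntermediateField F E)
    (h1 : ∀ g : E ≃ₐ[K] E, ∀ e ∈ L, g e ∈ L)
    (h2 : ∀ g : E ≃ₐ[K] E, (∀ e ∈ L, g e = e) → g = 1)
    {u : B} (hu0 : u ≠ 0) (hu : ∀ e, u * P.ι e = P.ι (D.σ e) * u) :
    ∃ (κ : Type) (_ : Fintype κ) (w : Module.Basis κ K B),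
      (∀ s, w s ∈ form P L u) ∧ (∀ y ∈ form P L u, ∀ s, algebraMap K E (w.repr y s) ∈ L) ∧
      (∀ c : K, algebraMap K E c ∈ L → algebraMap K B c ∈ form P L u) ∧
      (∀ c : K, algebraMap K B c ∈ form P L u → algebraMap K E c ∈ L) := by
  have := D.fin
  have := D.gal
  obtain ⟨n, ε, hε, hεc⟩ := exists_basis L h1 h2
  have hli : LinearIndependent K fun s : Fin 5 × Fin n => P.ι (ε s.2) * u ^ (s.1 : ℕ) := by
    rw [Fintype.linearIndependent_iff]
    intro a ha s
    rw [FrmB_sum P u (fun l => ε l) a] at ha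
    have h3 := dec_indep P hu0 hu (fun i => ∑ l, a (i, l) • ε l) ha
    have h4 : ∑ l, a (s.1, l) • ε l = 0 := congrFun h3 s.1
    exact (Fintype.linearIndependent_iff.mp ε.linearIndependent) (fun l => a (s.1, l)) h4 s.2
  have hsum : ∀ c : Fin 5 → E, ∑ i, P.ι (c i) * u ^ (i : ℕ) =
      ∑ s : Fin 5 × Fin n, ε.repr (c s.1) s.2 • (P.ι (ε s.2) * u ^ (s.1 : ℕ)) := by
    intro c
    rw [FrmB_sum P u (fun l => ε l) (fun s => ε.repr (c s.1) s.2)]
    refine Finset.sum_congr rfl fun i _ => ?_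
    exact congrArg (fun e => P.ι e * u ^ (i : ℕ)) (ε.sum_repr (c i)).symm
  have hsp : ⊤ ≤ Submodule.span K
      (Set.range fun s : Fin 5 × Fin n => P.ι (ε s.2) * u ^ (s.1 : ℕ)) := by
    intro b _
    obtain ⟨c, hc⟩ := dec_span P hu0 hu b
    rw [hc, hsum c]
    refine Submodule.sum_mem _ fun s _ => Submodule.smul_mem _ _ ?_
    exact Submodule.subset_span ⟨s, rfl⟩
  have hrep : ∀ c : Fin 5 → E, ∀ s, (Module.Basis.mk hli hsp).repr
      (∑ i, P.ι (c i) * u ^ (i : ℕ)) s = ε.repr (c s.1) s.2 := by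
    intro c s
    have h5 : ∑ i, P.ι (c i) * u ^ (i : ℕ) =
        ∑ s : Fin 5 × Fin n, ε.repr (c s.1) s.2 • (Module.Basis.mk hli hsp) s := by
      rw [hsum c]
      refine Finset.sum_congr rfl fun s _ => ?_
      rw [Module.Basis.mk_apply]
    rw [h5]
    exact congrFun ((Module.Basis.mk hli hsp).repr_sum_self fun s => ε.repr (c s.1) s.2) s
  have h0 : ∀ c : K, algebraMap K B c = P.ι (algebraMap K E c) * u ^ ((0 : Fin 5) : ℕ) := by
    intro c
    rw [P.ι.commutes, Fin.val_zero, pow_zero, mul_one]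
  refine ⟨Fin 5 × Fin n, inferInstance, Module.Basis.mk hli hsp, ?_, ?_, ?_, ?_⟩
  · intro s
    rw [Module.Basis.mk_apply]
    refine ⟨Pi.single s.1 (ε s.2), fun i => ?_, FrmB_single P u (ε s.2) s.1⟩
    by_cases hi : i = s.1
    · subst hi
      rw [Pi.single_eq_same]
      exact hε s.2
    · rw [Pi.single_eq_of_ne hi]
      exact L.zero_mem
  · rintro y ⟨c, hc, rfl⟩ s
    rw [hrep c s]
    exact hεc (c s.1) (hc s.1) s.2
  · intro c hc
    rw [h0 c]
    refine ⟨Pi.single 0 (algebraMap K E c), fun i => ?_, FrmB_single P u (algebraMap K E c) 0⟩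
    by_cases hi : i = 0
    · subst hi
      rw [Pi.single_eq_same]
      exact hc
    · rw [Pi.single_eq_of_ne hi]
      exact L.zero_mem
  · rintro c ⟨c', hc', h6⟩
    rw [h0 c, FrmB_single P u (algebraMap K E c) 0] at h6
    have h7 := FrmB_unique P hu0 hu _ _ h6
    have h8 := congrFun h7 0
    rw [Pi.single_eq_same] at h8
    rw [h8]
    exact hc' 0

end Pool.Agent.H.MP_4c5958_al.SO
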