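import Pool.Agent.H.MP_4c5958_al.SO.Defs

/-!
# Module Fth: the group acts faithfully on a stable subfield on which `σ` is not trivial

Every `g` is `σ ^ i τ ^ j`. If `g ≠ 1` is trivial on the stable subfield `L` then so is the
commutator `σ g σ⁻¹ g⁻¹ = σ ^ (1 - k ^ j)`; if `0 < j < r` then `k ^ j ≠ 1` modulo `5`, so
`σ` is trivial on `L`; if `j = 0` then `g = σ ^ i` with `0 < i < 5` and again `σ` is trivial on `L`.
-/

set_option autoImplicit false

noncomputable section

namespace Pool.Agent.H.MP_4c5958_al.SO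

universe u

variable {F K E : Type u} [Field F] [Field K] [Field E] [Algebra F K] [Algebra K E]
    [Algebra F E] [IsScalarTower F K E] (D : GD K E)

omit [Field F] [Algebra F K] [Algebra F E] [IsScalarTower F K E] in
theorem Fth_pow {h : E ≃ₐ[K] E} {e : E} (he : h e = e) (n : ℕ) : (h ^ n) e = e := by
  induction n with
  | zero => rw [pow_zero, AlgEquiv.one_apply]
  | succ n ih => rw [pow_succ, AlgEquiv.mul_apply, he, ih]

omit [Field F] [Algebra F K] [Algebra F E] [IsScalarTower F K E] in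
theorem Fth_cop {m : ℕ} (hm : ¬ 5 ∣ m) {e : E} (he : (D.σ ^ m) e = e) : D.σ e = e := by
  have h1 : ∃ n, (m * n) % 5 = 1 := by
    have h2 : m % 5 = 1 ∨ m % 5 = 2 ∨ m % 5 = 3 ∨ m % 5 = 4 := by omega
    rcases h2 with h | h | h | h
    · exact ⟨1, by omega⟩
    · exact ⟨3, by omega⟩
    · exact ⟨2, by omega⟩
    · exact ⟨4, by omega⟩
  obtain ⟨n, hn⟩ := h1
  have h3 : D.σ = (D.σ ^ m) ^ n := by
    rw [← pow_mul, ← pow_mod_orderOf, D.hσ, hn, pow_one]
  rw [h3]
  exact Fth_pow he n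

omit [Field F] [Algebra F K] [Algebra F E] [IsScalarTower F K E] in
theorem Fth_ts (a : ℕ) : D.τ * D.σ ^ a = D.σ ^ (D.k * a) * D.τ := by
  induction a with
  | zero => rw [mul_zero, pow_zero, mul_one, one_mul]
  | succ a ih =>
    rw [pow_succ, ← mul_assoc, ih, mul_assoc, D.rel, ← mul_assoc, ← pow_add]
    rfl

omit [Field F] [Algebra F K] [Algebra F E] [IsScalarTower F K E] in
theorem Fth_tjs (j : ℕ) : D.τ ^ j * D.σ = D.σ ^ (D.k ^ j) * D.τ ^ j := by
  induction j with
  | zero => rw [pow_zero, pow_zero, pow_one, one_mul, mul_one]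
  | succ j ih =>
    rw [pow_succ' D.τ, mul_assoc, ih, ← mul_assoc, Fth_ts, mul_assoc, pow_succ' D.k]

theorem stable_all (L : IntermediateField F E) (h1 : ∀ e ∈ L, D.σ e ∈ L) (h2 : ∀ e ∈ L, D.τ e ∈ L)
    (g : E ≃ₐ[K] E) : ∀ e ∈ L, g e ∈ L := by
  have h3 : ∀ n, ∀ e ∈ L, (D.σ ^ n) e ∈ L := by
    intro n
    induction n with
    | zero =>
      intro e he
      rw [pow_zero, AlgEquiv.one_apply]
      exact he
    | succ n ih =>
      intro e he
      rw [pow_succ, AlgEquiv.mul_apply]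
      exact ih _ (h1 e he)
  have h4 : ∀ n, ∀ e ∈ L, (D.τ ^ n) e ∈ L := by
    intro n
    induction n with
    | zero =>
      intro e he
      rw [pow_zero, AlgEquiv.one_apply]
      exact he
    | succ n ih =>
      intro e he
      rw [pow_succ, AlgEquiv.mul_apply]
      exact ih _ (h2 e he)
  obtain ⟨i, -, j, -, rfl⟩ := D.gen g
  intro e he
  rw [AlgEquiv.mul_apply]
  exact h3 i _ (h4 j e he)

theorem faithful (L : IntermediateField F E) (h1 : ∀ e ∈ L, D.σ e ∈ L) (h2 : ∀ e ∈ L, D.τ e ∈ L)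
    (e₀ : E) (he : e₀ ∈ L) (hσ : D.σ e₀ ≠ e₀) (g : E ≃ₐ[K] E) (hg : ∀ e ∈ L, g e = e) : g = 1 := by
  obtain ⟨i, hi, j, hj, hij⟩ := D.gen g
  have hgs : g * D.σ = D.σ ^ (D.k ^ j) * g := by
    rw [hij, mul_assoc, Fth_tjs, ← mul_assoc, ← mul_assoc, ← pow_add, ← pow_add, add_comm]
  have h5 : (D.σ ^ (D.k ^ j)) e₀ = D.σ e₀ := by
    have h6 := congrArg (fun f : E ≃ₐ[K] E => f e₀) hgs
    simp only [AlgEquiv.mul_apply] at h6
    rw [hg e₀ he, hg _ (h1 e₀ he)] at h6
    exact h6.symm
  have hj0 : j = 0 := by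
    by_contra hj0
    apply hσ
    have hk : ∃ m, D.k ^ j = m + 1 ∧ ¬ 5 ∣ m := by
      rcases D.hrk with ⟨hr, hk⟩ | ⟨hr, hk⟩ | ⟨hr, hk⟩
      · omega
      · have : j = 1 := by omega
        rw [hk, this]
        exact ⟨3, by norm_num, by omega⟩
      · have : j = 1 ∨ j = 2 ∨ j = 3 := by omega
        rcases this with h | h | h
        · rw [hk, h]
          exact ⟨1, by norm_num, by omega⟩
        · rw [hk, h]
          exact ⟨3, by norm_num, by omega⟩
        · rw [hk, h]
          exact ⟨7, by norm_num, by omega⟩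
    obtain ⟨m, hm, hm5⟩ := hk
    refine Fth_cop D hm5 (D.σ.injective ?_)
    rw [← h5, hm, pow_succ', AlgEquiv.mul_apply]
  rw [hj0, pow_zero, mul_one] at hij
  by_cases hi0 : i = 0
  · rw [hij, hi0, pow_zero]
  · exfalso
    apply hσ
    refine Fth_cop D (m := i) (by omega) ?_
    rw [← hij]
    exact hg e₀ he

/-- A subfield generated by elements whose images are in it is stable. -/
theorem adjoin_stable (S : Set E) (g : E ≃ₐ[K] E) (L : IntermediateField F E)
    (hS : IntermediateField.adjoin F S ≤ L) (h : ∀ s ∈ S, g s ∈ L) :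
    ∀ e ∈ IntermediateField.adjoin F S, g e ∈ L := by
  intro e he
  induction he using IntermediateField.adjoin_induction with
  | mem x hx => exact h x hx
  | algebraMap a =>
    rw [IsScalarTower.algebraMap_apply F K E, g.commutes, ← IsScalarTower.algebraMap_apply F K E]
    exact L.algebraMap_mem a
  | add x y _ _ h1 h2 =>
    rw [map_add]
    exact L.add_mem h1 h2
  | inv x _ h1 =>
    rw [map_inv₀]
    exact L.inv_mem h1
  | mul x y _ _ h1 h2 =>
    rw [map_mul]
    exact L.mul_mem h1 h2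

end Pool.Agent.H.MP_4c5958_al.SO
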