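import Pool.Agent.H.MP_4c5958_al.SO.Fx

/-!
# Module Fy: homomorphisms out of `E = M(θ)`
-/

set_option autoImplicit false

noncomputable section

open Polynomial

namespace Pool.Agent.H.MP_4c5958_al.SO

universe u

variable {K E : Type u} [Field K] [Field E] [Algebra K E] (D : GD K E)

theorem Fy_finrank : Module.finrank D.MM E = 5 := by
  have := D.fin
  have h : Module.finrank D.MM E = Nat.card (Subgroup.zpowers D.σ) :=
    IntermediateField.finrank_fixedField_eq_card _
  rw [h, Nat.card_zpowers, D.hσ]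

theorem Fy_top : Algebra.adjoin D.MM {D.θ} = ⊤ := by
  have h5 : (Module.finrank D.MM E).Prime := by
    rw [Fy_finrank]
    norm_num
  rcases (Subalgebra.isSimpleOrder_of_finrank_prime D.MM E h5).eq_bot_or_eq_top
    (Algebra.adjoin D.MM {D.θ}) with h | h
  · exfalso
    have h1 : D.θ ∈ (⊥ : Subalgebra D.MM E) := by
      rw [← h]
      exact Algebra.self_mem_adjoin_singleton _ _
    obtain ⟨m, hm⟩ := Algebra.mem_bot.1 h1
    refine D.σθ ((mem_MM D D.θ).1 ?_)
    rw [← hm]
    exact m.2
  · exact h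

theorem Fy_int : IsIntegral D.MM D.θ := by
  have := D.fin
  exact Algebra.IsIntegral.isIntegral _

theorem Fy_minpoly : minpoly D.MM D.θ = (minpoly K D.θ).map (algebraMap K D.MM) := by
  have := D.fin
  have hK : IsIntegral K D.θ := Algebra.IsIntegral.isIntegral _
  have h1 : (minpoly D.MM D.θ).natDegree = 5 := by
    have h2 := PowerBasis.finrank (PowerBasis.ofAdjoinEqTop (Fy_int D) (Fy_top D))
    rw [Fy_finrank] at h2
    exact h2.symm
  refine (Polynomial.eq_of_monic_of_dvd_of_natDegree_le (minpoly.monic (Fy_int D))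
    ((minpoly.monic hK).map _) (minpoly.dvd_map_of_isScalarTower K D.MM D.θ) ?_).symm
  rw [h1, Polynomial.natDegree_map, D.deg]

/-- Homomorphisms out of `E = M(θ)`; the minimal polynomial of `θ` over `M` is the one over `K`
because `[E : M] = 5`. -/
theorem exists_lift {B : Type u} [Ring B] [Algebra D.MM B] (y : B)
    (hy : aeval y ((minpoly K D.θ).map (algebraMap K D.MM)) = 0) :
    ∃ f : E →ₐ[D.MM] B, f D.θ = y := by
  have hg : (PowerBasis.ofAdjoinEqTop (Fy_int D) (Fy_top D)).gen = D.θ :=
    PowerBasis.ofAdjoinEqTop_gen _ _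
  have h1 : aeval y (minpoly D.MM (PowerBasis.ofAdjoinEqTop (Fy_int D) (Fy_top D)).gen) = 0 := by
    rw [hg, Fy_minpoly]
    exact hy
  refine ⟨(PowerBasis.ofAdjoinEqTop (Fy_int D) (Fy_top D)).lift y h1, ?_⟩
  have h2 := PowerBasis.lift_gen (PowerBasis.ofAdjoinEqTop (Fy_int D) (Fy_top D)) y h1
  rw [hg] at h2
  exact h2

/-- `K(θ)` together with `M` generate `E`: two `K`-algebra homomorphisms that agree on `M` and at
`θ` are equal. -/
theorem hom_ext {B : Type u} [Ring B] [Algebra K B] (f g : E →ₐ[K] B)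
    (h1 : ∀ e, D.σ e = e → f e = g e) (h2 : f D.θ = g D.θ) : f = g := by
  refine AlgHom.ext fun e => ?_
  have he : e ∈ Algebra.adjoin D.MM {D.θ} := by
    rw [Fy_top]
    exact Algebra.mem_top
  induction he using Algebra.adjoin_induction with
  | mem x hx =>
    rw [Set.mem_singleton_iff.1 hx]
    exact h2
  | algebraMap m => exact h1 _ ((mem_MM D _).1 m.2)
  | add x y _ _ hx hy => rw [map_add, map_add, hx, hy]
  | mul x y _ _ hx hy => rw [map_mul, map_mul, hx, hy]

end Pool.Agent.H.MP_4c5958_al.SO
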