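import Pool.Agent.H.MP_4c5958_al.SO.Defs

/-!
# Module Fz: an element of trace one
-/

set_option autoImplicit false

noncomputable section

open Polynomial

namespace Pool.Agent.H.MP_4c5958_al.SO

universe u

variable {K E : Type u} [Field K] [Field E] [Algebra K E] (D : GD K E)

theorem Fz_s5 : D.σ ^ 5 = 1 := by
  have h := pow_orderOf_eq_one D.σ
  rwa [D.hσ] at h

theorem Fz_tr : D.τ ^ D.r = 1 := by
  have h := pow_orderOf_eq_one D.τ
  rwa [D.hτ] at h

theorem Fz_rpos : 0 < D.r := by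
  rcases D.hrk with h | h | h <;> omega

theorem Fz_surj : Function.Surjective
    (fun p : Fin D.r × Fin 5 => D.τ ^ (p.1 : ℕ) * D.σ ^ (p.2 : ℕ)) := by
  intro g
  obtain ⟨i, hi, j, hj, hg⟩ := D.gen g⁻¹
  refine ⟨(⟨(D.r - j) % D.r, Nat.mod_lt _ (Fz_rpos D)⟩,
    ⟨(5 - i) % 5, Nat.mod_lt _ (by norm_num)⟩), ?_⟩
  show D.τ ^ ((D.r - j) % D.r) * D.σ ^ ((5 - i) % 5) = g
  rw [← pow_eq_pow_mod (D.r - j) (Fz_tr D), ← pow_eq_pow_mod (5 - i) (Fz_s5 D)]
  have e1 : D.σ ^ (5 - i) * D.σ ^ i = 1 := by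
    rw [← pow_add, Nat.sub_add_cancel hi.le, Fz_s5]
  have e2 : D.τ ^ (D.r - j) * D.τ ^ j = 1 := by
    rw [← pow_add, Nat.sub_add_cancel hj.le, Fz_tr]
  rw [← mul_inv_eq_one, hg]
  calc D.τ ^ (D.r - j) * D.σ ^ (5 - i) * (D.σ ^ i * D.τ ^ j)
      = D.τ ^ (D.r - j) * (D.σ ^ (5 - i) * D.σ ^ i) * D.τ ^ j := by
        simp only [mul_assoc]
    _ = 1 := by rw [e1, mul_one, e2]

theorem Fz_sum (z : E) : ∑ j ∈ Finset.range D.r, (D.τ ^ j) (∑ i ∈ Finset.range 5, (D.σ ^ i) z) =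
    algebraMap K E (Algebra.trace K E z) := by
  have := D.fin
  have := D.gal
  have hb : Function.Bijective
      (fun p : Fin D.r × Fin 5 => D.τ ^ (p.1 : ℕ) * D.σ ^ (p.2 : ℕ)) := by
    rw [Fintype.bijective_iff_surjective_and_card]
    refine ⟨Fz_surj D, ?_⟩
    rw [← Nat.card_eq_fintype_card (α := E ≃ₐ[K] E), D.card, Fintype.card_prod, Fintype.card_fin,
      Fintype.card_fin, mul_comm]
  rw [trace_eq_sum_automorphisms, ← hb.sum_comp (fun g : E ≃ₐ[K] E => g z), Fintype.sum_prod_type,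
    Finset.sum_range]
  refine Finset.sum_congr rfl fun j _ => ?_
  rw [map_sum, Finset.sum_range]
  exact Finset.sum_congr rfl fun i _ => rfl

/-- An element of `M` whose sum of conjugates is one (take `∑ i, σ ^ i z` where `z` has trace one). -/
theorem exists_trace : ∃ e : E, D.σ e = e ∧ ∑ j ∈ Finset.range D.r, (D.τ ^ j) e = 1 := by
  have := D.fin
  have := D.gal
  obtain ⟨z, hz⟩ := Algebra.trace_surjective K E 1
  refine ⟨∑ i ∈ Finset.range 5, (D.σ ^ i) z, ?_, ?_⟩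
  · rw [map_sum]
    have h : ∀ i : ℕ, D.σ ((D.σ ^ i) z) = (D.σ ^ (i + 1)) z := fun i => by
      rw [pow_succ']
      rfl
    simp only [h]
    have h1 := Finset.sum_range_succ (fun i => (D.σ ^ i) z) 5
    have h2 := Finset.sum_range_succ' (fun i => (D.σ ^ i) z) 5
    rw [h1] at h2
    simp only [Fz_s5, pow_zero] at h2
    exact (add_right_cancel h2).symm
  · rw [Fz_sum, hz, map_one]

end Pool.Agent.H.MP_4c5958_al.SO
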