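import Pool.Agent.H.MP_4c5958_al.SO.Grp

/-!
# Module Gal: Galois data of a solvable polynomial of degree five

Apply `solvable_five` to `G = p.SplittingField ≃ₐ[K] p.SplittingField` acting on the roots of `p`
(`p.rootSet p.SplittingField`, which has five elements as `p` is separable and splits).
-/

set_option autoImplicit false

noncomputable section

open Polynomial

namespace Pool.Agent.H.MP_4c5958_al.SO

universe u

/-- The Galois group acts transitively on the roots. -/
theorem Gal_pretransitive {K : Type u} [Field K] (p : K[X]) (hirr : Irreducible p) :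
    MulAction.IsPretransitive p.Gal (p.rootSet p.SplittingField) := by
  refine ⟨fun x y => ?_⟩
  have hx := minpoly.eq_of_irreducible hirr (mem_rootSet.mp x.2).2
  have hy := minpoly.eq_of_irreducible hirr (mem_rootSet.mp y.2).2
  obtain ⟨g, hg⟩ := (Normal.minpoly_eq_iff_mem_orbit p.SplittingField).mp (hy.symm.trans hx)
  exact ⟨g, Subtype.ext hg⟩

/-- The Galois group acts faithfully on the roots. -/
theorem Gal_faithful {K : Type u} [Field K] (p : K[X]) :
    FaithfulSMul p.Gal (p.rootSet p.SplittingField) := by
  refine ⟨fun {g h} hgh => ?_⟩
  refine Polynomial.Gal.ext p fun x hx => ?_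
  exact congrArg Subtype.val (hgh ⟨x, hx⟩)

/-- Galois data of an irreducible separable polynomial of degree five with solvable group. -/
theorem exists_GD {K : Type u} [Field K] (p : K[X]) (hirr : Irreducible p)
    (hmon : p.Monic) (hdeg : p.natDegree = 5) (hsep : p.Separable) (hsol : Group.IsSolvable p.Gal) :
    ∃ D : GD K p.SplittingField, minpoly K D.θ = p ∧ Nat.card p.Gal = 5 * D.r := by
  have hX : Nat.card (p.rootSet p.SplittingField) = 5 := by
    rw [Nat.card_eq_fintype_card,
      Polynomial.card_rootSet_eq_natDegree hsep (SplittingField.splits p), hdeg]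
  have := Gal_pretransitive p hirr
  have := Gal_faithful p
  have : Finite p.Gal := inferInstance
  have hne : Nonempty (p.rootSet p.SplittingField) := by
    by_contra h
    have := not_nonempty_iff.1 h
    rw [Nat.card_of_isEmpty] at hX
    omega
  obtain ⟨a⟩ := hne
  obtain ⟨r, k, s, t, hrk, hs, ht, rel, ta, sa, gen, card⟩ := solvable_five hX hsol a
  have hmin : minpoly K (a : p.SplittingField) = p :=
    (minpoly.eq_of_irreducible_of_monic hirr (mem_rootSet.mp a.2).2 hmon).symm
  refine ⟨{ r := r, k := k, σ := s, τ := t, θ := (a : p.SplittingField), hrk := hrk, hσ := hs,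
            hτ := ht, rel := rel, τθ := congrArg Subtype.val ta,
            σθ := fun h => sa (Subtype.ext h), gen := gen,
            fin := Polynomial.IsSplittingField.finiteDimensional _ p,
            gal := IsGalois.of_separable_splitting_field hsep,
            deg := by rw [hmin, hdeg], card := card }, hmin, card⟩

end Pool.Agent.H.MP_4c5958_al.SO
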