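import Mathlib

/-!
# Module GrA: the normal subgroup of order five

`G` is a finite solvable group acting faithfully and transitively on a type with five elements.
Let `N` be the last nontrivial term of the derived series; it is normal and abelian; a
nontrivial normal subgroup of a transitive faithful group of prime degree is transitive (all its
orbits have the same number of elements, a divisor of five, and not one by faithfulness), so
`5 ∣ card N`; an abelian transitive faithful group is regular (an element of the abelian transitive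
`N`, or any element commuting with `N`, that fixes one point fixes all points), so `card N = 5`,
`N = ⟨s⟩`, and an element `g` commuting with `s` is in `N`: choose `n ∈ N` with `n • a = g • a`, then
`n⁻¹ g` commutes with `N` and fixes `a`, so it is `1`.
-/

set_option autoImplicit false

noncomputable section

namespace Pool.Agent.H.MP_4c5958_al.SO

/-- The last nontrivial term of the derived series. -/
private theorem GrA_last {G : Type*} [Group G] [Nontrivial G] (hG : Group.IsSolvable G) :
    ∃ N : Subgroup G, N.Normal ∧ N ≠ ⊥ ∧ ∀ a ∈ N, ∀ b ∈ N, a * b = b * a := by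
  classical
  have h0 : ∃ n, derivedSeries G n = ⊥ := by
    obtain ⟨n, hn⟩ := hG
    exact ⟨n, hn⟩
  have hk := Nat.find_spec h0
  have hpos : Nat.find h0 ≠ 0 := by
    intro hz
    rw [hz, derivedSeries_zero] at hk
    exact top_ne_bot hk
  obtain ⟨k, hk1⟩ := Nat.exists_eq_succ_of_ne_zero hpos
  rw [hk1, Nat.succ_eq_add_one, derivedSeries_succ,
    Subgroup.commutator_eq_bot_iff_le_centralizer] at hk
  refine ⟨derivedSeries G k, derivedSeries_normal _ _, Nat.find_min h0 (by omega), ?_⟩
  intro a ha b hb
  exact ((Subgroup.mem_centralizer_iff.mp (hk ha)) b hb).symm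

/-- A nontrivial normal subgroup of a faithful transitive group of prime degree is transitive. -/
private theorem GrA_trans {G X : Type*} [Group G] [MulAction G X] [FaithfulSMul G X]
    [MulAction.IsPretransitive G X] (hX : Nat.card X = 5) (N : Subgroup G) (hN : N.Normal)
    (hN1 : N ≠ ⊥) (a x : X) : ∃ n ∈ N, n • a = x := by
  have hfin : Finite X := Nat.finite_of_card_ne_zero (by omega)
  have hB : MulAction.IsBlock G (MulAction.orbit N a) := MulAction.IsBlock.orbit_of_normal a
  have hne : (MulAction.orbit N a).Nonempty := ⟨a, MulAction.mem_orbit_self a⟩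
  have hd := hB.ncard_dvd_card hne
  rw [hX] at hd
  rcases (Nat.dvd_prime (by norm_num)).mp hd with h1 | h5
  · exfalso
    apply hN1
    rw [eq_bot_iff]
    intro n hn
    rw [Subgroup.mem_bot]
    refine FaithfulSMul.eq_of_smul_eq_smul (α := X) fun y => ?_
    rw [one_smul]
    obtain ⟨g, rfl⟩ := MulAction.exists_smul_eq G a y
    -- `g⁻¹ n g` fixes `a`
    have hm : g⁻¹ * n * g ∈ N := by
      have := hN.conj_mem n hn g⁻¹
      rwa [inv_inv] at this
    obtain ⟨b, hb⟩ := Set.ncard_eq_one.mp h1
    have ha : a ∈ MulAction.orbit N a := MulAction.mem_orbit_self a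
    have ha2 : (g⁻¹ * n * g) • a ∈ MulAction.orbit N a := ⟨⟨g⁻¹ * n * g, hm⟩, rfl⟩
    rw [hb, Set.mem_singleton_iff] at ha ha2
    have h3 : (g⁻¹ * n * g) • a = a := by rw [ha2, ← ha]
    calc n • g • a = g • ((g⁻¹ * n * g) • a) := by
          simp only [← mul_smul]
          congr 1
          group
      _ = g • a := by rw [h3]
  · have huniv : MulAction.orbit N a = Set.univ := by
      rw [← hX] at h5
      exact (Set.eq_univ_iff_ncard _).mpr h5
    have hx : x ∈ MulAction.orbit N a := by rw [huniv]; exact Set.mem_univ x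
    obtain ⟨n, hn⟩ := hx
    exact ⟨n.1, n.2, hn⟩

theorem exists_normal_five {G X : Type*} [Group G] [Finite G] [MulAction G X] [FaithfulSMul G X]
    [MulAction.IsPretransitive G X] (hX : Nat.card X = 5) (hG : Group.IsSolvable G) :
    ∃ s : G, orderOf s = 5 ∧ (Subgroup.zpowers s).Normal ∧
      ∀ g : G, g * s = s * g → g ∈ Subgroup.zpowers s := by
  have hfin : Finite X := Nat.finite_of_card_ne_zero (by omega)
  have hnt : Nontrivial X := by
    rw [← Finite.one_lt_card_iff_nontrivial]
    omega
  obtain ⟨a, b, hab⟩ := exists_pair_ne X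
  have hntG : Nontrivial G := by
    obtain ⟨g, hg⟩ := MulAction.exists_smul_eq G a b
    refine ⟨g, 1, fun h => hab ?_⟩
    rw [h, one_smul] at hg
    exact hg
  obtain ⟨N, hN, hN1, hcomm⟩ := GrA_last hG
  have htr := GrA_trans hX N hN hN1 a
  -- an element commuting with `N` which fixes `a` is one
  have hfix : ∀ g : G, (∀ n ∈ N, g * n = n * g) → g • a = a → g = 1 := by
    intro g hg hga
    refine FaithfulSMul.eq_of_smul_eq_smul (α := X) fun y => ?_
    obtain ⟨n, hn, rfl⟩ := htr y
    rw [one_smul, ← mul_smul, hg n hn, mul_smul, hga]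
  -- `N` is regular
  have hbij : Function.Bijective (fun n : N => (n : G) • a) := by
    constructor
    · intro n m hnm
      have h1 : ((m : G)⁻¹ * n) • a = a := by
        have : (n : G) • a = (m : G) • a := hnm
        rw [mul_smul, this, inv_smul_smul]
      have h2 := hfix ((m : G)⁻¹ * n)
        (fun k hk => hcomm _ (N.mul_mem (N.inv_mem m.2) n.2) _ hk) h1
      exact Subtype.ext (inv_mul_eq_one.mp h2).symm
    · intro y
      obtain ⟨n, hn, h⟩ := htr y
      exact ⟨⟨n, hn⟩, h⟩
  have hcard : Nat.card N = 5 := by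
    rw [← hX]
    exact Nat.card_eq_of_bijective _ hbij
  obtain ⟨s, hs, hs1⟩ := (Subgroup.ne_bot_iff_exists_ne_one.mp hN1 : ∃ s : N, s ≠ 1) |>.imp
    (fun s h => h) |> fun ⟨s, h⟩ => (⟨s.1, s.2, fun h' => h (Subtype.ext h')⟩ :
      ∃ s : G, s ∈ N ∧ s ≠ 1)
  have hle : Subgroup.zpowers s ≤ N := Subgroup.zpowers_le.mpr hs
  have hord : orderOf s = 5 := by
    have h1 : Nat.card (Subgroup.zpowers s) ∣ Nat.card N := Subgroup.card_dvd_of_le hle
    rw [hcard, Nat.card_zpowers] at h1
    rcases (Nat.dvd_prime (by norm_num)).mp h1 with h | h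
    · exact absurd (orderOf_eq_one_iff.mp h) hs1
    · exact h
  have heq : Subgroup.zpowers s = N := by
    refine Subgroup.eq_of_le_of_card_ge hle ?_
    rw [hcard, Nat.card_zpowers, hord]
  refine ⟨s, hord, by rw [heq]; exact hN, ?_⟩
  intro g hg
  have hgc : ∀ n ∈ N, g * n = n * g := by
    intro n hn
    rw [← heq, Subgroup.mem_zpowers_iff] at hn
    obtain ⟨k, rfl⟩ := hn
    exact (Commute.zpow_right (show Commute g s from hg) k)
  rw [heq]
  obtain ⟨n, hn, hna⟩ := htr (g • a)
  have h1 : (n⁻¹ * g) • a = a := by rw [mul_smul, ← hna, inv_smul_smul]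
  have h2 := hfix (n⁻¹ * g) (fun k hk => by
    have e1 := hgc k hk
    have e2 := hcomm n⁻¹ (N.inv_mem hn) k hk
    rw [mul_assoc, e1, ← mul_assoc, e2, mul_assoc]) h1
  have h3 : n = g := inv_mul_eq_one.mp h2
  rw [← h3]
  exact hn

end Pool.Agent.H.MP_4c5958_al.SO
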