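import Pool.Agent.H.MP_4c5958_al.SO.Defs
import Pool.Agent.H.MP_4c5958_al.SO.GrA

/-!
# Module Grp: solvable transitive groups of degree five

Take `s` from `exists_normal_five`. `s • a ≠ a` (the points fixed by `⟨s⟩` form a `G`-stable set, so
all points would be fixed, but the action is faithful). The stabilizer `H` of `a` meets `⟨s⟩`
trivially, `card G = 5 * card H` (orbit-stabilizer), and `H` acts faithfully on `⟨s⟩` by conjugation,
so `H` embeds in `(ZMod 5)ˣ`, cyclic of order four (for example `h s h⁻¹ = s ^ k(h)`, `k(h) ∈ {1,2,3,4}`,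
`k` injective and multiplicative modulo 5). Hence `H = ⟨t⟩` and `t s t⁻¹ = s ^ k`
where `k` has order `r = card H` in `(ZMod 5)ˣ`; if `r = 4` and `k = 3` replace `t` by `t⁻¹`. Every
`g` is `s ^ i * t ^ j`: choose `i` with `s ^ i • a = g • a` (`⟨s⟩` is transitive: the five
points `s ^ i • a` are distinct).
-/

set_option autoImplicit false

noncomputable section

namespace Pool.Agent.H.MP_4c5958_al.SO

private theorem Grp_ar2 : ∀ k < 5, k ^ 2 % 5 = 1 → k % 5 ≠ 1 → k = 4 := by decide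

private theorem Grp_ar4 : ∀ k < 5, k ^ 4 % 5 = 1 → k % 5 ≠ 1 → k ^ 2 % 5 ≠ 1 →
    k = 2 ∨ k = 3 := by decide

private theorem Grp_ar {r : ℕ} (h : r ∣ 4) : r = 1 ∨ r = 2 ∨ r = 4 := by
  have h1 : r ≤ 4 := Nat.le_of_dvd (by norm_num) h
  interval_cases r <;> omega

private theorem Grp_mem {G : Type*} [Group G] [Finite G] {x y : G}
    (h : y ∈ Subgroup.zpowers x) : ∃ i < orderOf x, y = x ^ i := by
  classical
  obtain ⟨i, hi, he⟩ := Finset.mem_image.1 (mem_zpowers_iff_mem_range_orderOf.1 h)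
  exact ⟨i, Finset.mem_range.1 hi, he.symm⟩

private theorem Grp_dvd {G X : Type*} [Group G] [MulAction G X] {s : G} {a : X}
    (hs : orderOf s = 5) (ha : s • a ≠ a) {m : ℕ} (h : s ^ m • a = a) : 5 ∣ m := by
  by_contra hm
  have hc : Nat.Coprime m (orderOf s) := by
    rw [hs]
    exact ((Nat.Prime.coprime_iff_not_dvd Nat.prime_five).2 hm).symm
  obtain ⟨k, hk⟩ := exists_pow_eq_self_of_coprime hc
  apply ha
  have h1 : (s ^ m) ^ k ∈ MulAction.stabilizer G a := pow_mem (MulAction.mem_stabilizer_iff.2 h) k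
  rw [hk] at h1
  exact MulAction.mem_stabilizer_iff.1 h1

private theorem Grp_surj {G X : Type*} [Group G] [MulAction G X] (hX : Nat.card X = 5) {s : G}
    {a : X} (hs : orderOf s = 5) (ha : s • a ≠ a) (x : X) : ∃ i < 5, s ^ i • a = x := by
  have : Finite X := Nat.finite_of_card_ne_zero (by rw [hX]; norm_num)
  have key : ∀ i j : ℕ, i ≤ j → j < 5 → s ^ i • a = s ^ j • a → i = j := by
    intro i j hij hj h
    obtain ⟨d, rfl⟩ := Nat.exists_eq_add_of_le hij
    rw [pow_add, mul_smul] at h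
    have h1 := Grp_dvd hs ha (smul_left_cancel _ h).symm
    omega
  have hinj : Function.Injective (fun i : Fin 5 => s ^ (i : ℕ) • a) := by
    intro i j h
    apply Fin.ext
    rcases le_total (i : ℕ) j with h1 | h1
    · exact key i j h1 j.2 h
    · exact (key j i h1 i.2 h.symm).symm
  obtain ⟨i, hi⟩ := (hinj.bijective_of_nat_card_le (by rw [hX, Nat.card_fin])).2 x
  exact ⟨i, i.2, hi⟩

private theorem Grp_conj {G : Type*} [Group G] {s t : G} {k : ℕ} (h : t * s * t⁻¹ = s ^ k)
    (j : ℕ) : t ^ j * s * (t ^ j)⁻¹ = s ^ (k ^ j) := by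
  induction j with
  | zero => simp
  | succ j ih =>
    have h1 : t ^ (j + 1) * s * (t ^ (j + 1))⁻¹ = t * (t ^ j * s * (t ^ j)⁻¹) * t⁻¹ := by
      rw [pow_succ']
      group
    rw [h1, ih, ← conj_pow, h, ← pow_mul]
    congr 1
    ring

/-- The structure of solvable transitive groups of degree five. -/
theorem solvable_five {G X : Type*} [Group G] [Finite G] [MulAction G X] [FaithfulSMul G X]
    [MulAction.IsPretransitive G X] (hX : Nat.card X = 5) (hG : Group.IsSolvable G) (a : X) :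
    ∃ (r k : ℕ) (s t : G), ((r = 1 ∧ k = 1) ∨ (r = 2 ∧ k = 4) ∨ (r = 4 ∧ k = 2)) ∧
      orderOf s = 5 ∧ orderOf t = r ∧ t * s = s ^ k * t ∧ t • a = a ∧ s • a ≠ a ∧
      (∀ g : G, ∃ i < 5, ∃ j < r, g = s ^ i * t ^ j) ∧ Nat.card G = 5 * r := by
  obtain ⟨s, hs, hN, hcent⟩ := exists_normal_five (G := G) hX hG
  have hs1 : s ≠ 1 := by
    rintro rfl
    rw [orderOf_one] at hs
    omega
  have ha : s • a ≠ a := by
    intro h
    apply hs1
    refine FaithfulSMul.eq_of_smul_eq_smul (α := X) fun x => ?_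
    obtain ⟨g, rfl⟩ := MulAction.exists_smul_eq G a x
    rw [one_smul]
    have h1 : g⁻¹ * s * g ∈ Subgroup.zpowers s := by
      have h3 := hN.conj_mem s (Subgroup.mem_zpowers s) g⁻¹
      rwa [inv_inv] at h3
    obtain ⟨m, -, hm⟩ := Grp_mem h1
    have h2 : s ^ m • a = a :=
      MulAction.mem_stabilizer_iff.1 (pow_mem (MulAction.mem_stabilizer_iff.2 h) m)
    calc s • g • a = g • (g⁻¹ * s * g) • a := by
          rw [smul_smul, smul_smul]
          congr 1
          group
      _ = g • a := by rw [hm, h2]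
  have htriv : ∀ y ∈ Subgroup.zpowers s, y • a = a → y = 1 := by
    intro y hy hya
    obtain ⟨i, hi, rfl⟩ := Grp_mem hy
    have h1 := Grp_dvd hs ha hya
    rw [hs] at hi
    have h2 : i = 0 := by omega
    rw [h2, pow_zero]
  have hcard : Nat.card G = 5 * Nat.card (MulAction.stabilizer G a) := by
    rw [← Subgroup.card_mul_index (MulAction.stabilizer G a),
      MulAction.index_stabilizer_of_transitive, hX, mul_comm]
  have fin : ∀ (r k : ℕ) (t : G), ((r = 1 ∧ k = 1) ∨ (r = 2 ∧ k = 4) ∨ (r = 4 ∧ k = 2)) →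
      orderOf t = r → t • a = a → (∀ h : G, h • a = a → h ∈ Subgroup.zpowers t) →
      t * s * t⁻¹ = s ^ k → Nat.card G = 5 * r →
      ∃ (r k : ℕ) (s t : G), ((r = 1 ∧ k = 1) ∨ (r = 2 ∧ k = 4) ∨ (r = 4 ∧ k = 2)) ∧
      orderOf s = 5 ∧ orderOf t = r ∧ t * s = s ^ k * t ∧ t • a = a ∧ s • a ≠ a ∧
      (∀ g : G, ∃ i < 5, ∃ j < r, g = s ^ i * t ^ j) ∧ Nat.card G = 5 * r := by
    intro r k t hrk ht hta hgen hconj hc
    refine ⟨r, k, s, t, hrk, hs, ht, ?_, hta, ha, ?_, hc⟩
    · rw [← hconj, inv_mul_cancel_right]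
    · intro g
      obtain ⟨i, hi, hig⟩ := Grp_surj hX hs ha (g • a)
      have h1 : ((s ^ i)⁻¹ * g) • a = a := by
        rw [mul_smul, ← hig, inv_smul_smul]
      obtain ⟨j, hj, hjt⟩ := Grp_mem (hgen _ h1)
      refine ⟨i, hi, j, by rwa [ht] at hj, ?_⟩
      rw [← hjt, mul_inv_cancel_left]
  have hzc : Nat.card (Subgroup.zpowers s) = 5 := by rw [Nat.card_zpowers, hs]
  have hinj : Function.Injective ((MulAut.conjNormal (H := Subgroup.zpowers s)).comp
      (MulAction.stabilizer G a).subtype) := by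
    rw [injective_iff_map_eq_one]
    intro h hh
    have h1 := congrArg (fun f : MulAut (Subgroup.zpowers s) =>
      ((f ⟨s, Subgroup.mem_zpowers s⟩ : Subgroup.zpowers s) : G)) hh
    have h2 : (h : G) * s * (h : G)⁻¹ = s := by
      have h3 := MulAut.conjNormal_apply (H := Subgroup.zpowers s) (h : G)
        ⟨s, Subgroup.mem_zpowers s⟩
      exact h3.symm.trans h1
    have h4 : (h : G) * s = s * h := by
      rw [← eq_mul_inv_iff_mul_eq] at h2
      rw [h2]
      group
    exact Subtype.ext (htriv _ (hcent _ h4) (MulAction.mem_stabilizer_iff.1 h.2))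
  have hU : IsCyclic (ZMod (Nat.card (Subgroup.zpowers s)))ˣ := by
    rw [hzc]
    exact ZMod.isCyclic_units_prime Nat.prime_five
  have hUc : Nat.card (ZMod (Nat.card (Subgroup.zpowers s)))ˣ = 4 := by
    rw [hzc, Nat.card_eq_fintype_card, ZMod.card_units_eq_totient]
    decide
  have hψ : Function.Injective ((IsCyclic.mulAutMulEquiv (Subgroup.zpowers s)).toMonoidHom.comp
      ((MulAut.conjNormal (H := Subgroup.zpowers s)).comp
      (MulAction.stabilizer G a).subtype)) :=
    (IsCyclic.mulAutMulEquiv (Subgroup.zpowers s)).injective.comp hinj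
  have hcyc : IsCyclic (MulAction.stabilizer G a) := isCyclic_of_injective _ hψ
  have hdvd : Nat.card (MulAction.stabilizer G a) ∣ 4 := by
    rw [← hUc]
    exact Subgroup.card_dvd_of_injective _ hψ
  obtain ⟨t, ht⟩ := hcyc.exists_generator
  have hto : orderOf (t : G) = Nat.card (MulAction.stabilizer G a) := by
    rw [Subgroup.orderOf_coe]
    exact orderOf_eq_card_of_forall_mem_zpowers ht
  have hta : (t : G) • a = a := MulAction.mem_stabilizer_iff.1 t.2
  have hgen : ∀ h : G, h • a = a → h ∈ Subgroup.zpowers (t : G) := by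
    intro h hh
    obtain ⟨m, hm⟩ := Subgroup.mem_zpowers_iff.1 (ht ⟨h, MulAction.mem_stabilizer_iff.2 hh⟩)
    refine Subgroup.mem_zpowers_iff.2 ⟨m, ?_⟩
    exact congrArg Subtype.val hm
  obtain ⟨k, hk5, hk⟩ := Grp_mem (hN.conj_mem s (Subgroup.mem_zpowers s) (t : G))
  rw [hs] at hk5
  rw [← hto] at hdvd hcard
  have hA : k ^ orderOf (t : G) ≡ 1 [MOD 5] := by
    have h1 := Grp_conj hk (orderOf (t : G))
    rw [pow_orderOf_eq_one, one_mul, inv_one, mul_one] at h1
    have h2 : s ^ (k ^ orderOf (t : G)) = s ^ 1 := by rw [← h1, pow_one]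
    have h3 := pow_eq_pow_iff_modEq.1 h2
    rwa [hs] at h3
  have hB : ∀ j : ℕ, k ^ j ≡ 1 [MOD 5] → orderOf (t : G) ∣ j := by
    intro j hj
    have h1 := Grp_conj hk j
    have h2 : s ^ (k ^ j) = s := by
      have h3 : s ^ (k ^ j) = s ^ 1 := pow_eq_pow_iff_modEq.2 (by rw [hs]; exact hj)
      rw [h3, pow_one]
    rw [h2] at h1
    have h4 : (t : G) ^ j * s = s * (t : G) ^ j := by
      rw [← eq_mul_inv_iff_mul_eq] at h1
      rw [h1]
      group
    exact orderOf_dvd_of_pow_eq_one (htriv _ (hcent _ h4)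
      (MulAction.mem_stabilizer_iff.1 (pow_mem (MulAction.mem_stabilizer_iff.2 hta) j)))
  rcases Grp_ar hdvd with hr | hr | hr
  · rw [hr] at hA
    have h1 : k = 1 := by
      unfold Nat.ModEq at hA
      rw [pow_one] at hA
      omega
    exact fin 1 1 t (Or.inl ⟨rfl, rfl⟩) hr hta hgen (by rw [hk, h1]) (by rw [hcard, hr])
  · rw [hr] at hA hB
    have h1 : k = 4 := by
      refine Grp_ar2 k hk5 hA fun h2 => ?_
      have h3 := hB 1 (by rw [pow_one]; exact h2)
      omega
    exact fin 2 4 t (Or.inr (Or.inl ⟨rfl, rfl⟩)) hr hta hgen (by rw [hk, h1]) (by rw [hcard, hr])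
  · rw [hr] at hA hB
    have h1 : k = 2 ∨ k = 3 := by
      refine Grp_ar4 k hk5 hA (fun h2 => ?_) fun h2 => ?_
      · have h3 := hB 1 (by rw [pow_one]; exact h2)
        omega
      · have h3 := hB 2 h2
        omega
    rcases h1 with h1 | h1
    · exact fin 4 2 t (Or.inr (Or.inr ⟨rfl, rfl⟩)) hr hta hgen (by rw [hk, h1])
        (by rw [hcard, hr])
    · refine fin 4 2 (t : G)⁻¹ (Or.inr (Or.inr ⟨rfl, rfl⟩)) (by rw [orderOf_inv, hr]) ?_ ?_ ?_
        (by rw [hcard, hr])
      · rw [inv_smul_eq_iff, hta]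
      · intro h hh
        rw [Subgroup.zpowers_inv]
        exact hgen h hh
      · rw [h1] at hk
        have h4 : (t : G) * s ^ 2 * (t : G)⁻¹ = s := by
          rw [← conj_pow, hk, ← pow_mul]
          have h5 : s ^ (3 * 2) = s ^ 1 := pow_eq_pow_iff_modEq.2 (by rw [hs]; rfl)
          rw [h5, pow_one]
        have h6 : (t : G)⁻¹ * ((t : G) * s ^ 2 * (t : G)⁻¹) * (t : G) = s ^ 2 := by group
        rw [inv_inv]
        rwa [h4] at h6

end Pool.Agent.H.MP_4c5958_al.SO
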