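import Mathlib

/-!
# Module H90: Hilbert 90 for one automorphism

Take `q = ∑ i < n, (∏ j < i, g ^ j w)⁻¹ ... ` (choose the signs so that `w * q = g q`), nonzero for
a suitable argument by the linear independence of the distinct `g ^ i`, `i < n`
(`linearIndependent_monoidHom`), or use Mathlib's Hilbert 90 over the fixed field.
-/

set_option autoImplicit false

noncomputable section

namespace Pool.Agent.H.MP_4c5958_al.SO

universe u

theorem h90 {K E : Type u} [Field K] [Field E] [Algebra K E] (g : E ≃ₐ[K] E) {n : ℕ} (hn : 0 < n)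
    (hg : orderOf g = n) (w : E) (hw : ∏ i ∈ Finset.range n, (g ^ i) w = 1) :
    ∃ q : E, q ≠ 0 ∧ w * q = g q := by
  have hP0 : ∏ j ∈ Finset.range 0, (g ^ j) w = 1 := Finset.prod_range_zero _
  have hPs : ∀ i : ℕ, w * g (∏ j ∈ Finset.range i, (g ^ j) w) =
      ∏ j ∈ Finset.range (i + 1), (g ^ j) w := by
    intro i
    rw [map_prod, Finset.prod_range_succ', pow_zero, AlgEquiv.one_apply, mul_comm]
    congr 1
    refine Finset.prod_congr rfl fun j _ => ?_
    rw [pow_succ', AlgEquiv.mul_apply]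
  have hgn : g ^ n = 1 := by
    rw [← hg]
    exact pow_orderOf_eq_one g
  have hw0 : w ≠ 0 := by
    intro h0
    rw [h0] at hw
    have h1 : ∏ i ∈ Finset.range n, (g ^ i) (0 : E) = 0 :=
      Finset.prod_eq_zero (Finset.mem_range.2 hn) (map_zero _)
    rw [h1] at hw
    exact zero_ne_one hw
  have hq : ∀ x : E, w * g (∑ i ∈ Finset.range n, (∏ j ∈ Finset.range i, (g ^ j) w) * (g ^ i) x) =
      ∑ i ∈ Finset.range n, (∏ j ∈ Finset.range i, (g ^ j) w) * (g ^ i) x := by
    intro x
    rw [map_sum, Finset.mul_sum]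
    have h1 : ∀ i ∈ Finset.range n, w * g ((∏ j ∈ Finset.range i, (g ^ j) w) * (g ^ i) x) =
        (∏ j ∈ Finset.range (i + 1), (g ^ j) w) * (g ^ (i + 1)) x := by
      intro i _
      rw [map_mul, ← mul_assoc, hPs, pow_succ', AlgEquiv.mul_apply]
    rw [Finset.sum_congr rfl h1]
    have h2 := Finset.sum_range_succ'
      (fun i => (∏ j ∈ Finset.range i, (g ^ j) w) * (g ^ i) x) n
    rw [Finset.sum_range_succ] at h2
    have h3 : (∏ j ∈ Finset.range n, (g ^ j) w) * (g ^ n) x =
        (∏ j ∈ Finset.range 0, (g ^ j) w) * (g ^ 0) x := by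
      rw [hw, hgn, hP0, pow_zero]
    rw [h3] at h2
    exact (add_right_cancel h2).symm
  obtain ⟨x, hx⟩ : ∃ x : E,
      ∑ i ∈ Finset.range n, (∏ j ∈ Finset.range i, (g ^ j) w) * (g ^ i) x ≠ 0 := by
    by_contra hcon
    have hcon' : ∀ x : E,
        ∑ i ∈ Finset.range n, (∏ j ∈ Finset.range i, (g ^ j) w) * (g ^ i) x = 0 := fun x => by
      by_contra h1
      exact hcon ⟨x, h1⟩
    have hinj : Function.Injective
        (fun i : Fin n => ((g ^ (i : ℕ) : E ≃ₐ[K] E) : E →* E)) := by
      intro i j hij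
      have h1 : g ^ (i : ℕ) = g ^ (j : ℕ) := by
        ext y
        exact DFunLike.congr_fun hij y
      have h2 : (i : ℕ) < orderOf g := by
        rw [hg]
        exact i.2
      have h3 : (j : ℕ) < orderOf g := by
        rw [hg]
        exact j.2
      exact Fin.ext (pow_injOn_Iio_orderOf h2 h3 h1)
    have hli := (linearIndependent_monoidHom E E).comp _ hinj
    rw [Fintype.linearIndependent_iff] at hli
    have h1 := hli (fun i => ∏ j ∈ Finset.range (i : ℕ), (g ^ j) w) (by
      funext y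
      rw [Finset.sum_apply]
      have h2 := hcon' y
      rw [← Fin.sum_univ_eq_sum_range
        (fun i => (∏ j ∈ Finset.range i, (g ^ j) w) * (g ^ i) y) n] at h2
      exact h2) ⟨0, hn⟩
    exact one_ne_zero (hP0.symm.trans h1)
  refine ⟨(∑ i ∈ Finset.range n, (∏ j ∈ Finset.range i, (g ^ j) w) * (g ^ i) x)⁻¹,
    inv_ne_zero hx, ?_⟩
  have h1 := hq x
  generalize ∑ i ∈ Finset.range n, (∏ j ∈ Finset.range i, (g ^ j) w) * (g ^ i) x = q at h1 hx
  have hgq : g q ≠ 0 := by
    intro h0
    exact hx ((map_eq_zero g).1 h0)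
  rw [map_inv₀]
  rw [← h1, mul_inv, h1, ← mul_assoc, mul_inv_cancel₀ hw0, one_mul]

end Pool.Agent.H.MP_4c5958_al.SO
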