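import Pool.Agent.H.MP_4c5958_al.SO.Cde
import Pool.Agent.H.MP_4c5958_al.SO.Cdp
import Pool.Agent.H.MP_4c5958_al.SO.H90

/-!
# Module RfA: the case `r = 4`, first step

Let `u` be as in `exists_u`, `u ^ 5 = ι b`, `T u = ι c * u ^ 2` (`k = 2`), `N(e) = ∏ σ ^ i e`. Taking
fifth powers (`pow_five'`), `τ b = N(c) b ^ 2`, so
`τ ^ 2 b = N(τ c) N(c) ^ 2 b ^ 4 = N(τ(c) c ^ 2) b ^ 4`
(`τ (N e) = N (τ e)` because `τ σ ^ i = σ ^ (2 i) τ`). Put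
`β = (b / τ ^ 2 b) ^ 3 = b N(e)`, `e = b⁻¹ ^ 2 * (τ(c) c ^ 2)⁻¹ ^ 3` (as `b ^ 5 = N(b)`); then
`σ β = β`, `τ ^ 2 β = β⁻¹` (`τ ^ 4 = 1`) and
`β ^ 3 / τ β = b ^ 3 N(e) ^ 3 / (b ^ 2 N(c) N(τ e)) = b N(e')`, `e' = e ^ 3 / (c τ(e))`. Put
`v = ι e' * u`: `v ^ 5 = ι (β ^ 3 / τ β)` and `T v = ι c' * v ^ 2` for some `c'` (`exists_c` for `v`).
-/

set_option autoImplicit false

noncomputable section

namespace Pool.Agent.H.MP_4c5958_al.SO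

universe u

variable {K E A B : Type u} [Field K] [Field E] [Algebra K E] {D : GD K E} [Ring A]
    [Algebra K A] [DivisionRing B] [Algebra K B] (P : AD D A B)

theorem RfA_k (D : GD K E) (hr : D.r = 4) : D.k = 2 := by
  rcases D.hrk with ⟨h, _⟩ | ⟨h, _⟩ | ⟨_, h⟩
  · omega
  · omega
  · exact h

theorem RfA_s5 (D : GD K E) : D.σ ^ 5 = 1 := by
  rw [← D.hσ]
  exact pow_orderOf_eq_one _

theorem RfA_t4 (D : GD K E) (hr : D.r = 4) : D.τ ^ 4 = 1 := by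
  rw [← hr, ← D.hτ]
  exact pow_orderOf_eq_one _

theorem RfA_comm (D : GD K E) (hr : D.r = 4) (x : E) :
    D.τ (D.σ x) = (D.σ ^ 2) (D.τ x) := by
  have h := D.rel
  rw [RfA_k D hr] at h
  exact DFunLike.congr_fun h x

theorem RfA_comm2 (D : GD K E) (hr : D.r = 4) (i : ℕ) (x : E) :
    D.τ ((D.σ ^ i) x) = (D.σ ^ (2 * i)) (D.τ x) := by
  induction i with
  | zero => simp
  | succ i ih =>
    rw [pow_succ', AlgEquiv.mul_apply, RfA_comm D hr, ih, ← AlgEquiv.mul_apply, ← pow_add,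
      show 2 + 2 * i = 2 * (i + 1) by ring]

/-- If `σ` fixes `x` then it fixes `τ x`. -/
theorem RfA_fix (D : GD K E) (hr : D.r = 4) {x : E} (hx : D.σ x = x) :
    D.σ (D.τ x) = D.τ x := by
  have h1 : (D.σ ^ 2) (D.τ x) = D.τ x := by
    rw [← RfA_comm D hr, hx]
  have h2 : (D.σ ^ 6) (D.τ x) = D.τ x := by
    rw [show 6 = 2 + (2 + 2) from rfl, pow_add, pow_add, AlgEquiv.mul_apply, AlgEquiv.mul_apply,
      h1, h1, h1]
  have h3 : D.σ ^ 6 = D.σ := by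
    rw [show 6 = 5 + 1 from rfl, pow_add, RfA_s5, one_mul, pow_one]
  rwa [h3] at h2

/-- The product of the conjugates of `x` under `σ`. -/
def RfA_N (D : GD K E) (x : E) : E := ∏ i ∈ Finset.range 5, (D.σ ^ i) x

theorem RfA_N_mul (D : GD K E) (x y : E) : RfA_N D (x * y) = RfA_N D x * RfA_N D y := by
  unfold RfA_N
  rw [← Finset.prod_mul_distrib]
  exact Finset.prod_congr rfl fun i _ => map_mul _ _ _

theorem RfA_N_pow (D : GD K E) (x : E) (m : ℕ) : RfA_N D (x ^ m) = RfA_N D x ^ m := by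
  unfold RfA_N
  rw [← Finset.prod_pow]
  exact Finset.prod_congr rfl fun i _ => map_pow _ _ _

theorem RfA_N_inv (D : GD K E) (x : E) : RfA_N D x⁻¹ = (RfA_N D x)⁻¹ := by
  unfold RfA_N
  rw [← Finset.prod_inv_distrib]
  exact Finset.prod_congr rfl fun i _ => map_inv₀ _ _

theorem RfA_N_ne (D : GD K E) {x : E} (hx : x ≠ 0) : RfA_N D x ≠ 0 := by
  unfold RfA_N
  refine Finset.prod_ne_zero_iff.2 fun i _ h => hx ?_
  exact (map_eq_zero_iff _ (D.σ ^ i).injective).1 h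

theorem RfA_N_fix (D : GD K E) {x : E} (hx : D.σ x = x) : RfA_N D x = x ^ 5 := by
  have h1 : ∀ i : ℕ, (D.σ ^ i) x = x := by
    intro i
    induction i with
    | zero => simp
    | succ i ih => rw [pow_succ, AlgEquiv.mul_apply, hx, ih]
  unfold RfA_N
  simp only [h1, Finset.prod_const, Finset.card_range]

theorem RfA_N_tau (D : GD K E) (hr : D.r = 4) (x : E) :
    D.τ (RfA_N D x) = RfA_N D (D.τ x) := by
  unfold RfA_N
  rw [map_prod]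
  simp only [RfA_comm2 D hr, Finset.prod_range_succ, Finset.prod_range_zero, one_mul]
  have h6 : D.σ ^ (2 * 3) = D.σ ^ 1 := by
    rw [show 2 * 3 = 5 + 1 from rfl, pow_add, RfA_s5, one_mul]
  have h8 : D.σ ^ (2 * 4) = D.σ ^ 3 := by
    rw [show 2 * 4 = 5 + 3 from rfl, pow_add, RfA_s5, one_mul]
  rw [h6, h8, show 2 * 0 = 0 from rfl, show 2 * 1 = 2 from rfl, show 2 * 2 = 4 from rfl]
  ring

theorem four_one (hr : D.r = 4) {u : B} (hu0 : u ≠ 0)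
    (hu : ∀ e, u * P.ι e = P.ι (D.σ e) * u) :
    ∃ (v : B) (β c : E), v ≠ 0 ∧ (∀ e, v * P.ι e = P.ι (D.σ e) * v) ∧ β ≠ 0 ∧ D.σ β = β ∧
      D.τ (D.τ β) = β⁻¹ ∧ v ^ 5 = P.ι (β ^ 3 * (D.τ β)⁻¹) ∧ P.T v = P.ι c * v ^ 2 := by
  have hk : D.k = 2 := RfA_k D hr
  have hι : Function.Injective P.ι := (P.ι : E →+* B).injective
  obtain ⟨b, hb0, hσb, hb⟩ := exists_b P hu0 hu
  obtain ⟨c, hc0, hc⟩ := exists_c P hu0 hu
  rw [hk] at hc
  -- `τ b = N(c) b ^ 2`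
  have hτb : D.τ b = RfA_N D c * b ^ 2 := by
    apply hι
    rw [← P.Tι, ← hb, map_pow, hc, pow_five' P hu, map_mul, map_pow P.ι, ← hb, ← pow_mul]
    rfl
  have hτ0 : ∀ x : E, x ≠ 0 → D.τ x ≠ 0 := fun x hx h =>
    hx ((map_eq_zero_iff _ D.τ.injective).1 h)
  obtain ⟨t, ht⟩ : ∃ t : E, t = D.τ c * c ^ 2 := ⟨_, rfl⟩
  have ht0 : t ≠ 0 := by
    rw [ht]
    exact mul_ne_zero (hτ0 c hc0) (pow_ne_zero _ hc0)
  have hττ : D.τ (D.τ b) = RfA_N D t * b ^ 4 := by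
    rw [hτb, map_mul, map_pow, RfA_N_tau D hr, hτb, ht, RfA_N_mul, RfA_N_pow]
    ring
  -- the elements `β`, `e`, `e'`
  obtain ⟨e, he⟩ : ∃ e : E, e = (b⁻¹) ^ 2 * (t⁻¹) ^ 3 := ⟨_, rfl⟩
  have he0 : e ≠ 0 := by
    rw [he]
    exact mul_ne_zero (pow_ne_zero _ (inv_ne_zero hb0)) (pow_ne_zero _ (inv_ne_zero ht0))
  have hNt := RfA_N_ne D ht0
  have hNe : RfA_N D e = ((b ^ 5)⁻¹) ^ 2 * ((RfA_N D t)⁻¹) ^ 3 := by
    rw [he, RfA_N_mul, RfA_N_pow, RfA_N_pow, RfA_N_inv, RfA_N_inv, RfA_N_fix D hσb]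
  obtain ⟨β, hβ⟩ : ∃ β : E, β = (b * (D.τ (D.τ b))⁻¹) ^ 3 := ⟨_, rfl⟩
  have hβe : β = b * RfA_N D e := by
    rw [hβ, hττ, hNe]
    field_simp
  have hβ0 : β ≠ 0 := by
    rw [hβe]
    exact mul_ne_zero hb0 (RfA_N_ne D he0)
  have hβσ : D.σ β = β := by
    rw [hβ, map_pow, map_mul, map_inv₀, hσb, RfA_fix D hr (RfA_fix D hr hσb)]
  have hβτ : D.τ (D.τ β) = β⁻¹ := by
    have h4 : D.τ (D.τ (D.τ (D.τ b))) = b := by
      have h5 := DFunLike.congr_fun (RfA_t4 D hr) b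
      exact h5
    rw [hβ, map_pow, map_pow, map_mul, map_mul, map_inv₀, map_inv₀, h4, ← inv_pow, mul_inv,
      inv_inv, mul_comm]
  have hτβ : D.τ β = RfA_N D c * b ^ 2 * RfA_N D (D.τ e) := by
    rw [hβe, map_mul, hτb, RfA_N_tau D hr]
  obtain ⟨f, hf⟩ : ∃ f : E, f = e ^ 3 * (c * D.τ e)⁻¹ := ⟨_, rfl⟩
  have hf0 : f ≠ 0 := by
    rw [hf]
    exact mul_ne_zero (pow_ne_zero _ he0) (inv_ne_zero (mul_ne_zero hc0 (hτ0 e he0)))
  have hNf : RfA_N D f * b = β ^ 3 * (D.τ β)⁻¹ := by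
    have h1 := RfA_N_ne D hc0
    have h2 := RfA_N_ne D (hτ0 e he0)
    rw [hτβ, hβe, hf, RfA_N_mul, RfA_N_pow, RfA_N_inv, RfA_N_mul]
    field_simp
  -- the element `v`
  have hιf0 : P.ι f ≠ 0 := fun h => hf0 ((map_eq_zero_iff _ hι).1 h)
  have hv0 : P.ι f * u ≠ 0 := mul_ne_zero hιf0 hu0
  have hv : ∀ x, P.ι f * u * P.ι x = P.ι (D.σ x) * (P.ι f * u) := by
    intro x
    rw [mul_assoc, hu, ← mul_assoc, ← mul_assoc, ← map_mul, ← map_mul, mul_comm f]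
  obtain ⟨c', _, hc'⟩ := exists_c P hv0 hv
  rw [hk] at hc'
  refine ⟨P.ι f * u, β, c', hv0, hv, hβ0, hβσ, hβτ, ?_, hc'⟩
  rw [pow_five P hu, hb, ← map_mul, ← hNf]
  rfl

end Pool.Agent.H.MP_4c5958_al.SO
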