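import Pool.Agent.H.MP_4c5958_al.SO.Cdp
import Pool.Agent.H.MP_4c5958_al.SO.H90

/-!
# Module RfB: the case `r = 4`, second step, existence of `q`

Put `d = τ β / β` and `b' = β ^ 3 / τ β`; `σ d = d` (`σ (τ β) = τ β`: `τ σ = σ ^ 2 τ`, so
`σ ^ 2 (τ β) = τ β`, so `σ (τ β) = σ ^ 6 (τ β) = τ β`),
`τ b' = (τ β) ^ 3 β = d ^ 5 b' ^ 2`. Apply `T` to `v ^ 5 = ι b'` and use `pow_five'`:
`N(c) b' ^ 2 = τ b'`, `N(c) = ∏ σ ^ i c`, so `N(c) = d ^ 5 = N(d)`, `N(c / d) = 1` and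
`c / d = σ ^ 2 q / q` (`h90` for `σ ^ 2`, of order 5; the product over `(σ ^ 2) ^ i` is the product over
`σ ^ i`). So `T v = ι (σ ^ 2 q / q * d) * v ^ 2 = (ι q)⁻¹ * (ι d * v ^ 2) * ι q`.
-/

set_option autoImplicit false

noncomputable section

namespace Pool.Agent.H.MP_4c5958_al.SO

universe u

variable {K E A B : Type u} [Field K] [Field E] [Algebra K E] {D : GD K E} [Ring A]
    [Algebra K A] [DivisionRing B] [Algebra K B] (P : AD D A B)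

theorem four_two_a (hr : D.r = 4) {v : B} {β c : E} (hv0 : v ≠ 0)
    (hv : ∀ e, v * P.ι e = P.ι (D.σ e) * v) (hβ0 : β ≠ 0) (hσ : D.σ β = β)
    (hτ : D.τ (D.τ β) = β⁻¹) (h5 : v ^ 5 = P.ι (β ^ 3 * (D.τ β)⁻¹))
    (hT : P.T v = P.ι c * v ^ 2) :
    ∃ q : E, q ≠ 0 ∧ P.T v = (P.ι q)⁻¹ * (P.ι (D.τ β * β⁻¹) * v ^ 2) * P.ι q := by
  have hk : D.k = 2 := by
    rcases D.hrk with ⟨h, _⟩ | ⟨h, _⟩ | ⟨_, h⟩
    · omega
    · omega
    · exact h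
  have hστ : ∀ e, D.τ (D.σ e) = D.σ (D.σ (D.τ e)) := by
    intro e
    have h := DFunLike.congr_fun D.rel e
    rw [hk, pow_two] at h
    exact h
  have h5σ : D.σ ^ 5 = 1 := by
    rw [← D.hσ]
    exact pow_orderOf_eq_one _
  have hσ5 : ∀ e, D.σ (D.σ (D.σ (D.σ (D.σ e)))) = e := fun e => DFunLike.congr_fun h5σ e
  have hb : D.σ (D.τ β) = D.τ β := by
    have h1 : D.σ (D.σ (D.τ β)) = D.τ β := by rw [← hστ, hσ]
    have h2 := hσ5 (D.σ (D.τ β))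
    rw [h1, h1, h1] at h2
    exact h2.symm
  have hτβ0 : D.τ β ≠ 0 := (map_ne_zero _).2 hβ0
  obtain ⟨d, hdd⟩ : ∃ d, d = D.τ β * β⁻¹ := ⟨_, rfl⟩
  obtain ⟨b', hb'⟩ : ∃ b', b' = β ^ 3 * (D.τ β)⁻¹ := ⟨_, rfl⟩
  have hd : D.σ d = d := by rw [hdd, map_mul, map_inv₀, hb, hσ]
  have hd0 : d ≠ 0 := by
    rw [hdd]
    exact mul_ne_zero hτβ0 (inv_ne_zero hβ0)
  have hb0 : b' ≠ 0 := by
    rw [hb']
    exact mul_ne_zero (pow_ne_zero _ hβ0) (inv_ne_zero hτβ0)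
  rw [← hb'] at h5
  have e2 : P.ι (D.τ b') = P.ι ((∏ i ∈ Finset.range 5, (D.σ ^ i) c) * b' ^ 2) := by
    rw [← P.Tι, ← h5, map_pow, hT, pow_five' P hv, map_mul, map_pow, ← h5, ← pow_mul]
  have e3 : D.τ b' = (∏ i ∈ Finset.range 5, (D.σ ^ i) c) * b' ^ 2 := P.ι.toRingHom.injective e2
  have e4 : D.τ b' = d ^ 5 * b' ^ 2 := by
    rw [hb', map_mul, map_pow, map_inv₀, hτ, inv_inv, hdd]
    field_simp
  have e5 : (∏ i ∈ Finset.range 5, (D.σ ^ i) c) = d ^ 5 :=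
    mul_right_cancel₀ (pow_ne_zero 2 hb0) (e3.symm.trans e4)
  have hdi : ∀ i : ℕ, (D.σ ^ i) d = d := by
    intro i
    induction i with
    | zero => rfl
    | succ i ih =>
      rw [pow_succ]
      change (D.σ ^ i) (D.σ d) = d
      rw [hd, ih]
  have e6 : ∏ i ∈ Finset.range 5, (D.σ ^ i) (c * d⁻¹) = 1 := by
    simp_rw [map_mul, map_inv₀, hdi]
    rw [Finset.prod_mul_distrib, Finset.prod_const, Finset.card_range, e5, ← mul_pow,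
      mul_inv_cancel₀ hd0, one_pow]
  have s6 : D.σ ^ (2 * 3) = D.σ ^ 1 := by
    have h : D.σ ^ (5 + 1) = D.σ ^ 1 := by rw [pow_add, h5σ, one_mul]
    exact h
  have s8 : D.σ ^ (2 * 4) = D.σ ^ 3 := by
    have h : D.σ ^ (5 + 3) = D.σ ^ 3 := by rw [pow_add, h5σ, one_mul]
    exact h
  have e7 : ∏ i ∈ Finset.range 5, ((D.σ ^ 2) ^ i) (c * d⁻¹) = 1 := by
    rw [← e6]
    simp only [Finset.prod_range_succ, Finset.prod_range_zero, ← pow_mul]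
    rw [s6, s8, Nat.mul_zero, Nat.mul_one]
    ring
  have ho : orderOf (D.σ ^ 2) = 5 := by
    rw [Nat.Coprime.orderOf_pow (by rw [D.hσ]; decide), D.hσ]
  obtain ⟨q, hq0, hq⟩ := h90 (D.σ ^ 2) (by norm_num) ho (c * d⁻¹) e7
  refine ⟨q, hq0, ?_⟩
  have e8 : v ^ 2 * P.ι q = P.ι ((D.σ ^ 2) q) * v ^ 2 := by
    rw [pow_two, mul_assoc, hv, ← mul_assoc, hv, mul_assoc]
    rfl
  have e9 : c = q⁻¹ * (d * (D.σ ^ 2) q) := by
    rw [← hq]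
    field_simp
  rw [hT, ← hdd, mul_assoc, mul_assoc (P.ι d), e8, ← map_inv₀, ← mul_assoc (P.ι d), ← map_mul,
    ← mul_assoc, ← map_mul, ← e9]

end Pool.Agent.H.MP_4c5958_al.SO
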