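import Pool.Agent.H.MP_4c5958_al.SO.Cde
import Pool.Agent.H.MP_4c5958_al.SO.Cdp
import Pool.Agent.H.MP_4c5958_al.SO.H90

/-!
# Module RfC: the case `r = 4`, third step

`μ = ∏ τ ^ j q` is fixed by `σ` and `τ`. Put `ν = N(q) = ∏ σ ^ i q`; `σ ν = ν`, `∏ τ ^ j ν = N(μ) =
μ ^ 5` (`τ (N e) = N (τ e)`). Put `m = μ / ν`: `∏ τ ^ j (q m) = μ μ ^ 4 / μ ^ 5 = 1`, so
`q m = τ(y) / y` (`h90` for `τ`). Put `w = ι y * v * (ι y)⁻¹`. Then `w ^ 5 = v ^ 5` (conjugation by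
`ι y` fixes `ι E`), `τ(y) q⁻¹ = y m`, and `m`, `d = τ β / β` are fixed by `σ`, so they commute with `v`:
`T w = ι(y m) * (ι d * v ^ 2) * (ι (y m))⁻¹ = ι d * w ^ 2`.
-/

set_option autoImplicit false

noncomputable section

namespace Pool.Agent.H.MP_4c5958_al.SO

universe u

variable {K E A B : Type u} [Field K] [Field E] [Algebra K E] {D : GD K E} [Ring A]
    [Algebra K A] [DivisionRing B] [Algebra K B] (P : AD D A B)

theorem four_three (hr : D.r = 4) {v : B} {β q : E} (hv0 : v ≠ 0)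
    (hv : ∀ e, v * P.ι e = P.ι (D.σ e) * v) (hβ0 : β ≠ 0) (hσ : D.σ β = β)
    (h5 : v ^ 5 = P.ι (β ^ 3 * (D.τ β)⁻¹)) (hq0 : q ≠ 0)
    (hT : P.T v = (P.ι q)⁻¹ * (P.ι (D.τ β * β⁻¹) * v ^ 2) * P.ι q)
    (hμ : D.σ (∏ j ∈ Finset.range 4, (D.τ ^ j) q) = ∏ j ∈ Finset.range 4, (D.τ ^ j) q) :
    ∃ w : B, w ≠ 0 ∧ (∀ e, w * P.ι e = P.ι (D.σ e) * w) ∧
      w ^ 5 = P.ι (β ^ 3 * (D.τ β)⁻¹) ∧ P.T w = P.ι (D.τ β * β⁻¹) * w ^ 2 := by
  have hk : D.k = 2 := by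
    rcases D.hrk with h | h | h
    · omega
    · omega
    · exact h.2
  obtain ⟨s, hs⟩ : ∃ s : E → E, ∀ e, s e = D.σ e := ⟨fun e => D.σ e, fun e => rfl⟩
  obtain ⟨t, ht⟩ : ∃ t : E → E, ∀ e, t e = D.τ e := ⟨fun e => D.τ e, fun e => rfl⟩
  have sm : ∀ a b, s (a * b) = s a * s b := fun a b => by rw [hs, hs, hs, map_mul]
  have tm : ∀ a b, t (a * b) = t a * t b := fun a b => by rw [ht, ht, ht, map_mul]
  have ti : ∀ a, t a⁻¹ = (t a)⁻¹ := fun a => by rw [ht, ht, map_inv₀]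
  have si : ∀ a, s a⁻¹ = (s a)⁻¹ := fun a => by rw [hs, hs, map_inv₀]
  have s5 : ∀ a, s (s (s (s (s a)))) = a := by
    intro a
    have h1 : D.σ ^ 5 = 1 := by rw [← D.hσ]; exact pow_orderOf_eq_one D.σ
    have h2 := AlgEquiv.congr_fun h1 a
    simp only [hs]
    exact h2
  have t4 : ∀ a, t (t (t (t a))) = a := by
    intro a
    have h1 : D.τ ^ 4 = 1 := by rw [← hr, ← D.hτ]; exact pow_orderOf_eq_one D.τ
    have h2 := AlgEquiv.congr_fun h1 a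
    simp only [ht]
    exact h2
  have ts : ∀ a, t (s a) = s (s (t a)) := by
    intro a
    have h1 := D.rel
    rw [hk] at h1
    have h2 := AlgEquiv.congr_fun h1 a
    rw [ht, hs, ht, hs, hs]
    exact h2
  obtain ⟨N, hN⟩ : ∃ N : E → E, ∀ e, N e = e * s e * s (s e) * s (s (s e)) * s (s (s (s e))) :=
    ⟨_, fun e => rfl⟩
  have hNt : ∀ e, t (N e) = N (t e) := by
    intro e
    rw [hN, hN]
    simp only [tm, ts, s5]
    ring
  have hNm : ∀ a b, N (a * b) = N a * N b := by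
    intro a b
    rw [hN, hN, hN]
    simp only [sm]
    ring
  have hNs : ∀ e, s (N e) = N e := by
    intro e
    rw [hN]
    simp only [sm, s5]
    ring
  obtain ⟨μ, hμd⟩ : ∃ μ, μ = q * t q * t (t q) * t (t (t q)) := ⟨_, rfl⟩
  have hprod : ∀ e, ∏ j ∈ Finset.range 4, (D.τ ^ j) e = e * t e * t (t e) * t (t (t e)) := by
    intro e
    simp only [Finset.prod_range_succ, Finset.prod_range_zero, one_mul, ht]
    rfl
  rw [hprod, ← hμd, ← hs] at hμ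
  have t0 : ∀ {e : E}, e ≠ 0 → t e ≠ 0 := fun {e} he => by
    rw [ht]
    exact (map_ne_zero_iff _ D.τ.injective).2 he
  have hμ0 : μ ≠ 0 := by
    rw [hμd]
    exact mul_ne_zero (mul_ne_zero (mul_ne_zero hq0 (t0 hq0)) (t0 (t0 hq0))) (t0 (t0 (t0 hq0)))
  have htμ : t μ = μ := by
    rw [hμd]
    simp only [tm, t4]
    ring
  have hNμ : N μ = μ ^ 5 := by
    rw [hN, hμ, hμ, hμ, hμ]
    ring
  have hNμ' : N q * N (t q) * N (t (t q)) * N (t (t (t q))) = μ ^ 5 := by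
    rw [← hNμ, hμd, hNm, hNm, hNm]
  have hNq0 : N q ≠ 0 := by
    intro h0
    rw [h0, zero_mul, zero_mul, zero_mul] at hNμ'
    exact pow_ne_zero 5 hμ0 hNμ'.symm
  obtain ⟨m, hm⟩ : ∃ m, m = μ * (N q)⁻¹ := ⟨_, rfl⟩
  have hm0 : m ≠ 0 := by
    rw [hm]
    exact mul_ne_zero hμ0 (inv_ne_zero hNq0)
  have hsm : s m = m := by rw [hm, sm, si, hμ, hNs]
  have hw : ∏ j ∈ Finset.range 4, (D.τ ^ j) (q * m) = 1 := by
    rw [hprod, hm]
    simp only [tm, ti, htμ, hNt]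
    have e1 : q * (μ * (N q)⁻¹) * (t q * (μ * (N (t q))⁻¹)) * (t (t q) * (μ * (N (t (t q)))⁻¹)) *
        (t (t (t q)) * (μ * (N (t (t (t q))))⁻¹)) = (q * t q * t (t q) * t (t (t q))) * μ ^ 4 *
          (N q * N (t q) * N (t (t q)) * N (t (t (t q))))⁻¹ := by
      rw [mul_inv, mul_inv, mul_inv]
      ring
    rw [e1, hNμ', ← hμd, ← pow_succ', mul_inv_cancel₀ (pow_ne_zero _ hμ0)]
  obtain ⟨y, hy0, hy⟩ := h90 D.τ (by norm_num : 0 < 4) (D.hτ.trans hr) (q * m) hw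
  have hιy : P.ι y ≠ 0 := (map_ne_zero_iff _ P.ι.injective).2 hy0
  have hιq : P.ι q ≠ 0 := (map_ne_zero_iff _ P.ι.injective).2 hq0
  have hιm : P.ι m ≠ 0 := (map_ne_zero_iff _ P.ι.injective).2 hm0
  have hcom : ∀ a b : E, P.ι a * P.ι b = P.ι b * P.ι a := fun a b => by
    rw [← map_mul, ← map_mul, mul_comm]
  have hinv : ∀ a : E, P.ι a⁻¹ = (P.ι a)⁻¹ := fun a => map_inv₀ P.ι a
  have hvm : v * P.ι m = P.ι m * v := by
    rw [hv, ← hs, hsm]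
  have hvm2 : v ^ 2 * (P.ι m)⁻¹ = (P.ι m)⁻¹ * v ^ 2 := by
    have h1 : Commute v (P.ι m) := hvm
    exact ((h1.pow_left 2).inv_right₀).eq
  have hconj : ∀ n : ℕ, (P.ι y * v * (P.ι y)⁻¹) ^ n = P.ι y * v ^ n * (P.ι y)⁻¹ := by
    intro n
    induction n with
    | zero => rw [pow_zero, pow_zero, mul_one, mul_inv_cancel₀ hιy]
    | succ n ih =>
      rw [pow_succ, ih, pow_succ]
      have e1 : P.ι y * v ^ n * (P.ι y)⁻¹ * (P.ι y * v * (P.ι y)⁻¹) =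
        P.ι y * v ^ n * ((P.ι y)⁻¹ * P.ι y) * v * (P.ι y)⁻¹ := by
        simp only [mul_assoc]
      rw [e1, inv_mul_cancel₀ hιy, mul_one, mul_assoc (P.ι y) (v ^ n) v]
  refine ⟨P.ι y * v * (P.ι y)⁻¹, mul_ne_zero (mul_ne_zero hιy hv0) (inv_ne_zero hιy), ?_, ?_, ?_⟩
  · intro e
    calc P.ι y * v * (P.ι y)⁻¹ * P.ι e = P.ι y * v * (P.ι y⁻¹ * P.ι e) := by
          rw [hinv, mul_assoc]
      _ = P.ι y * (v * P.ι e) * P.ι y⁻¹ := by rw [hcom]; simp only [mul_assoc]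
      _ = (P.ι y * P.ι (D.σ e)) * v * P.ι y⁻¹ := by rw [hv]; simp only [mul_assoc]
      _ = P.ι (D.σ e) * (P.ι y * v * (P.ι y)⁻¹) := by
          rw [hcom, hinv]
          simp only [mul_assoc]
  · rw [hconj, h5, hcom, mul_assoc, mul_inv_cancel₀ hιy, mul_one]
  · have hTy : P.T (P.ι y) = P.ι q * P.ι m * P.ι y := by
      rw [P.Tι, ← hy, map_mul, map_mul]
    have hTi : P.T (P.ι y)⁻¹ = (P.ι q * P.ι m * P.ι y)⁻¹ := by
      rw [map_inv₀, hTy]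
    have e2 : P.ι q * P.ι m * P.ι y * (P.ι q)⁻¹ = P.ι y * P.ι m := by
      rw [← hinv, ← map_mul, ← map_mul, ← map_mul, ← map_mul]
      congr 1
      field_simp
    have e3 : P.ι q * (P.ι q * P.ι m * P.ι y)⁻¹ = (P.ι m)⁻¹ * (P.ι y)⁻¹ := by
      rw [← map_mul, ← map_mul, ← hinv, ← hinv, ← hinv, ← map_mul, ← map_mul]
      congr 1
      field_simp
    calc P.T (P.ι y * v * (P.ι y)⁻¹) = P.ι q * P.ι m * P.ι y *
          ((P.ι q)⁻¹ * (P.ι (D.τ β * β⁻¹) * v ^ 2) * P.ι q) * (P.ι q * P.ι m * P.ι y)⁻¹ := by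
          rw [map_mul, map_mul, hTy, hTi, hT]
      _ = (P.ι q * P.ι m * P.ι y * (P.ι q)⁻¹) * (P.ι (D.τ β * β⁻¹) * v ^ 2) *
          (P.ι q * (P.ι q * P.ι m * P.ι y)⁻¹) := by simp only [mul_assoc]
      _ = P.ι y * P.ι m * P.ι (D.τ β * β⁻¹) * (v ^ 2 * (P.ι m)⁻¹) * (P.ι y)⁻¹ := by
          rw [e2, e3]
          simp only [mul_assoc]
      _ = P.ι y * P.ι m * (P.ι (D.τ β * β⁻¹) * P.ι m⁻¹) * v ^ 2 * (P.ι y)⁻¹ := by
          rw [hvm2, hinv]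
          simp only [mul_assoc]
      _ = P.ι y * (P.ι m * P.ι m⁻¹) * P.ι (D.τ β * β⁻¹) * v ^ 2 * (P.ι y)⁻¹ := by
          rw [hcom (D.τ β * β⁻¹) m⁻¹]
          simp only [mul_assoc]
      _ = (P.ι y * P.ι (D.τ β * β⁻¹)) * v ^ 2 * (P.ι y)⁻¹ := by
          rw [← map_mul, mul_inv_cancel₀ hm0, map_one, mul_one]
      _ = P.ι (D.τ β * β⁻¹) * (P.ι y * v * (P.ι y)⁻¹) ^ 2 := by
          rw [hconj, hcom]
          simp only [mul_assoc]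

end Pool.Agent.H.MP_4c5958_al.SO
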