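import Pool.Agent.H.MP_4c5958_al.SO.Defs

/-!
# Module RfD: the case `r = 4`, second step, the norm of `q`

Put `d = τ β / β`, `b' = β ^ 3 / τ β`; `σ d = d` (`σ (τ β) = τ β`: `τ σ = σ ^ 2 τ`, so
`σ ^ 2 (τ β) = τ β`, so `σ (τ β) = σ ^ 6 (τ β) = τ β`); likewise for `τ ^ j d`. Apply `T`
four times to `v`, starting from `T v = (ι q)⁻¹ * (ι d * v ^ 2) * ι q`:
`T (T v) = (ι (q τ q))⁻¹ * (ι (τ d * d ^ 2) * v ^ 4) * ι (q τ q)`,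
`T (T (T v)) = (ι (q τ q τ² q))⁻¹ * (ι (τ² d * (τ d) ^ 2 * d ^ 4) * v ^ 8) * ι (q τ q τ² q)`,
`T (T (T (T v))) = (ι μ)⁻¹ * (ι (τ³ d * (τ² d) ^ 2 * (τ d) ^ 4 * d ^ 8) * v ^ 16) * ι μ`,
`μ = q τ q τ² q τ³ q`, and `v ^ 16 = ι (b' ^ 3) * v`,
`τ³ d * (τ² d) ^ 2 * (τ d) ^ 4 * d ^ 8 * b' ^ 3 = 1` (from `τ² β = β⁻¹`). Since `T ^ 4 = 1` (`P.Tr`),
`ι μ` commutes with `v`, that is `σ μ = μ`.
-/

set_option autoImplicit false

noncomputable section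

namespace Pool.Agent.H.MP_4c5958_al.SO

universe u

variable {K E A B : Type u} [Field K] [Field E] [Algebra K E] {D : GD K E} [Ring A]
    [Algebra K A] [DivisionRing B] [Algebra K B] (P : AD D A B)

theorem RfD_conj {B : Type u} [DivisionRing B] {a : B} (ha : a ≠ 0) (x : B) (n : ℕ) :
    (a⁻¹ * x * a) ^ n = a⁻¹ * x ^ n * a := by
  induction n with
  | zero => rw [pow_zero, pow_zero, mul_one, inv_mul_cancel₀ ha]
  | succ n ih =>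
    rw [pow_succ, ih, pow_succ]
    calc a⁻¹ * x ^ n * a * (a⁻¹ * x * a) = a⁻¹ * x ^ n * (a * a⁻¹) * x * a := by
          simp only [mul_assoc]
      _ = a⁻¹ * (x ^ n * x) * a := by
          rw [mul_inv_cancel₀ ha, mul_one]
          simp only [mul_assoc]

/-- elements fixed by `σ` are mapped by `τ` to elements fixed by `σ` -/
theorem RfD_fix (D : GD K E) (hr : D.r = 4) {e : E} (he : D.σ e = e) :
    D.σ (D.τ e) = D.τ e := by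
  have hk : D.k = 2 := by
    rcases D.hrk with h | h | h
    · omega
    · omega
    · exact h.2
  have h1 : D.σ (D.σ (D.τ e)) = D.τ e := by
    have h2 := DFunLike.congr_fun D.rel e
    rw [hk, pow_two] at h2
    have h3 : D.τ (D.σ e) = D.σ (D.σ (D.τ e)) := h2
    rw [← h3, he]
  have h5 : D.σ (D.σ (D.σ (D.σ (D.σ (D.τ e))))) = D.τ e := by
    have h2 : D.σ ^ 5 = 1 := by
      rw [← D.hσ]
      exact pow_orderOf_eq_one D.σ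
    have h3 := DFunLike.congr_fun h2 (D.τ e)
    exact h3
  rw [h1, h1] at h5
  exact h5

include P in
theorem RfD_step {v : B} {c d q μ : E} {n : ℕ} (hc : D.σ (D.τ c) = D.τ c) (hd : D.σ d = d)
    (hq0 : q ≠ 0) (hT : P.T v = (P.ι q)⁻¹ * (P.ι d * v ^ 2) * P.ι q) {X : B}
    (hX : X = (P.ι μ)⁻¹ * (P.ι c * v ^ n) * P.ι μ) :
    P.T X = (P.ι (q * D.τ μ))⁻¹ * (P.ι (D.τ c * d ^ n) * v ^ (2 * n)) * P.ι (q * D.τ μ) := by
  have hq1 : P.ι q ≠ 0 := (map_ne_zero P.ι).2 hq0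
  have h1 : Commute (P.ι d) (v ^ 2) := (P.central d hd (v ^ 2)).symm
  have h2 : (P.T v) ^ n = (P.ι q)⁻¹ * (P.ι (d ^ n) * v ^ (2 * n)) * P.ι q := by
    rw [hT, RfD_conj hq1, h1.mul_pow, map_pow, pow_mul]
  have h3 := P.central (D.τ c) hc (P.ι q)⁻¹
  rw [hX, map_mul, map_mul, map_mul, map_inv₀, map_pow, P.Tι, P.Tι, h2, map_mul P.ι q,
    mul_inv_rev, map_mul P.ι (D.τ c)]
  calc (P.ι (D.τ μ))⁻¹ * (P.ι (D.τ c) * ((P.ι q)⁻¹ * (P.ι (d ^ n) * v ^ (2 * n)) * P.ι q)) *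
        P.ι (D.τ μ)
      = (P.ι (D.τ μ))⁻¹ * (P.ι (D.τ c) * (P.ι q)⁻¹) * (P.ι (d ^ n) * v ^ (2 * n)) * P.ι q *
        P.ι (D.τ μ) := by simp only [mul_assoc]
    _ = (P.ι (D.τ μ))⁻¹ * ((P.ι q)⁻¹ * P.ι (D.τ c)) * (P.ι (d ^ n) * v ^ (2 * n)) * P.ι q *
        P.ι (D.τ μ) := by rw [h3]
    _ = _ := by simp only [mul_assoc]

theorem four_two_b (hr : D.r = 4) {v : B} {β q : E} (hv0 : v ≠ 0)
    (hv : ∀ e, v * P.ι e = P.ι (D.σ e) * v) (hβ0 : β ≠ 0) (hσ : D.σ β = β)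
    (hτ : D.τ (D.τ β) = β⁻¹) (h5 : v ^ 5 = P.ι (β ^ 3 * (D.τ β)⁻¹)) (hq0 : q ≠ 0)
    (hT : P.T v = (P.ι q)⁻¹ * (P.ι (D.τ β * β⁻¹) * v ^ 2) * P.ι q) :
    D.σ (∏ j ∈ Finset.range 4, (D.τ ^ j) q) = ∏ j ∈ Finset.range 4, (D.τ ^ j) q := by
  have hx : D.σ (D.τ β) = D.τ β := RfD_fix D hr hσ
  obtain ⟨d, hd⟩ : ∃ d, d = D.τ β * β⁻¹ := ⟨_, rfl⟩
  rw [← hd] at hT
  have hσd : D.σ d = d := by rw [hd, map_mul, map_inv₀, hx, hσ]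
  have hy0 : D.τ β ≠ 0 := (map_ne_zero D.τ).2 hβ0
  have hτ3 : D.τ (D.τ (D.τ β)) = (D.τ β)⁻¹ := by rw [hτ, map_inv₀]
  have e1 : D.τ d = β⁻¹ * (D.τ β)⁻¹ := by rw [hd, map_mul, map_inv₀, hτ]
  have e2 : D.τ (D.τ d) = (D.τ β)⁻¹ * β := by
    rw [e1, map_mul, map_inv₀, map_inv₀, hτ, inv_inv]
  have e3 : D.τ (D.τ (D.τ d)) = β * D.τ β := by rw [e2, map_mul, map_inv₀, hτ, inv_inv]
  have f1 : D.σ (D.τ d) = D.τ d := RfD_fix D hr hσd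
  have f2 : D.σ (D.τ (D.τ d)) = D.τ (D.τ d) := RfD_fix D hr f1
  have f3 : D.σ (D.τ (D.τ (D.τ d))) = D.τ (D.τ (D.τ d)) := RfD_fix D hr f2
  have t2 := RfD_step P (n := 2) (X := P.T v) (c := d) (μ := q) f1 hσd hq0 hT hT
  have t3 := RfD_step P (c := D.τ d * d ^ 2) (μ := q * D.τ q) (n := 2 * 2)
    (by rw [map_mul, map_pow, map_mul, map_pow, f1, f2]) hσd hq0 hT t2
  have t4 := RfD_step P (c := D.τ (D.τ d * d ^ 2) * d ^ (2 * 2)) (μ := q * D.τ (q * D.τ q))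
    (n := 2 * (2 * 2)) (by
      simp only [map_mul, map_pow]
      rw [f1, f2, f3]) hσd hq0 hT t3
  have hT4 : P.T (P.T (P.T (P.T v))) = v := by
    have h1 := P.Tr
    rw [hr] at h1
    exact DFunLike.congr_fun h1 v
  rw [hT4] at t4
  have hμ : q * D.τ (q * D.τ (q * D.τ q)) = ∏ j ∈ Finset.range 4, (D.τ ^ j) q := by
    rw [Finset.prod_range_succ, Finset.prod_range_succ, Finset.prod_range_succ,
      Finset.prod_range_one]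
    have g0 : (D.τ ^ 0) q = q := rfl
    have g1 : (D.τ ^ 1) q = D.τ q := rfl
    have g2 : (D.τ ^ 2) q = D.τ (D.τ q) := rfl
    have g3 : (D.τ ^ 3) q = D.τ (D.τ (D.τ q)) := rfl
    rw [g0, g1, g2, g3]
    simp only [map_mul]
    ring
  rw [← hμ]
  obtain ⟨μ, hμd⟩ : ∃ μ, μ = q * D.τ (q * D.τ (q * D.τ q)) := ⟨_, rfl⟩
  rw [← hμd] at t4 ⊢
  have hμ0 : μ ≠ 0 := by
    rw [hμd]
    simp only [map_mul]
    have g1 : D.τ q ≠ 0 := (map_ne_zero D.τ).2 hq0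
    have g2 : D.τ (D.τ q) ≠ 0 := (map_ne_zero D.τ).2 g1
    have g3 : D.τ (D.τ (D.τ q)) ≠ 0 := (map_ne_zero D.τ).2 g2
    exact mul_ne_zero hq0 (mul_ne_zero g1 (mul_ne_zero g2 g3))
  have hv16 : v ^ (2 * (2 * (2 * 2))) = P.ι ((β ^ 3 * (D.τ β)⁻¹) ^ 3) * v := by
    have h1 : 2 * (2 * (2 * 2)) = 5 * 3 + 1 := by norm_num
    rw [h1, pow_succ, pow_mul, h5, map_pow]
  have hc : D.τ (D.τ (D.τ d * d ^ 2) * d ^ (2 * 2)) * d ^ (2 * (2 * 2)) *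
      (β ^ 3 * (D.τ β)⁻¹) ^ 3 = 1 := by
    have k8 : 2 * (2 * 2) = 8 := rfl
    have k4 : 2 * 2 = 4 := rfl
    rw [k8, k4]
    simp only [map_mul, map_pow]
    rw [e3, e2, e1, hd]
    field_simp
  rw [hv16, ← mul_assoc (P.ι _) (P.ι _) v, ← map_mul, hc, map_one, one_mul] at t4
  have hμ1 : P.ι μ ≠ 0 := (map_ne_zero P.ι).2 hμ0
  have h6 : P.ι μ * v = v * P.ι μ := by
    calc P.ι μ * v = P.ι μ * ((P.ι μ)⁻¹ * v * P.ι μ) := by rw [← t4]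
      _ = (P.ι μ * (P.ι μ)⁻¹) * v * P.ι μ := by simp only [mul_assoc]
      _ = v * P.ι μ := by rw [mul_inv_cancel₀ hμ1, one_mul]
  rw [hv μ] at h6
  have h7 := mul_right_cancel₀ hv0 h6
  exact (P.ι.toRingHom.injective h7).symm

end Pool.Agent.H.MP_4c5958_al.SO
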