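import Pool.Agent.H.MP_4c5958_al.SO.Cde
import Pool.Agent.H.MP_4c5958_al.SO.Cdp
import Pool.Agent.H.MP_4c5958_al.SO.H90

/-!
# Module RtA: the dihedral case, first step

Let `u` be as in `exists_u`, `u ^ 5 = ι b`, `T u = ι c * u ^ 4 = ι c' * u⁻¹` with `c' = c b`.
Taking fifth powers (`pow_five''`) `τ b = N(c') / b`, `N(c') = ∏ σ ^ i c'`. Put
`β = (b / τ b) ^ 3 = b N(e)`, `e = b / c' ^ 3` (as `b ^ 5 = N(b)`), `u₁ = ι e * u`; then
`u₁ ^ 5 = ι β`, `σ β = β`, `τ β = β⁻¹` (`τ ^ 2 = 1`), and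
`T u₁ = ι (τ e) * ι c' * u⁻¹ = ι (τ e * c' * σ⁻¹ e) * u₁⁻¹`.
-/

set_option autoImplicit false

noncomputable section

namespace Pool.Agent.H.MP_4c5958_al.SO

universe u

variable {K E A B : Type u} [Field K] [Field E] [Algebra K E] {D : GD K E} [Ring A]
    [Algebra K A] [DivisionRing B] [Algebra K B] (P : AD D A B)

theorem dihedral_one (hr : D.r = 2) {u : B} (hu0 : u ≠ 0)
    (hu : ∀ e, u * P.ι e = P.ι (D.σ e) * u) :
    ∃ (v : B) (β c : E), v ≠ 0 ∧ (∀ e, v * P.ι e = P.ι (D.σ e) * v) ∧ β ≠ 0 ∧ D.σ β = β ∧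
      D.τ β = β⁻¹ ∧ v ^ 5 = P.ι β ∧ P.T v = P.ι c * v⁻¹ := by
  have hk : D.k = 4 := by
    rcases D.hrk with h | h | h
    · omega
    · exact h.2
    · omega
  have hinj : Function.Injective P.ι := P.ι.toRingHom.injective
  have hne : ∀ e : E, e ≠ 0 → P.ι e ≠ 0 := fun e he h => he (hinj (by rw [h, map_zero]))
  obtain ⟨b, hb0, hσb, hub⟩ := exists_b P hu0 hu
  obtain ⟨c, hc0, hTu⟩ := exists_c P hu0 hu
  rw [hk] at hTu
  have hu4 : u ^ 4 = P.ι b * u⁻¹ := by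
    rw [eq_mul_inv_iff_mul_eq₀ hu0, ← pow_succ, hub]
  obtain ⟨c', hc'⟩ : ∃ c', c' = c * b := ⟨_, rfl⟩
  have hc'0 : c' ≠ 0 := by
    rw [hc']
    exact mul_ne_zero hc0 hb0
  have hTu' : P.T u = P.ι c' * u⁻¹ := by rw [hTu, hu4, hc', map_mul, mul_assoc]
  have hττ : ∀ e, D.τ (D.τ e) = e := by
    intro e
    have h := D.hτ
    rw [hr] at h
    have h2 : D.τ ^ 2 = 1 := by
      rw [← h]
      exact pow_orderOf_eq_one _
    have h3 := DFunLike.congr_fun h2 e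
    rw [pow_two] at h3
    exact h3
  have hστ : D.σ (D.τ b) = D.τ b := by
    have h5 : D.σ ^ 5 = 1 := by
      rw [← D.hσ]
      exact pow_orderOf_eq_one _
    have h1 : D.σ * (D.τ * D.σ) = D.τ := by
      rw [D.rel, hk, ← mul_assoc, ← pow_succ', h5, one_mul]
    have h2 : D.σ (D.τ (D.σ b)) = D.τ b := DFunLike.congr_fun h1 b
    rwa [hσb] at h2
  obtain ⟨N, hN⟩ : ∃ N : E → E, ∀ e, N e = ∏ i ∈ Finset.range 5, (D.σ ^ i) e :=
    ⟨_, fun _ => rfl⟩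
  have hNmul : ∀ e e', N (e * e') = N e * N e' := by
    intro e e'
    rw [hN, hN, hN, ← Finset.prod_mul_distrib]
    exact Finset.prod_congr rfl fun i _ => map_mul _ _ _
  have hpow : ∀ i : ℕ, (D.σ ^ i) b = b := by
    intro i
    induction i with
    | zero => rfl
    | succ i ih =>
      rw [pow_succ]
      show (D.σ ^ i) (D.σ b) = b
      rw [hσb, ih]
  have hNb : N b = b ^ 5 := by
    rw [hN, Finset.prod_congr rfl fun i _ => hpow i, Finset.prod_const, Finset.card_range]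
  have hτb0 : D.τ b ≠ 0 := by
    intro h
    exact hb0 (D.τ.injective (by rw [h, map_zero]))
  have hτb : D.τ b * b = N c' := by
    apply hinj
    have h1 : P.T (u ^ 5) = P.ι (D.τ b) := by rw [hub, P.Tι]
    rw [map_pow, hTu', pow_five'' P hu0 hu, hub, ← hN] at h1
    rw [map_mul, ← h1, mul_assoc, inv_mul_cancel₀ (hne b hb0), mul_one]
  obtain ⟨e, he⟩ : ∃ e, e = b / (c' * c' * c') := ⟨_, rfl⟩
  have hc3 : c' * c' * c' ≠ 0 := mul_ne_zero (mul_ne_zero hc'0 hc'0) hc'0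
  have he0 : e ≠ 0 := by
    rw [he]
    exact div_ne_zero hb0 hc3
  have hec : e * (c' * c' * c') = b := by
    rw [he]
    exact div_mul_cancel₀ _ hc3
  have hNe : N e * (D.τ b * b) ^ 3 = b ^ 5 := by
    rw [← hNb, ← hec, hNmul, hNmul, hNmul, hec, ← hτb]
    ring
  have hβ1 : b * N e * D.τ b ^ 3 = b ^ 3 := by
    have h1 : b ^ 3 ≠ 0 := pow_ne_zero _ hb0
    refine mul_right_cancel₀ h1 ?_
    linear_combination b * hNe
  have hβ2 : b * N e = (b / D.τ b) ^ 3 := by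
    rw [div_pow, eq_div_iff (pow_ne_zero _ hτb0)]
    exact hβ1
  have hv0 : P.ι e * u ≠ 0 := mul_ne_zero (hne e he0) hu0
  refine ⟨P.ι e * u, b * N e, D.τ e * c' * D.σ.symm e, hv0, ?_, ?_, ?_, ?_, ?_, ?_⟩
  · intro x
    rw [mul_assoc, hu, ← mul_assoc, ← map_mul, mul_comm e, map_mul, mul_assoc]
  · rw [hβ2]
    exact pow_ne_zero _ (div_ne_zero hb0 hτb0)
  · rw [hβ2, map_pow, map_div₀, hσb, hστ]
  · rw [hβ2, map_pow, map_div₀, hττ, ← inv_pow, inv_div]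
  · rw [pow_five P hu, hub, ← hN, ← map_mul, mul_comm]
  · rw [eq_mul_inv_iff_mul_eq₀ hv0]
    have h1 : P.ι e * u = u * P.ι (D.σ.symm e) := by
      rw [hu, AlgEquiv.apply_symm_apply]
    rw [map_mul, P.Tι, hTu', h1]
    rw [map_mul, map_mul]
    simp only [mul_assoc]
    rw [inv_mul_cancel_left₀ hu0]

end Pool.Agent.H.MP_4c5958_al.SO
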