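import Pool.Agent.H.MP_4c5958_al.SO.Cde
import Pool.Agent.H.MP_4c5958_al.SO.Cdp
import Pool.Agent.H.MP_4c5958_al.SO.H90

/-!
# Module RtB: the dihedral case, second step

From `v ^ 5 = ι β`, `T v = ι c * v⁻¹` and `τ β = β⁻¹`: `T (v ^ 5) = ι β⁻¹` and
`(ι c * v⁻¹) ^ 5 = ι (N(c)) * ι β⁻¹` (`pow_five''`), so `N(c) = 1`, and `c = σ⁻¹ q / q` (`h90` for
`σ⁻¹`). `T ^ 2 = 1` gives `τ c = σ c`, whence `μ = q τ(q)` is fixed by `σ` (and by `τ`). Put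
`ν = N(q)`, then `ν τ(ν) = μ ^ 5`; `m = μ ^ 2 / ν` is fixed by `σ` and `(q m) τ(q m) = 1`, so
`q m = τ(y) / y` (`h90` for `τ`). Put `w = ι y * v * (ι y)⁻¹`: `w ^ 5 = ι β`, `T w = w⁻¹`.
(`c = σ⁻¹(q m) / (q m)`; `w = ι (y / σ y) * v`, `w⁻¹ = ι (y / σ⁻¹ y) * v⁻¹`,
`T w = ι (τ y * c / σ⁻¹ (τ y)) * v⁻¹`.)
-/

set_option autoImplicit false

noncomputable section

namespace Pool.Agent.H.MP_4c5958_al.SO

universe u

variable {K E A B : Type u} [Field K] [Field E] [Algebra K E] {D : GD K E} [Ring A]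
    [Algebra K A] [DivisionRing B] [Algebra K B] (P : AD D A B)

theorem RtB_field {K E : Type u} [Field K] [Field E] [Algebra K E] (σ τ : E ≃ₐ[K] E)
    (h5 : ∀ e, σ (σ (σ (σ (σ e)))) = e) (h2 : ∀ e, τ (τ e) = e)
    (hr : ∀ e, τ (σ e) = σ (σ (σ (σ (τ e))))) {c q : E} (hq : q ≠ 0)
    (hc : c * q = σ (σ (σ (σ q)))) (hcc : τ c = σ c) :
    ∃ m, m ≠ 0 ∧ σ m = m ∧ (q * m) * τ (q * m) = 1 := by
  have e1 : σ c * σ q = q := by rw [← map_mul, hc, h5]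
  have e2 : σ (τ q) = σ c * τ q := by
    have h := congrArg τ hc
    rw [map_mul, hcc] at h
    rw [h]
    simp only [hr, h5]
  obtain ⟨μ, hμd⟩ : ∃ μ, μ = q * τ q := ⟨_, rfl⟩
  have hμ : σ μ = μ := by
    rw [hμd, map_mul, e2]
    calc σ q * (σ c * τ q) = (σ c * σ q) * τ q := by ring
      _ = q * τ q := by rw [e1]
  have hμτ : τ μ = μ := by rw [hμd, map_mul, h2, mul_comm]
  have hμ0 : μ ≠ 0 := by
    rw [hμd]
    exact mul_ne_zero hq ((map_ne_zero τ).2 hq)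
  obtain ⟨ν, hνd⟩ : ∃ ν, ν = q * σ q * σ (σ q) * σ (σ (σ q)) * σ (σ (σ (σ q))) := ⟨_, rfl⟩
  have hσ0 : ∀ e, e ≠ 0 → σ e ≠ 0 := fun e he => (map_ne_zero σ).2 he
  have hν0 : ν ≠ 0 := by
    rw [hνd]
    exact mul_ne_zero (mul_ne_zero (mul_ne_zero (mul_ne_zero hq (hσ0 _ hq)) (hσ0 _ (hσ0 _ hq)))
      (hσ0 _ (hσ0 _ (hσ0 _ hq)))) (hσ0 _ (hσ0 _ (hσ0 _ (hσ0 _ hq))))
  have hνσ : σ ν = ν := by
    rw [hνd]
    simp only [map_mul, h5]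
    ring
  have hνμ : ν * τ ν = μ ^ 5 := by
    have h1 : μ ^ 5 = μ * σ μ * σ (σ μ) * σ (σ (σ μ)) * σ (σ (σ (σ μ))) := by
      simp only [hμ]
      ring
    rw [h1, hμd, hνd]
    simp only [map_mul, hr, h5]
    ring
  have hντ0 : τ ν ≠ 0 := (map_ne_zero τ).2 hν0
  refine ⟨μ ^ 2 * ν⁻¹, mul_ne_zero (pow_ne_zero 2 hμ0) (inv_ne_zero hν0), ?_, ?_⟩
  · rw [map_mul, map_pow, map_inv₀, hμ, hνσ]
  · rw [map_mul, map_mul, map_pow, map_inv₀, hμτ]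
    have h1 : q * (μ ^ 2 * ν⁻¹) * (τ q * (μ ^ 2 * (τ ν)⁻¹)) =
        (q * τ q) * μ ^ 4 * (ν * τ ν)⁻¹ := by
      rw [mul_inv]
      ring
    rw [h1, ← hμd, hνμ]
    have h2 : μ * μ ^ 4 = μ ^ 5 := by ring
    rw [h2]
    exact mul_inv_cancel₀ (pow_ne_zero 5 hμ0)

theorem dihedral_two (hr : D.r = 2) {v : B} {β c : E} (hv0 : v ≠ 0)
    (hv : ∀ e, v * P.ι e = P.ι (D.σ e) * v) (hβ0 : β ≠ 0) (hσ : D.σ β = β) (hτ : D.τ β = β⁻¹)
    (h5 : v ^ 5 = P.ι β) (hT : P.T v = P.ι c * v⁻¹) :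
    ∃ w : B, w ≠ 0 ∧ (∀ e, w * P.ι e = P.ι (D.σ e) * w) ∧ w ^ 5 = P.ι β ∧ P.T w = w⁻¹ := by
  have hk : D.k = 4 := by
    rcases D.hrk with h | h | h
    · omega
    · exact h.2
    · omega
  have hs5 : D.σ ^ 5 = 1 := by
    rw [← D.hσ]
    exact pow_orderOf_eq_one _
  have ht2 : D.τ ^ 2 = 1 := by
    rw [← hr, ← D.hτ]
    exact pow_orderOf_eq_one _
  have h5e : ∀ e, D.σ (D.σ (D.σ (D.σ (D.σ e)))) = e := by
    intro e
    have h := congrArg (fun g : E ≃ₐ[K] E => g e) hs5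
    exact h
  have h2e : ∀ e, D.τ (D.τ e) = e := by
    intro e
    have h := congrArg (fun g : E ≃ₐ[K] E => g e) ht2
    exact h
  have hre : ∀ e, D.τ (D.σ e) = D.σ (D.σ (D.σ (D.σ (D.τ e)))) := by
    intro e
    have h1 := D.rel
    rw [hk] at h1
    have h := congrArg (fun g : E ≃ₐ[K] E => g e) h1
    exact h
  have hinv : ∀ e, D.σ⁻¹ e = D.σ (D.σ (D.σ (D.σ e))) := by
    intro e
    have h1 : D.σ⁻¹ = D.σ ^ 4 := by
      apply inv_eq_of_mul_eq_one_right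
      rw [← pow_succ']
      exact hs5
    rw [h1]
    rfl
  have hs1 : ∀ e, D.σ (D.σ⁻¹ e) = e := by
    intro e
    rw [hinv, h5e]
  have hι0 : ∀ e, e ≠ 0 → P.ι e ≠ 0 := fun e he => (map_ne_zero P.ι).2 he
  have hιinj : Function.Injective P.ι := P.ι.injective
  have hvi : ∀ e, v⁻¹ * P.ι e = P.ι (D.σ⁻¹ e) * v⁻¹ := by
    intro e
    calc v⁻¹ * P.ι e = v⁻¹ * (P.ι e * v) * v⁻¹ := by
          rw [mul_assoc, mul_assoc, mul_inv_cancel₀ hv0, mul_one]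
      _ = v⁻¹ * (v * P.ι (D.σ⁻¹ e)) * v⁻¹ := by rw [hv, hs1]
      _ = P.ι (D.σ⁻¹ e) * v⁻¹ := by rw [← mul_assoc, inv_mul_cancel₀ hv0, one_mul]
  have hTT : ∀ b, P.T (P.T b) = b := by
    intro b
    have h1 := P.Tr
    rw [hr] at h1
    have h := congrArg (fun g : B ≃ₐ[K] B => g b) h1
    exact h
  have hc0 : c ≠ 0 := by
    rintro rfl
    rw [map_zero, zero_mul] at hT
    exact hv0 ((map_eq_zero P.T).1 hT)
  -- the norm of `c`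
  have hN : ∏ i ∈ Finset.range 5, (D.σ ^ i) c = 1 := by
    have h1 : P.T (v ^ 5) = P.ι β⁻¹ := by rw [h5, P.Tι, hτ]
    rw [map_pow, hT, pow_five'' P hv0 hv c, h5, ← map_inv₀, ← map_mul] at h1
    have h2 := hιinj h1
    exact mul_right_cancel₀ (inv_ne_zero hβ0) (h2.trans (one_mul _).symm)
  have hN' : ∏ i ∈ Finset.range 5, (D.σ⁻¹ ^ i) c = 1 := by
    rw [← hN]
    have h1 : (D.σ⁻¹ ^ 2) c = D.σ (D.σ (D.σ c)) := by
      show D.σ⁻¹ (D.σ⁻¹ c) = _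
      rw [hinv, hinv, h5e]
    have h2 : (D.σ⁻¹ ^ 3) c = D.σ (D.σ c) := by
      show D.σ⁻¹ (D.σ⁻¹ (D.σ⁻¹ c)) = _
      rw [hinv, hinv, hinv, h5e, h5e]
    have h3 : (D.σ⁻¹ ^ 4) c = D.σ c := by
      show D.σ⁻¹ (D.σ⁻¹ (D.σ⁻¹ (D.σ⁻¹ c))) = _
      rw [hinv, hinv, hinv, hinv, h5e, h5e, h5e]
    have h4 : (D.σ⁻¹ ^ 1) c = D.σ (D.σ (D.σ (D.σ c))) := by
      rw [pow_one, hinv]
    have k1 : (D.σ ^ 2) c = D.σ (D.σ c) := rfl
    have k2 : (D.σ ^ 3) c = D.σ (D.σ (D.σ c)) := rfl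
    have k3 : (D.σ ^ 4) c = D.σ (D.σ (D.σ (D.σ c))) := rfl
    rw [Finset.prod_range_succ, Finset.prod_range_succ, Finset.prod_range_succ,
      Finset.prod_range_succ, Finset.prod_range_succ, Finset.prod_range_succ,
      Finset.prod_range_succ, Finset.prod_range_succ, Finset.prod_range_succ,
      Finset.prod_range_succ, h1, h2, h3, h4, k1, k2, k3, pow_zero, pow_zero, pow_one]
    simp only [Finset.prod_range_zero]
    ring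
  obtain ⟨q, hq0, hq⟩ := h90 D.σ⁻¹ (by norm_num : 0 < 5) (by rw [orderOf_inv, D.hσ]) c hN'
  -- `τ c = σ c`
  have hcc : D.τ c = D.σ c := by
    have h1 := hTT v
    rw [hT, map_mul, map_inv₀, hT, P.Tι, mul_inv_rev, inv_inv, ← map_inv₀, hv, ← mul_assoc,
      ← map_mul] at h1
    have h2 : P.ι (D.τ c * D.σ c⁻¹) = 1 := by
      have h3 : P.ι (D.τ c * D.σ c⁻¹) * v = 1 * v := by rw [one_mul]; exact h1
      exact mul_right_cancel₀ hv0 h3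
    rw [← map_one P.ι] at h2
    have h3 := hιinj h2
    rw [map_inv₀] at h3
    exact (mul_inv_eq_one₀ ((map_ne_zero D.σ).2 hc0)).1 h3
  rw [hinv] at hq
  obtain ⟨m, hm0, hmσ, hm⟩ := RtB_field D.σ D.τ h5e h2e hre hq0 hq hcc
  obtain ⟨y, hy0, hy⟩ := h90 D.τ (by norm_num : 0 < 2) (by rw [D.hτ, hr]) (q * m) (by
    rw [Finset.prod_range_succ, Finset.prod_range_one, pow_zero, pow_one]
    exact hm)
  have hmi : D.σ⁻¹ m = m := by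
    rw [hinv]
    simp only [hmσ]
  have hιy : P.ι y ≠ 0 := hι0 y hy0
  have hw0 : P.ι y * v * (P.ι y)⁻¹ ≠ 0 :=
    mul_ne_zero (mul_ne_zero hιy hv0) (inv_ne_zero hιy)
  refine ⟨P.ι y * v * (P.ι y)⁻¹, hw0, fun e => ?_, ?_, ?_⟩
  · rw [← map_inv₀]
    calc P.ι y * v * P.ι y⁻¹ * P.ι e = P.ι y * (v * P.ι (e * y⁻¹)) := by
          rw [mul_assoc, ← map_mul, mul_comm y⁻¹ e, mul_assoc]
      _ = P.ι y * (P.ι (D.σ e) * (v * P.ι y⁻¹)) := by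
          rw [map_mul P.ι, ← mul_assoc v, hv e, mul_assoc]
      _ = P.ι (D.σ e) * (P.ι y * v * P.ι y⁻¹) := by
          rw [← mul_assoc, ← map_mul, mul_comm y, map_mul, mul_assoc, mul_assoc]
  · have h1 : ∀ n : ℕ, (P.ι y * v * (P.ι y)⁻¹) ^ n = P.ι y * v ^ n * (P.ι y)⁻¹ := by
      intro n
      induction n with
      | zero => rw [pow_zero, pow_zero, mul_one, mul_inv_cancel₀ hιy]
      | succ n ih =>
        rw [pow_succ, ih, pow_succ]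
        calc P.ι y * v ^ n * (P.ι y)⁻¹ * (P.ι y * v * (P.ι y)⁻¹)
            = P.ι y * v ^ n * ((P.ι y)⁻¹ * P.ι y) * v * (P.ι y)⁻¹ := by simp only [mul_assoc]
          _ = P.ι y * (v ^ n * v) * (P.ι y)⁻¹ := by
            rw [inv_mul_cancel₀ hιy]
            simp only [mul_assoc, one_mul]
    rw [h1, h5, ← map_mul, mul_comm y β, map_mul, mul_assoc, mul_inv_cancel₀ hιy, mul_one]
  · rw [map_mul, map_mul, map_inv₀, P.Tι, hT, mul_inv_rev, mul_inv_rev, inv_inv]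
    have h1 : (P.ι (D.τ y))⁻¹ = P.ι (D.τ y)⁻¹ := (map_inv₀ P.ι _).symm
    have h2 : (P.ι y)⁻¹ = P.ι y⁻¹ := (map_inv₀ P.ι _).symm
    rw [h1, h2, mul_assoc (P.ι (D.τ y)), mul_assoc (P.ι c), hvi, hvi, ← mul_assoc, ← mul_assoc,
      ← mul_assoc, ← map_mul, ← map_mul, ← map_mul]
    congr 2
    rw [← hy, map_inv₀, map_inv₀, map_mul, map_mul, hmi, hinv q, ← hq]
    have hyi : D.σ⁻¹ y ≠ 0 := (map_ne_zero D.σ⁻¹).2 hy0
    field_simp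

end Pool.Agent.H.MP_4c5958_al.SO
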