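import Pool.Agent.H.MP_4c5958_al.SO.Uu
import Pool.Agent.H.MP_4c5958_al.SO.RtA
import Pool.Agent.H.MP_4c5958_al.SO.RtB
import Pool.Agent.H.MP_4c5958_al.SO.RfA
import Pool.Agent.H.MP_4c5958_al.SO.RfB
import Pool.Agent.H.MP_4c5958_al.SO.RfC
import Pool.Agent.H.MP_4c5958_al.SO.RfD

/-!
# Module Nf: the normal form

The three cases of `D.hrk`. `r = 1`: `T = 1`, `S = {b}`, `d = 1`. `r = 2`: `S = {β}`, `b = β`,
`d = β⁻¹` (`w⁻¹ = ι β⁻¹ * w ^ 4`). `r = 4`: `S = {β, τ β}`, `b = β ^ 3 / τ β`, `d = τ β / β`;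
`τ (τ β) = β⁻¹`; `σ (τ β) = τ β`.
-/

set_option autoImplicit false

noncomputable section

namespace Pool.Agent.H.MP_4c5958_al.SO

universe u

theorem Nf_sigma_tau {K E : Type u} [Field K] [Field E] [Algebra K E] (D : GD K E)
    (hk : D.k = 2) {β : E} (hσ : D.σ β = β) : D.σ (D.τ β) = D.τ β := by
  have h1 : D.σ (D.σ (D.τ β)) = D.τ β := by
    have h2 := congrArg (fun g : E ≃ₐ[K] E => g β) D.rel
    simp only [AlgEquiv.mul_apply, hk, pow_two, hσ] at h2
    exact h2.symm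
  have h3 : (D.σ ^ 5) (D.τ β) = D.τ β := by
    have h4 : D.σ ^ 5 = 1 := by
      have := pow_orderOf_eq_one D.σ
      rwa [D.hσ] at this
    rw [h4]
    rfl
  have h5 : (D.σ ^ 5) (D.τ β) = D.σ (D.σ (D.σ (D.σ (D.σ (D.τ β))))) := rfl
  rw [h5, h1, h1] at h3
  exact h3

theorem normal_form {F K E A B : Type u} [Field F] [Field K] [Field E] [Algebra F K] [Algebra K E]
    [Algebra F E] [IsScalarTower F K E] {D : GD K E} [Ring A]
    [Algebra K A] [DivisionRing B] [Algebra K B] (P : AD D A B) :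
    ∃ (S : Finset E) (u : B) (b d : E), S.card ≤ (if D.r = 4 then 2 else 1) ∧
      (∀ s ∈ S, D.σ s = s) ∧
      (∀ s ∈ S, D.τ s ∈ IntermediateField.adjoin F (S : Set E)) ∧
      b ∈ IntermediateField.adjoin F (S : Set E) ∧ d ∈ IntermediateField.adjoin F (S : Set E) ∧
      u ≠ 0 ∧ (∀ e, u * P.ι e = P.ι (D.σ e) * u) ∧ u ^ 5 = P.ι b ∧
      P.T u = P.ι d * u ^ D.k := by
  classical
  obtain ⟨u, hu0, hu⟩ := exists_u P
  rcases D.hrk with ⟨hr, hk⟩ | ⟨hr, hk⟩ | ⟨hr, hk⟩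
  · obtain ⟨b, hb0, hσb, h5⟩ := exists_b P hu0 hu
    have hτ : D.τ = 1 := by
      rw [← orderOf_eq_one_iff, D.hτ, hr]
    have hT : P.T = 1 := by
      have h1 := P.Tr
      rwa [hr, pow_one] at h1
    have hbm : b ∈ IntermediateField.adjoin F (({b} : Finset E) : Set E) :=
      IntermediateField.subset_adjoin F _ (by simp)
    refine ⟨{b}, u, b, 1, ?_, ?_, ?_, hbm, one_mem _, hu0, hu, h5, ?_⟩
    · rw [if_neg (by omega), Finset.card_singleton]
    · intro s hs
      rw [Finset.mem_singleton] at hs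
      rw [hs, hσb]
    · intro s hs
      rw [Finset.mem_singleton] at hs
      rw [hs, hτ]
      exact hbm
    · rw [hT, hk, map_one, one_mul, pow_one]
      rfl
  · obtain ⟨v, β, c, hv0, hv, hβ0, hσ, hτ, h5, hT⟩ := dihedral_one P hr hu0 hu
    obtain ⟨w, hw0, hw, hw5, hwT⟩ := dihedral_two P hr hv0 hv hβ0 hσ hτ h5 hT
    have hbm : β ∈ IntermediateField.adjoin F (({β} : Finset E) : Set E) :=
      IntermediateField.subset_adjoin F _ (by simp)
    refine ⟨{β}, w, β, β⁻¹, ?_, ?_, ?_, hbm, inv_mem hbm, hw0, hw, hw5, ?_⟩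
    · rw [if_neg (by omega), Finset.card_singleton]
    · intro s hs
      rw [Finset.mem_singleton] at hs
      rw [hs, hσ]
    · intro s hs
      rw [Finset.mem_singleton] at hs
      rw [hs, hτ]
      exact inv_mem hbm
    · rw [hwT, hk]
      have h1 : w ^ 4 * w = P.ι β := by
        rw [← pow_succ]
        exact hw5
      have h2 : P.ι β⁻¹ * P.ι β = 1 := by
        rw [← map_mul, inv_mul_cancel₀ hβ0, map_one]
      exact inv_eq_of_mul_eq_one_left (by rw [mul_assoc, h1, h2])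
  · obtain ⟨v, β, c, hv0, hv, hβ0, hσ, hτ, h5, hT⟩ := four_one P hr hu0 hu
    obtain ⟨q, hq0, hTq⟩ := four_two_a P hr hv0 hv hβ0 hσ hτ h5 hT
    have hμ := four_two_b P hr hv0 hv hβ0 hσ hτ h5 hq0 hTq
    obtain ⟨w, hw0, hw, hw5, hwT⟩ := four_three P hr hv0 hv hβ0 hσ h5 hq0 hTq hμ
    have hbm : β ∈ IntermediateField.adjoin F (({β, D.τ β} : Finset E) : Set E) :=
      IntermediateField.subset_adjoin F _ (by simp)
    have htm : D.τ β ∈ IntermediateField.adjoin F (({β, D.τ β} : Finset E) : Set E) :=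
      IntermediateField.subset_adjoin F _ (by simp)
    refine ⟨{β, D.τ β}, w, β ^ 3 * (D.τ β)⁻¹, D.τ β * β⁻¹, ?_, ?_, ?_,
      mul_mem (pow_mem hbm 3) (inv_mem htm), mul_mem htm (inv_mem hbm), hw0, hw, hw5, ?_⟩
    · rw [if_pos hr]
      exact Finset.card_le_two
    · intro s hs
      rw [Finset.mem_insert, Finset.mem_singleton] at hs
      rcases hs with h | h
      · rw [h, hσ]
      · rw [h]
        exact Nf_sigma_tau D hk hσ
    · intro s hs
      rw [Finset.mem_insert, Finset.mem_singleton] at hs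
      rcases hs with h | h
      · rw [h]
        exact htm
      · rw [h, hτ]
        exact inv_mem hbm
    · rw [hwT, hk]

end Pool.Agent.H.MP_4c5958_al.SO
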