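import Pool.Agent.H.MP_4c5958_al.SO.Gal
import Pool.Agent.H.MP_4c5958_al.SO.Mk
import Pool.Agent.H.MP_4c5958_al.SO.Nf
import Pool.Agent.H.MP_4c5958_al.SO.CrC
import Pool.Agent.H.MP_4c5958_al.SO.Trd
import Pool.Agent.H.MP_4c5958_al.SO.Fth
import Pool.Agent.H.MP_4c5958_al.SO.Frm
import Pool.Agent.H.MP_4c5958_al.SO.Fz
import Pool.Agent.H.MP_4c5958_al.SO.Dsc
import Pool.Agent.H.MP_4c5958_al.SO.Csa
import Pool.Agent.H.MP_4c5958_al.SO.Spl

/-!
# Module Main: the assembly
-/

set_option autoImplicit false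

noncomputable section

open scoped TensorProduct
open Polynomial

namespace Pool.Agent.H.MP_4c5958_al.SO

universe u

theorem T_pow_ι {K E A B : Type u} [Field K] [Field E] [Algebra K E] {D : GD K E} [Ring A]
    [Algebra K A] [DivisionRing B] [Algebra K B] (P : AD D A B) (j : ℕ) (e : E) :
    (P.T ^ j) (P.ι e) = P.ι ((D.τ ^ j) e) := by
  induction j with
  | zero => simp
  | succ n ih => rw [pow_succ', pow_succ', AlgEquiv.mul_apply, AlgEquiv.mul_apply, ih, P.Tι]

theorem main_aux {F K E A : Type u} [Field F] [Field K] [Field E] [Algebra F K] [Algebra K E]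
    [Algebra F E] [IsScalarTower F K E] [Infinite K] (D : GD K E) [Ring A] [Algebra K A]
    [Algebra.IsCentral K A] [IsSimpleRing A] [IsDomain A] (hdim : Module.finrank K A = 25) (x : A)
    (hD : minpoly K D.θ = minpoly K x) :
    ∃ L : IntermediateField F K,
      (∃ (A₀ : Type u) (_ : Ring A₀) (_ : Algebra L A₀), (Algebra.IsCentral L A₀ ∧
        IsSimpleRing A₀ ∧ Module.finrank L A₀ = 25) ∧ Nonempty (K ⊗[L] A₀ ≃ₐ[K] A)) ∧
      Algebra.trdeg F L ≤ (2 + (if D.r = 4 then 2 else 1) : ℕ) := by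
  have hfd := D.fin
  have hgal := D.gal
  obtain ⟨B, _, _, ⟨P⟩⟩ := exists_AD D hdim x hD.symm
  obtain ⟨S, u, b, d, hScard, hσS, hτS, hb, hd, hu0, hu, h5, hT⟩ := normal_form (F := F) P
  obtain ⟨S0, hS0card, hσ0, hτ0, e0, he0, hσe0⟩ := exists_small (F := F) D
  classical
  obtain ⟨U, hU⟩ : ∃ U : Finset E, U = S0 ∪ S := ⟨_, rfl⟩
  obtain ⟨L, hLdef⟩ : ∃ L : IntermediateField F E,
      L = IntermediateField.adjoin F (U : Set E) := ⟨_, rfl⟩
  have hS0L : IntermediateField.adjoin F (S0 : Set E) ≤ L := by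
    rw [hLdef]
    exact IntermediateField.adjoin.mono F _ _ (by
      rw [hU, Finset.coe_union]; exact Set.subset_union_left)
  have hSL : IntermediateField.adjoin F (S : Set E) ≤ L := by
    rw [hLdef]
    exact IntermediateField.adjoin.mono F _ _ (by
      rw [hU, Finset.coe_union]; exact Set.subset_union_right)
  have h1σ : ∀ e ∈ L, D.σ e ∈ L := by
    intro e he
    rw [hLdef] at he
    refine adjoin_stable (U : Set E) D.σ L (le_of_eq hLdef.symm) (fun s hs => ?_) e he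
    rw [Finset.mem_coe, hU, Finset.mem_union] at hs
    rcases hs with h | h
    · exact hS0L (hσ0 s h)
    · rw [hσS s h]
      exact hSL (IntermediateField.subset_adjoin F _ (Finset.mem_coe.2 h))
  have h1τ : ∀ e ∈ L, D.τ e ∈ L := by
    intro e he
    rw [hLdef] at he
    refine adjoin_stable (U : Set E) D.τ L (le_of_eq hLdef.symm) (fun s hs => ?_) e he
    rw [Finset.mem_coe, hU, Finset.mem_union] at hs
    rcases hs with h | h
    · exact hS0L (hτ0 s h)
    · exact hSL (hτS s h)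
  have h1 := stable_all D L h1σ h1τ
  have h2 := faithful D L h1σ h1τ e0 (hS0L he0) hσe0
  obtain ⟨B₁, κ, _, w, hw, hco, hK, hTB, hKc⟩ :=
    exists_form P L h1 h2 hu0 hu (hSL hb) (hSL hd) h5 hT
  obtain ⟨m0, hm0, hm1⟩ := exists_trace D
  have hr : 0 < D.r := by
    rcases D.hrk with ⟨h, _⟩ | ⟨h, _⟩ | ⟨h, _⟩ <;> omega
  have hm : ∑ j ∈ Finset.range D.r, (P.T ^ j) (P.ι m0) = 1 := by
    simp_rw [T_pow_ι]
    rw [← map_sum, hm1, map_one]
  obtain ⟨L', hL'⟩ : ∃ L' : IntermediateField F K, L' = L.comap (IsScalarTower.toAlgHom F K E) :=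
    ⟨_, rfl⟩
  have hmem : ∀ c : K, c ∈ L' ↔ algebraMap K E c ∈ L := by
    intro c
    rw [hL']
    rfl
  obtain ⟨A₀, hA₀, φ, hφ⟩ := exists_descent L' P.inc P.inc_inj P.T D.r
    hr P.Tr P.Tinc P.Tfix (P.ι m0) hm B₁ w hw (fun y hy s => (hmem _).2 (hco y hy s))
    (fun c hc => hK c ((hmem c).1 hc)) hTB
  have hc : ∀ c : K, algebraMap K A c ∈ A₀ → c ∈ L' := by
    intro c hc
    have := (hA₀ _).1 hc
    rw [AlgHom.commutes] at this
    exact (hmem c).2 (hKc c this)
  refine ⟨L', ⟨A₀, inferInstance, inferInstance, csa_of_form hdim _ A₀ φ hφ hc, ⟨φ⟩⟩, ?_⟩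
  rw [hL']
  refine (trdeg_comap_le L).trans ?_
  rw [hLdef]
  refine (trdeg_adjoin_le U).trans ?_
  rw [hU]
  exact Nat.cast_le.2 ((Finset.card_union_le _ _).trans (add_le_add hS0card hScard))

theorem main {F K A : Type u} [Field F] [Field K] [Algebra F K] [Ring A] [Algebra K A]
    [Algebra.IsCentral K A] [IsSimpleRing A] (hdim : Module.finrank K A = 25) (x : A)
    (hirr : Irreducible (minpoly K x)) (hdeg : (minpoly K x).natDegree = 5)
    (hsep : (minpoly K x).Separable) (hsol : Group.IsSolvable (minpoly K x).Gal) :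
    ∃ L : IntermediateField F K,
      (∃ (A₀ : Type u) (_ : Ring A₀) (_ : Algebra L A₀), (Algebra.IsCentral L A₀ ∧
        IsSimpleRing A₀ ∧ Module.finrank L A₀ = 25) ∧ Nonempty (K ⊗[L] A₀ ≃ₐ[K] A)) ∧
      Algebra.trdeg F L ≤ (if Nat.card (minpoly K x).Gal = 20 then 4 else 3 : ℕ) := by
  by_cases hdom : IsDomain A
  swap
  · obtain ⟨e⟩ := split_of_not_domain hdim hdom
    refine ⟨⊥, form_of_split e ⊥, ?_⟩
    rw [trdeg_bot]
    exact zero_le
  have hinf : Infinite K := infinite_of_domain hdim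
  have hfin : FiniteDimensional K A := Module.finite_of_finrank_pos (by rw [hdim]; norm_num)
  have hint : IsIntegral K x := IsIntegral.of_finite K x
  have hmon := minpoly.monic hint
  obtain ⟨D, hD, hcard⟩ := exists_GD (minpoly K x) hirr hmon hdeg hsep hsol
  obtain ⟨L, hL1, hL2⟩ := main_aux (F := F) D hdim x hD
  refine ⟨L, hL1, hL2.trans ?_⟩
  rw [hcard]
  refine Nat.cast_le.2 ?_
  split_ifs <;> omega

end Pool.Agent.H.MP_4c5958_al.SO
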