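import Pool.Agent.H.MP_4c5958_al.SO.UuA
import Pool.Agent.H.MP_4c5958_al.SO.Aw

/-!
# Module UuB: an element `u` with `u θ = σ(θ) u`

Let `p = minpoly K θ` (degree five), `x = ι θ`, and `p = (X - σ θ) q` over `E`, `q = ∑ q_k X ^ k` of
degree four, monic (`σ θ` is a root of `p`). For `a : B` put `u(a) = ∑ ι (q_k) a x ^ k`. As `p (x) = 0`
and the coefficients of `p` are in `K`, `u(a) x - ι (σ θ) u(a) = ∑ ι (p_k) a x ^ k = a p(x) = 0`.
If `u(a) = 0` for all `a` then all `q_k = 0` by `aw` and `pow_indep`, but `q_4 = 1`.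
-/

set_option autoImplicit false

noncomputable section

namespace Pool.Agent.H.MP_4c5958_al.SO

universe u

/-- Multiplication by `X - s` under the map `f ↦ ∑ ι (f_k) a x ^ k`. -/
theorem UuB_shift {E B : Type*} [Field E] [Ring B] (ι : E →+* B) (s : E) (q : Polynomial E) (n : ℕ)
    (hq : q.natDegree < n) (a x : B) :
    ∑ k ∈ Finset.range (n + 1), ι (((Polynomial.X - Polynomial.C s) * q).coeff k) * a * x ^ k =
      (∑ k ∈ Finset.range n, ι (q.coeff k) * a * x ^ k) * x -
        ι s * ∑ k ∈ Finset.range n, ι (q.coeff k) * a * x ^ k := by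
  have h1 : ∀ k, ((Polynomial.X - Polynomial.C s) * q).coeff (k + 1) =
      q.coeff k - s * q.coeff (k + 1) := by
    intro k
    rw [sub_mul, Polynomial.coeff_sub, Polynomial.coeff_X_mul, Polynomial.coeff_C_mul]
  have h0 : ((Polynomial.X - Polynomial.C s) * q).coeff 0 = - (s * q.coeff 0) := by
    rw [sub_mul, Polynomial.coeff_sub, Polynomial.coeff_X_mul_zero, Polynomial.coeff_C_mul, zero_sub]
  have e : ∑ k ∈ Finset.range n, ι (q.coeff k) * a * x ^ k =
      ∑ k ∈ Finset.range n, ι (q.coeff (k + 1)) * a * x ^ (k + 1) + ι (q.coeff 0) * a := by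
    have e1 := Finset.sum_range_succ' (fun k => ι (q.coeff k) * a * x ^ k) n
    rw [Finset.sum_range_succ, Polynomial.coeff_eq_zero_of_natDegree_lt hq] at e1
    simpa using e1
  have e2 : ι s * ∑ k ∈ Finset.range n, ι (q.coeff k) * a * x ^ k =
      ∑ k ∈ Finset.range n, ι s * (ι (q.coeff (k + 1)) * a * x ^ (k + 1)) +
        ι s * (ι (q.coeff 0) * a) := by
    rw [e, mul_add, Finset.mul_sum]
  rw [e2, Finset.sum_range_succ', Finset.sum_mul, h0, ← sub_sub, ← Finset.sum_sub_distrib]
  have e3 : ∀ k ∈ Finset.range n,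
      ι (((Polynomial.X - Polynomial.C s) * q).coeff (k + 1)) * a * x ^ (k + 1) =
        ι (q.coeff k) * a * x ^ k * x - ι s * (ι (q.coeff (k + 1)) * a * x ^ (k + 1)) := by
    intro k _
    rw [h1, map_sub, map_mul, pow_succ]
    noncomm_ring
  rw [Finset.sum_congr rfl e3, map_neg, map_mul, pow_zero, mul_one]
  noncomm_ring

/-- The elements `u(a)` of the header. -/
theorem UuB_rel {K E B : Type*} [Field K] [Field E] [Algebra K E] [Ring B] [Algebra K B]
    (ι : E →ₐ[K] B) (t s : E) (p : Polynomial K) (q : Polynomial E) (n : ℕ)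
    (hp : Polynomial.aeval t p = 0) (hpn : p.natDegree < n + 1)
    (hpq : p.map (algebraMap K E) = (Polynomial.X - Polynomial.C s) * q)
    (hq : q.natDegree < n) (a : B) :
    (∑ k ∈ Finset.range n, ι (q.coeff k) * a * ι t ^ k) * ι t =
      ι s * ∑ k ∈ Finset.range n, ι (q.coeff k) * a * ι t ^ k := by
  have h := UuB_shift (ι : E →+* B) s q n hq a (ι t)
  rw [← hpq] at h
  have h2 : ∑ k ∈ Finset.range (n + 1),
      (ι : E →+* B) ((p.map (algebraMap K E)).coeff k) * a * (ι t) ^ k = a * ι (Polynomial.aeval t p) := by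
    rw [Polynomial.aeval_eq_sum_range' hpn, map_sum, Finset.mul_sum]
    refine Finset.sum_congr rfl fun k _ => ?_
    rw [Polynomial.coeff_map, RingHom.coe_coe, AlgHom.commutes, map_smul, map_pow,
      mul_smul_comm, Algebra.smul_def, mul_assoc]
  rw [h2, hp, map_zero, mul_zero] at h
  exact (sub_eq_zero.mp h.symm)

theorem exists_u_theta {K E A B : Type u} [Field K] [Field E] [Algebra K E] {D : GD K E} [Ring A]
    [Algebra K A] [DivisionRing B] [Algebra K B] (P : AD D A B) :
    ∃ u : B, u ≠ 0 ∧ u * P.ι D.θ = P.ι (D.σ D.θ) * u := by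
  have := D.fin
  have := D.gal
  have hp : Polynomial.aeval D.θ (minpoly K D.θ) = 0 := minpoly.aeval K D.θ
  have pm : (minpoly K D.θ).Monic := minpoly.monic (Algebra.IsIntegral.isIntegral D.θ)
  have pEm : ((minpoly K D.θ).map (algebraMap K E)).Monic := pm.map _
  have hroot : ((minpoly K D.θ).map (algebraMap K E)).IsRoot (D.σ D.θ) := by
    rw [Polynomial.IsRoot.def, Polynomial.eval_map_algebraMap, ← minpoly.algEquiv_eq D.σ D.θ]
    exact minpoly.aeval K (D.σ D.θ)
  obtain ⟨q, hq⟩ := Polynomial.dvd_iff_isRoot.mpr hroot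
  have qm : q.Monic := by
    refine (Polynomial.monic_X_sub_C (D.σ D.θ)).of_mul_monic_left ?_
    rw [← hq]
    exact pEm
  have hqd : q.natDegree = 4 := by
    have h5 : ((minpoly K D.θ).map (algebraMap K E)).natDegree = 5 := by
      rw [Polynomial.natDegree_map, D.deg]
    rw [hq, (Polynomial.monic_X_sub_C (D.σ D.θ)).natDegree_mul qm,
      Polynomial.natDegree_X_sub_C] at h5
    omega
  by_contra hno
  push Not at hno
  have hall : ∀ a : B, ∑ k : Fin 5, P.ι (q.coeff k) * a * (P.ι D.θ) ^ (k : ℕ) = 0 := by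
    intro a
    by_contra hne
    have hr := UuB_rel P.ι D.θ (D.σ D.θ) (minpoly K D.θ) q 5 hp (by rw [D.deg]; norm_num) hq
      (by rw [hqd]; norm_num) a
    rw [Finset.sum_range] at hr
    exact hno _ hne hr
  have h4 := aw (fun k : Fin 5 => P.ι (q.coeff k)) (fun k : Fin 5 => (P.ι D.θ) ^ (k : ℕ))
    (fun c hc h => pow_indep P c hc h) hall 4
  have h41 : q.coeff 4 = 1 := by
    rw [← hqd]
    exact qm.coeff_natDegree
  have h42 : P.ι (q.coeff 4) = 0 := h4
  rw [h41, map_one] at h42
  exact one_ne_zero h42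

end Pool.Agent.H.MP_4c5958_al.SO
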