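import Pool.Agent.H.MP_4c5958_al.SO.Fy
import Pool.Agent.H.MP_4c5958_al.SO.UuB

/-!
# Module Uu: an element `u` that induces `σ`

Take `u` from `exists_u_theta`; `e ↦ u * ι e * u⁻¹` and `e ↦ ι (σ e)` are `K`-algebra homomorphisms that
agree at `θ` and for `e` fixed by `σ` (`P.central`), so they are equal by `hom_ext`.
-/


set_option autoImplicit false

noncomputable section

namespace Pool.Agent.H.MP_4c5958_al.SO

universe u

/-- Conjugation of a homomorphism by a nonzero element of a division ring. -/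
theorem Uu_conj {K E B : Type u} [Field K] [Field E] [Algebra K E] [DivisionRing B] [Algebra K B]
    (ι : E →ₐ[K] B) (w : B) (hw : w ≠ 0) : ∃ f : E →ₐ[K] B, ∀ e, f e = w * ι e * w⁻¹ := by
  refine ⟨{ toFun := fun e => w * ι e * w⁻¹, map_one' := ?_, map_mul' := ?_, map_zero' := ?_,
            map_add' := ?_, commutes' := ?_ }, fun _ => rfl⟩
  · rw [map_one, mul_one, mul_inv_cancel₀ hw]
  · intro x y
    rw [map_mul]
    have h : w * ι x * w⁻¹ * (w * ι y * w⁻¹) = w * ι x * (w⁻¹ * w) * ι y * w⁻¹ := by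
      simp only [mul_assoc]
    rw [h, inv_mul_cancel₀ hw, mul_one]
    simp only [mul_assoc]
  · rw [map_zero, mul_zero, zero_mul]
  · intro x y
    rw [map_add, mul_add, add_mul]
  · intro r
    show w * ι (algebraMap K E r) * w⁻¹ = algebraMap K B r
    rw [ι.commutes, ← Algebra.commutes, mul_assoc, mul_inv_cancel₀ hw, mul_one]

theorem exists_u {K E A B : Type u} [Field K] [Field E] [Algebra K E] {D : GD K E} [Ring A]
    [Algebra K A] [DivisionRing B] [Algebra K B] (P : AD D A B) :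
    ∃ u : B, u ≠ 0 ∧ ∀ e, u * P.ι e = P.ι (D.σ e) * u := by
  obtain ⟨w, hw, h⟩ := exists_u_theta P
  obtain ⟨f, hf⟩ := Uu_conj P.ι w hw
  have hg : f = P.ι.comp (D.σ : E →ₐ[K] E) := by
    refine hom_ext D f _ ?_ ?_
    · intro e he
      rw [hf, P.central e he w, mul_assoc, mul_inv_cancel₀ hw, mul_one]
      show P.ι e = P.ι (D.σ e)
      rw [he]
    · rw [hf, h, mul_assoc, mul_inv_cancel₀ hw, mul_one]
      rfl
  refine ⟨w, hw, fun e => ?_⟩
  have h1 : f e = P.ι (D.σ e) := by
    rw [hg]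
    rfl
  rw [← h1, hf, mul_assoc, inv_mul_cancel₀ hw, mul_one]

end Pool.Agent.H.MP_4c5958_al.SO
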