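import Pool.Agent.H.MP_4c5958_al.SO.Defs

/-!
# Module UuA: the powers of `ι θ` are independent over the centre

The centre is `ι M` (`P.of_central`); `ι` is injective; if `∑ m_k θ ^ k = 0` with `σ m_k = m_k`
then all `σ ^ i θ` (`i < 5`, distinct: `D.hσ`, `D.σθ`, `5` is prime) are roots of the polynomial
`∑ m_k X ^ k` of degree less than five, so it is zero.
-/

set_option autoImplicit false

noncomputable section

namespace Pool.Agent.H.MP_4c5958_al.SO

universe u

theorem UuA_iter {K E : Type u} [Field K] [Field E] [Algebra K E] (σ : E ≃ₐ[K] E) {θ : E}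
    {d : ℕ} (h : (σ ^ d) θ = θ) (k : ℕ) : (σ ^ (d * k)) θ = θ := by
  induction k with
  | zero => rfl
  | succ k ih =>
    rw [Nat.mul_succ, pow_add, AlgEquiv.mul_apply, h, ih]

theorem UuA_dist {K E : Type u} [Field K] [Field E] [Algebra K E] (D : GD K E) {i j : ℕ}
    (hij : i < j) (hj : j < 5) (h : (D.σ ^ i) D.θ = (D.σ ^ j) D.θ) : False := by
  obtain ⟨d, hd⟩ : ∃ d, d = j - i := ⟨_, rfl⟩
  have hj' : j = i + d := by omega
  rw [hj', pow_add, AlgEquiv.mul_apply] at h
  have h1 : (D.σ ^ d) D.θ = D.θ := ((D.σ ^ i).injective h).symm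
  have h5 : D.σ ^ 5 = 1 := by
    rw [← D.hσ]
    exact pow_orderOf_eq_one _
  have key : ∀ k q : ℕ, d * k = 1 + 5 * q → False := by
    intro k q hk
    have h2 := UuA_iter D.σ h1 k
    rw [hk, pow_add, pow_mul, h5, one_pow, mul_one, pow_one] at h2
    exact D.σθ h2
  have hd1 : 1 ≤ d := by omega
  have hd4 : d ≤ 4 := by omega
  interval_cases d
  · exact key 1 0 rfl
  · exact key 3 1 rfl
  · exact key 2 1 rfl
  · exact key 4 3 rfl

theorem UuA_inj {K E : Type u} [Field K] [Field E] [Algebra K E] (D : GD K E) :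
    Function.Injective (fun i : Fin 5 => (D.σ ^ (i : ℕ)) D.θ) := by
  intro i j hij
  have hij' : (D.σ ^ (i : ℕ)) D.θ = (D.σ ^ (j : ℕ)) D.θ := hij
  rcases Nat.lt_trichotomy (i : ℕ) (j : ℕ) with h | h | h
  · exact (UuA_dist D h j.2 hij').elim
  · exact Fin.ext h
  · exact (UuA_dist D h i.2 hij'.symm).elim

theorem UuA_fix {K E : Type u} [Field K] [Field E] [Algebra K E] (σ : E ≃ₐ[K] E) {m : E}
    (h : σ m = m) (i : ℕ) : (σ ^ i) m = m := by
  induction i with
  | zero => rfl
  | succ i ih => rw [pow_succ, AlgEquiv.mul_apply, h, ih]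

theorem UuA_field {K E : Type u} [Field K] [Field E] [Algebra K E] (D : GD K E) (m : Fin 5 → E)
    (hm : ∀ k, D.σ (m k) = m k) (h : ∑ k, m k * D.θ ^ (k : ℕ) = 0) : ∀ k, m k = 0 := by
  obtain ⟨q, hq⟩ : ∃ q : Polynomial E, q = ∑ k : Fin 5, Polynomial.C (m k) *
    Polynomial.X ^ (k : ℕ) := ⟨_, rfl⟩
  have h0 : q = 0 := by
    refine Polynomial.eq_zero_of_natDegree_lt_card_of_eval_eq_zero q (UuA_inj D) ?_ ?_
    · intro i
      have h1 := congrArg (D.σ ^ (i : ℕ)) h
      rw [map_sum, map_zero] at h1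
      rw [hq, Polynomial.eval_finset_sum, ← h1]
      refine Finset.sum_congr rfl fun k _ => ?_
      rw [Polynomial.eval_mul, Polynomial.eval_C, Polynomial.eval_pow, Polynomial.eval_X,
        map_mul, map_pow, UuA_fix D.σ (hm k)]
    · rw [Fintype.card_fin]
      have h2 : q.natDegree ≤ 4 := by
        rw [hq]
        refine Polynomial.natDegree_sum_le_of_forall_le _ _ fun k _ => ?_
        refine (Polynomial.natDegree_C_mul_X_pow_le _ _).trans ?_
        have := k.2
        omega
      omega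
  intro k
  have h3 := congrArg (fun p : Polynomial E => p.coeff (k : ℕ)) h0
  simp only [Polynomial.coeff_zero] at h3
  rw [hq, Polynomial.finset_sum_coeff, Finset.sum_eq_single k] at h3
  · rw [Polynomial.coeff_C_mul, Polynomial.coeff_X_pow, if_pos rfl, mul_one] at h3
    exact h3
  · intro j _ hj
    rw [Polynomial.coeff_C_mul, Polynomial.coeff_X_pow, if_neg, mul_zero]
    intro h4
    exact hj (Fin.ext h4).symm
  · intro h4
    exact absurd (Finset.mem_univ k) h4

theorem pow_indep {K E A B : Type u} [Field K] [Field E] [Algebra K E] {D : GD K E} [Ring A]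
    [Algebra K A] [DivisionRing B] [Algebra K B] (P : AD D A B) (c : Fin 5 → B)
    (hc : ∀ k b, c k * b = b * c k) (h : ∑ k, c k * (P.ι D.θ) ^ (k : ℕ) = 0) : ∀ k, c k = 0 := by
  have h1 : ∀ k, ∃ e, D.σ e = e ∧ c k = P.ι e := fun k => P.of_central (c k) (hc k)
  choose m hm hcm using h1
  have h2 : P.ι (∑ k, m k * D.θ ^ (k : ℕ)) = 0 := by
    rw [map_sum, ← h]
    refine Finset.sum_congr rfl fun k _ => ?_
    rw [map_mul, map_pow, ← hcm]
  have hinj : Function.Injective P.ι := P.ι.toRingHom.injective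
  have h3 : ∑ k, m k * D.θ ^ (k : ℕ) = 0 := by
    apply hinj
    rw [h2, map_zero]
  intro k
  rw [hcm, UuA_field D m hm h3 k, map_zero]

end Pool.Agent.H.MP_4c5958_al.SO
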